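import Mathlib

set_option autoImplicit false

/-! # The base profile: a smooth 1-periodic function with `w s = s` on `[0, 3/4]` -/

namespace Pool.Agent.Lib_helper43.Dyn

open Real MeasureTheory Filter Topology Set
open scoped ContDiff

/-- The base profile. -/
noncomputable def w (s : ℝ) : ℝ := Int.fract s - Real.smoothTransition (4 * Int.fract s - 3)

lemma w_periodic : Function.Periodic w 1 := fun s => by simp [w]

lemma w_add_int (s : ℝ) (n : ℤ) : w (s + n) = w s := by simp [w]

lemma w_of_mem {s : ℝ} (h0 : 0 ≤ s) (h1 : s ≤ 3 / 4) : w s = s := by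
  have hf : Int.fract s = s := Int.fract_eq_self.mpr ⟨h0, by linarith⟩
  rw [w, hf, Real.smoothTransition.zero_of_nonpos (by linarith), sub_zero]

lemma abs_w_le (s : ℝ) : |w s| ≤ 1 := by
  have h1 := Int.fract_nonneg s
  have h2 := (Int.fract_lt_one s).le
  have h3 := Real.smoothTransition.nonneg (4 * Int.fract s - 3)
  have h4 := Real.smoothTransition.le_one (4 * Int.fract s - 3)
  rw [w, abs_le]
  constructor <;> linarith

/-- Local smooth representative of `w` around the integer `n`. -/
noncomputable def wloc (n : ℤ) (s : ℝ) : ℝ := s - n + 1 - Real.smoothTransition (4 * (s - n) + 1)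

lemma wloc_contDiff (n : ℤ) : ContDiff ℝ ∞ (wloc n) := by
  unfold wloc
  have h := (Real.smoothTransition.contDiff (n := ⊤)).comp
    (f := fun s : ℝ => 4 * (s - n) + 1) (by fun_prop)
  exact (by fun_prop : ContDiff ℝ ∞ fun s : ℝ => s - n + 1).sub h

lemma w_eq_wloc {n : ℤ} {s : ℝ} (h1 : (n : ℝ) - 1 < s) (h2 : s < n + 3 / 4) : w s = wloc n s := by
  rcases lt_or_ge s n with h | h
  · have hf : Int.fract s = s - n + 1 := by
      rw [Int.fract_eq_iff]
      refine ⟨by linarith, by linarith, n - 1, by push_cast; ring⟩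
    rw [w, wloc, hf]
    congr 2
    ring
  · have hf : Int.fract s = s - n := by
      rw [Int.fract_eq_iff]
      refine ⟨by linarith, by linarith, n, by ring⟩
    rw [w, wloc, hf, Real.smoothTransition.zero_of_nonpos (by linarith),
      Real.smoothTransition.one_of_one_le (by linarith)]
    ring

lemma exists_loc (s : ℝ) : ∃ n : ℤ, (n : ℝ) - 1 < s ∧ s < n + 3 / 4 := by
  rcases lt_or_ge (Int.fract s) (3 / 4) with h | h
  · refine ⟨⌊s⌋, by linarith [Int.floor_le s], ?_⟩
    have := Int.floor_add_fract s
    linarith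
  · refine ⟨⌊s⌋ + 1, ?_, ?_⟩
    · push_cast
      have := Int.floor_add_fract s
      linarith
    · push_cast
      linarith [Int.lt_floor_add_one s]

lemma w_contDiff : ContDiff ℝ ∞ w := by
  rw [contDiff_iff_contDiffAt]
  intro s
  obtain ⟨n, h1, h2⟩ := exists_loc s
  refine ((wloc_contDiff n).contDiffAt (x := s)).congr_of_eventuallyEq ?_
  filter_upwards [Ioo_mem_nhds h1 h2] with t ht
  exact w_eq_wloc ht.1 ht.2

/-- The derivative of the profile. -/
noncomputable def dw : ℝ → ℝ := deriv w

lemma w_continuous : Continuous w := w_contDiff.continuous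

lemma w_differentiable : Differentiable ℝ w := w_contDiff.differentiable (by simp)

lemma hasDerivAt_w (s : ℝ) : HasDerivAt w (dw s) s := (w_differentiable s).hasDerivAt

lemma dw_continuous : Continuous dw := w_contDiff.continuous_deriv (by simp)

lemma dw_periodic : Function.Periodic dw 1 := by
  intro s
  have h : w = fun t => w (t + 1) := by funext t; exact (w_periodic t).symm
  unfold dw
  conv_rhs => rw [h]
  rw [deriv_comp_add_const]

lemma dw_add_int (s : ℝ) (n : ℤ) : dw (s + n) = dw s := by
  have := dw_periodic.int_mul n s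
  simpa using this

/-- A bound for the derivative. -/
lemma exists_dw_bound : ∃ D : ℝ, 1 ≤ D ∧ ∀ s, |dw s| ≤ D := by
  obtain ⟨M, hM⟩ := (isCompact_Icc (a := (0 : ℝ)) (b := 1)).exists_bound_of_continuousOn
    dw_continuous.continuousOn
  refine ⟨max M 1, le_max_right _ _, fun s => ?_⟩
  have h : dw s = dw (Int.fract s) := by
    conv_lhs => rw [← Int.fract_add_floor s]
    exact dw_add_int _ _
  rw [h]
  exact le_trans (hM _ ⟨Int.fract_nonneg s, (Int.fract_lt_one s).le⟩) (le_max_left _ _)

/-- The bound. -/
noncomputable def Dw : ℝ := exists_dw_bound.choose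

lemma one_le_Dw : 1 ≤ Dw := exists_dw_bound.choose_spec.1

lemma Dw_pos : 0 < Dw := lt_of_lt_of_le one_pos one_le_Dw

lemma abs_dw_le (s : ℝ) : |dw s| ≤ Dw := exists_dw_bound.choose_spec.2 s

lemma abs_w_sub_le (s t : ℝ) : |w s - w t| ≤ Dw * |s - t| := by
  have := Convex.norm_image_sub_le_of_norm_deriv_le (f := w) (s := univ) (x := t) (y := s)
    (C := Dw) (fun x _ => w_differentiable x) (fun x _ => abs_dw_le x) convex_univ
    (mem_univ _) (mem_univ _)
  simpa [Real.norm_eq_abs] using this

end Pool.Agent.Lib_helper43.Dyn
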