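import Mathlib
import Pool.Agent.Lib_helper43.Dyn.Profile

set_option autoImplicit false

/-! # Fourier coefficients of `e(-m (w s - s))` -/

namespace Pool.Agent.Lib_helper43.Dyn

open MeasureTheory Filter Topology Set
open scoped ContDiff

/-- `e(x) = exp (2π i x)`. -/
noncomputable def e (x : ℝ) : ℂ := Complex.exp ((2 * Real.pi * x : ℝ) * Complex.I)

lemma e_zero : e 0 = 1 := by simp [e]

lemma e_add (x y : ℝ) : e (x + y) = e x * e y := by
  unfold e
  rw [← Complex.exp_add]
  congr 1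
  push_cast
  ring

lemma e_neg_mul_self (x : ℝ) : e (-x) * e x = 1 := by
  rw [← e_add, neg_add_cancel, e_zero]

lemma norm_e (x : ℝ) : ‖e x‖ = 1 := by
  unfold e
  exact Complex.norm_exp_ofReal_mul_I _

lemma e_ne_zero (x : ℝ) : e x ≠ 0 := Complex.exp_ne_zero _

lemma e_int (n : ℤ) : e n = 1 := by
  unfold e
  rw [Complex.exp_eq_one_iff]
  exact ⟨n, by push_cast; ring⟩

lemma e_add_int (x : ℝ) (n : ℤ) : e (x + n) = e x := by rw [e_add, e_int, mul_one]

lemma e_continuous : Continuous e := by unfold e; fun_prop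

lemma conj_e (x : ℝ) : (starRingEnd ℂ) (e x) = e (-x) := by
  unfold e
  rw [← Complex.exp_conj]
  congr 1
  rw [map_mul, Complex.conj_I, Complex.conj_ofReal]
  push_cast
  ring

lemma hasDerivAt_e {f : ℝ → ℝ} {f' x : ℝ} (hf : HasDerivAt f f' x) :
    HasDerivAt (fun t => e (f t)) (2 * Real.pi * f' * Complex.I * e (f x)) x := by
  unfold e
  have h1 : HasDerivAt (fun t => (((2 * Real.pi * f t : ℝ) : ℂ)) * Complex.I)
      (((2 * Real.pi * f' : ℝ) : ℂ) * Complex.I) x :=
    ((hf.const_mul (2 * Real.pi)).ofReal_comp).mul_const _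
  have h2 := h1.cexp
  convert h2 using 1
  push_cast
  ring

/-- The coefficients. -/
noncomputable def Cm (m : ℤ) : ℂ := ∫ s in (0 : ℝ)..1, e (-(m : ℝ) * (w s - s))

lemma Cm_continuous_integrand (m : ℤ) : Continuous fun s : ℝ => e (-(m : ℝ) * (w s - s)) :=
  e_continuous.comp (by
    have := w_continuous
    fun_prop)

lemma half_le_norm_Cm (m : ℤ) : 1 / 2 ≤ ‖Cm m‖ := by
  have hc := Cm_continuous_integrand m
  have h1 : Cm m = (∫ s in (0 : ℝ)..(3 / 4), e (-(m : ℝ) * (w s - s))) +
      ∫ s in (3 / 4 : ℝ)..1, e (-(m : ℝ) * (w s - s)) :=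
    (intervalIntegral.integral_add_adjacent_intervals (hc.intervalIntegrable _ _)
      (hc.intervalIntegrable _ _)).symm
  have h2 : (∫ s in (0 : ℝ)..(3 / 4), e (-(m : ℝ) * (w s - s))) = 3 / 4 := by
    have : (∫ s in (0 : ℝ)..(3 / 4), e (-(m : ℝ) * (w s - s))) = ∫ s in (0 : ℝ)..(3 / 4), (1 : ℂ) := by
      apply intervalIntegral.integral_congr
      intro s hs
      rw [uIcc_of_le (by norm_num)] at hs
      simp only
      rw [w_of_mem hs.1 hs.2, sub_self, mul_zero, e_zero]
    rw [this]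
    simp
  have h3 : ‖∫ s in (3 / 4 : ℝ)..1, e (-(m : ℝ) * (w s - s))‖ ≤ 1 / 4 := by
    have := intervalIntegral.norm_integral_le_of_norm_le_const (a := (3 / 4 : ℝ)) (b := 1) (C := 1)
      (f := fun s : ℝ => e (-(m : ℝ) * (w s - s))) (fun s _ => (norm_e _).le)
    refine this.trans ?_
    rw [abs_of_nonneg (by norm_num)]
    norm_num
  rw [h1, h2]
  have h4 : ‖(3 / 4 : ℂ)‖ = 3 / 4 := by norm_num
  have h5 := norm_sub_le ((3 / 4 : ℂ) + ∫ s in (3 / 4 : ℝ)..1, e (-(m : ℝ) * (w s - s)))
    (∫ s in (3 / 4 : ℝ)..1, e (-(m : ℝ) * (w s - s)))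
  rw [add_sub_cancel_right, h4] at h5
  linarith

lemma Cm_ne_zero (m : ℤ) : Cm m ≠ 0 := by
  intro h
  have := half_le_norm_Cm m
  rw [h] at this
  norm_num at this

/-- The factor `b`: `0` if the wave number vanishes, and `1` otherwise. -/
noncomputable def bf (m : ℤ) : ℝ := if m = 0 then 0 else 1

lemma integral_dw_Cm (m : ℤ) :
    ∫ s in (0 : ℝ)..1, (dw s : ℂ) * e (-(m : ℝ) * (w s - s)) = bf m * Cm m := by
  have hdc : Continuous fun s : ℝ => (dw s : ℂ) := Complex.continuous_ofReal.comp dw_continuous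
  have hc := Cm_continuous_integrand m
  have hw1 : w 1 = w 0 := by simpa using w_periodic 0
  by_cases hm : m = 0
  · subst hm
    simp only [Int.cast_zero, neg_zero, zero_mul, e_zero, mul_one, bf, if_true,
      Complex.ofReal_zero]
    have : ∫ s in (0 : ℝ)..1, (dw s : ℂ) = (w 1 : ℂ) - (w 0 : ℂ) :=
      intervalIntegral.integral_eq_sub_of_hasDerivAt (f := fun s => (w s : ℂ))
        (fun s _ => (hasDerivAt_w s).ofReal_comp) (hdc.intervalIntegrable _ _)
    rw [this, hw1, sub_self]
  · have h1 : ∫ s in (0 : ℝ)..1, (2 * Real.pi * ((-(m : ℝ) * (dw s - 1) : ℝ) : ℂ) * Complex.I *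
        e (-(m : ℝ) * (w s - s))) = e (-(m : ℝ) * (w 1 - 1)) - e (-(m : ℝ) * (w 0 - 0)) := by
      apply intervalIntegral.integral_eq_sub_of_hasDerivAt
        (f := fun s => e (-(m : ℝ) * (w s - s)))
      · intro s _
        exact hasDerivAt_e (((hasDerivAt_w s).sub (hasDerivAt_id s)).const_mul _)
      · apply Continuous.intervalIntegrable
        have := dw_continuous
        fun_prop
    have h2 : e (-(m : ℝ) * (w 1 - 1)) = e (-(m : ℝ) * (w 0 - 0)) := by
      rw [hw1]
      have : -(m : ℝ) * (w 0 - 1) = -(m : ℝ) * (w 0 - 0) + (m : ℤ) := by ring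
      rw [this, e_add_int]
    rw [h2, sub_self] at h1
    have h3 : ∫ s in (0 : ℝ)..1, (2 * Real.pi * ((-(m : ℝ) * (dw s - 1) : ℝ) : ℂ) * Complex.I *
        e (-(m : ℝ) * (w s - s))) = (-(2 * Real.pi * m * Complex.I)) *
        ((∫ s in (0 : ℝ)..1, (dw s : ℂ) * e (-(m : ℝ) * (w s - s))) - Cm m) := by
      unfold Cm
      have hdc2 : Continuous fun s : ℝ => (dw s : ℂ) * e (-(m : ℝ) * (w s - s)) := hdc.mul hc
      rw [← intervalIntegral.integral_sub (hdc2.intervalIntegrable _ _)
        (hc.intervalIntegrable _ _), ← intervalIntegral.integral_const_mul]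
      apply intervalIntegral.integral_congr
      intro s _
      simp only
      push_cast
      ring
    rw [h3] at h1
    have h4 : (-(2 * Real.pi * (m : ℂ) * Complex.I)) ≠ 0 := by
      simp [Real.pi_ne_zero, hm]
    rcases mul_eq_zero.mp h1 with h | h
    · exact absurd h h4
    · rw [sub_eq_zero.mp h]
      simp [bf, hm]

/-- Integrals of periodic functions against characters. -/
lemma integral_shift {f : ℝ → ℂ} (hf : Function.Periodic f 1) (q : ℤ) (ξ : ℝ) :
    ∫ α in (0 : ℝ)..1, e (q * α) * f (ξ + α) = e (-(q * ξ)) * ∫ s in (0 : ℝ)..1, e (q * s) * f s := by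
  have h1 : ∫ α in (0 : ℝ)..1, e (q * α) * f (ξ + α) =
      ∫ α in (0 : ℝ)..1, e (-(q * ξ)) * (e (q * (ξ + α)) * f (ξ + α)) := by
    apply intervalIntegral.integral_congr
    intro α _
    simp only
    rw [← mul_assoc, ← e_add]
    congr 2
    ring
  rw [h1, intervalIntegral.integral_const_mul,
    intervalIntegral.integral_comp_add_left (fun s => e (q * s) * f s) ξ]
  have hp : Function.Periodic (fun s : ℝ => e (q * s) * f s) 1 := by
    intro s
    simp only
    rw [hf s, mul_add, mul_one, e_add_int]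
  have := hp.intervalIntegral_add_eq ξ 0
  rw [zero_add] at this
  rw [add_zero, this]

lemma avg_one (q m : ℤ) (ξ : ℝ) :
    ∫ α in (0 : ℝ)..1, e (q * α) * e (-((q - m) * (ξ + α) + m * w (ξ + α))) =
      e (-(q * ξ)) * Cm m := by
  rw [integral_shift (f := fun s => e (-((q - m) * s + m * w s)))]
  · congr 1
    unfold Cm
    apply intervalIntegral.integral_congr
    intro s _
    simp only
    rw [← e_add]
    congr 1
    ring
  · intro s
    simp only
    rw [w_periodic s]
    have : -(((q : ℝ) - m) * (s + 1) + m * w s) =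
      -(((q : ℝ) - m) * s + m * w s) + ((m - q : ℤ) : ℝ) := by push_cast; ring
    rw [this, e_add_int]

lemma avg_dw (q m : ℤ) (ξ : ℝ) :
    ∫ α in (0 : ℝ)..1, e (q * α) * (dw (ξ + α) * e (-((q - m) * (ξ + α) + m * w (ξ + α)))) =
      e (-(q * ξ)) * (bf m * Cm m) := by
  rw [integral_shift (f := fun s => dw s * e (-((q - m) * s + m * w s)))]
  · congr 1
    rw [← integral_dw_Cm]
    apply intervalIntegral.integral_congr
    intro s _
    simp only
    rw [mul_left_comm, ← e_add]
    congr 2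
    ring
  · intro s
    simp only
    rw [w_periodic s, dw_periodic s]
    have : -(((q : ℝ) - m) * (s + 1) + m * w s) =
      -(((q : ℝ) - m) * s + m * w s) + ((m - q : ℤ) : ℝ) := by push_cast; ring
    rw [this, e_add_int]

end Pool.Agent.Lib_helper43.Dyn
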