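import Mathlib
import Pool.Agent.Lib_helper43.Dyn.Coef

set_option autoImplicit false

/-! # A smooth bump -/

namespace Pool.Agent.Lib_helper43.Dyn

open MeasureTheory Filter Topology Set
open scoped ContDiff

/-- A smooth bump supported in `[-1, 1]`. -/
noncomputable def bu (v : ℝ) : ℝ := Real.smoothTransition (1 + v) * Real.smoothTransition (1 - v)

lemma bu_contDiff : ContDiff ℝ ∞ bu := by
  unfold bu
  exact ((Real.smoothTransition.contDiff (n := ⊤)).comp (f := fun s : ℝ => 1 + s) (by fun_prop)).mul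
    ((Real.smoothTransition.contDiff (n := ⊤)).comp (f := fun s : ℝ => 1 - s) (by fun_prop))

lemma bu_nonneg (v : ℝ) : 0 ≤ bu v :=
  mul_nonneg (Real.smoothTransition.nonneg _) (Real.smoothTransition.nonneg _)

lemma bu_le_one (v : ℝ) : bu v ≤ 1 :=
  mul_le_one₀ (Real.smoothTransition.le_one _) (Real.smoothTransition.nonneg _)
    (Real.smoothTransition.le_one _)

lemma bu_zero {v : ℝ} (h : 1 ≤ |v|) : bu v = 0 := by
  unfold bu
  rcases le_abs'.mp h with h1 | h1
  · rw [Real.smoothTransition.zero_of_nonpos (by linarith), zero_mul]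
  · rw [Real.smoothTransition.zero_of_nonpos (x := 1 - v) (by linarith), mul_zero]

/-- Its derivative. -/
noncomputable def dbu : ℝ → ℝ := deriv bu

lemma bu_continuous : Continuous bu := bu_contDiff.continuous

lemma hasDerivAt_bu (v : ℝ) : HasDerivAt bu (dbu v) v :=
  (bu_contDiff.differentiable (by simp) v).hasDerivAt

lemma dbu_continuous : Continuous dbu := bu_contDiff.continuous_deriv (by simp)

lemma dbu_zero {v : ℝ} (h : 1 ≤ |v|) : dbu v = 0 := by
  apply IsLocalMin.deriv_eq_zero
  filter_upwards with u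
  rw [bu_zero h]
  exact bu_nonneg u

lemma exists_dbu_bound : ∃ D : ℝ, 0 ≤ D ∧ ∀ s, |dbu s| ≤ D := by
  obtain ⟨M, hM⟩ := (isCompact_Icc (a := (-1 : ℝ)) (b := 1)).exists_bound_of_continuousOn
    dbu_continuous.continuousOn
  refine ⟨max M 0, le_max_right _ _, fun s => ?_⟩
  by_cases h : 1 ≤ |s|
  · rw [dbu_zero h, abs_zero]; exact le_max_right _ _
  · push Not at h
    exact le_trans (hM _ ⟨(abs_lt.mp h).1.le, (abs_lt.mp h).2.le⟩) (le_max_left _ _)

/-- The bound. -/
noncomputable def Db : ℝ := exists_dbu_bound.choose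

lemma Db_nonneg : 0 ≤ Db := exists_dbu_bound.choose_spec.1

lemma abs_dbu_le (s : ℝ) : |dbu s| ≤ Db := exists_dbu_bound.choose_spec.2 s

/-- Its integral. -/
noncomputable def cb : ℝ := ∫ v in (-1 : ℝ)..1, bu v

lemma cb_pos : 0 < cb := by
  unfold cb
  apply intervalIntegral.intervalIntegral_pos_of_pos_on (bu_continuous.intervalIntegrable _ _)
  · intro v hv
    exact mul_pos (Real.smoothTransition.pos_of_pos (by linarith [hv.1]))
      (Real.smoothTransition.pos_of_pos (by linarith [hv.2]))
  · norm_num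

lemma integral_bu {A B : ℝ} (hA : A ≤ -1) (hB : 1 ≤ B) : ∫ v in A..B, bu v = cb := by
  have h1 : ∫ v in A..(-1), bu v = 0 := by
    rw [← intervalIntegral.integral_zero (μ := volume) (a := A) (b := -1)]
    apply intervalIntegral.integral_congr
    intro v hv
    rw [uIcc_of_le hA] at hv
    exact bu_zero (by rw [le_abs']; left; exact hv.2)
  have h2 : ∫ v in (1 : ℝ)..B, bu v = 0 := by
    rw [← intervalIntegral.integral_zero (μ := volume) (a := 1) (b := B)]
    apply intervalIntegral.integral_congr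
    intro v hv
    rw [uIcc_of_le hB] at hv
    exact bu_zero (by rw [le_abs']; right; exact hv.1)
  have hi := fun a b : ℝ => bu_continuous.intervalIntegrable (μ := volume) a b
  rw [← intervalIntegral.integral_add_adjacent_intervals (hi A (-1)) (hi (-1) B),
    ← intervalIntegral.integral_add_adjacent_intervals (hi (-1) 1) (hi 1 B), h1, h2]
  simp [cb]

/-- Integral over the unit interval of a rescaled bump. -/
lemma integral_bu_scaled {c d : ℝ} (hc : 0 < c) (hd : 1 ≤ d) (hcd : 1 ≤ c - d) :
    ∫ s in (0 : ℝ)..1, bu (c * s - d) = cb / c := by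
  rw [intervalIntegral.integral_comp_mul_sub bu hc.ne', mul_zero, mul_one, zero_sub,
    integral_bu (by linarith) hcd, smul_eq_mul]
  field_simp

/-- The Fourier transform of the derivative of a rescaled bump. -/
lemma integral_dbu_scaled {c d : ℝ} (hd : 1 ≤ d) (hcd : 1 ≤ c - d) (k : ℤ) :
    ∫ s in (0 : ℝ)..1, ((c * dbu (c * s - d) : ℝ) : ℂ) * e (-(k * s)) =
      2 * Real.pi * k * Complex.I * ∫ s in (0 : ℝ)..1, (bu (c * s - d) : ℂ) * e (-(k * s)) := by
  have h1 : ∀ s : ℝ, HasDerivAt (fun s : ℝ => ((bu (c * s - d) : ℝ) : ℂ) * e (-(k * s)))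
      (((c * dbu (c * s - d) : ℝ) : ℂ) * e (-(k * s)) +
        (bu (c * s - d) : ℂ) * (2 * Real.pi * ((-k : ℝ) : ℂ) * Complex.I * e (-(k * s)))) s := by
    intro s
    have h2 : HasDerivAt (fun s : ℝ => c * s - d) c s := by
      simpa using ((hasDerivAt_id s).const_mul c).sub_const d
    have h3 : HasDerivAt (fun s : ℝ => bu (c * s - d)) (dbu (c * s - d) * c) s :=
      HasDerivAt.comp (h₂ := bu) s (hasDerivAt_bu _) h2
    have h4 : HasDerivAt (fun s : ℝ => -((k : ℝ) * s)) (-(k : ℝ)) s := by
      have h5 := (hasDerivAt_id s).const_mul (-(k : ℝ))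
      simp only [id, mul_one, neg_mul] at h5
      exact h5
    have h5 := h3.ofReal_comp.mul (hasDerivAt_e h4)
    rw [mul_comm c (dbu _)]
    exact h5
  have hcb := bu_continuous
  have hcd' := dbu_continuous
  have hce := e_continuous
  have i1 : IntervalIntegrable (fun s : ℝ => ((c * dbu (c * s - d) : ℝ) : ℂ) * e (-(k * s)))
      volume 0 1 := Continuous.intervalIntegrable (by fun_prop) _ _
  have i2 : IntervalIntegrable (fun s : ℝ =>
      (bu (c * s - d) : ℂ) * (2 * Real.pi * ((-k : ℝ) : ℂ) * Complex.I * e (-(k * s))))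
      volume 0 1 := Continuous.intervalIntegrable (by fun_prop) _ _
  have h2 := intervalIntegral.integral_eq_sub_of_hasDerivAt (fun s _ => h1 s) (i1.add i2)
  rw [intervalIntegral.integral_add i1 i2] at h2
  have h3 : bu (c * 1 - d) = 0 := bu_zero (by rw [le_abs']; right; linarith)
  have h4 : bu (c * 0 - d) = 0 := bu_zero (by rw [le_abs']; left; linarith)
  rw [h3, h4] at h2
  simp only [Complex.ofReal_zero, zero_mul, sub_zero] at h2
  have h5 : ∫ s in (0 : ℝ)..1,
      (bu (c * s - d) : ℂ) * (2 * Real.pi * ((-k : ℝ) : ℂ) * Complex.I * e (-(k * s))) =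
      -(2 * Real.pi * k * Complex.I) * ∫ s in (0 : ℝ)..1, (bu (c * s - d) : ℂ) * e (-(k * s)) := by
    rw [← intervalIntegral.integral_const_mul]
    apply intervalIntegral.integral_congr
    intro s _
    simp only
    push_cast
    ring
  rw [h5] at h2
  linear_combination h2

end Pool.Agent.Lib_helper43.Dyn
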