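import Mathlib

set_option autoImplicit false

/-!
# Kinematic dynamos on the torus `𝕋³ = ℝ³ / ℤ³`

Functions on the torus are `ℤ³`-periodic functions on `ℝ³`; integrals over the torus are integrals
over the unit cube.
-/

namespace Pool.Agent.Lib_helper43.Dyn

open MeasureTheory Filter Topology Set
open scoped ENNReal ContDiff

/-- Points and vectors of `ℝ³`. -/
abbrev R3 := Fin 3 → ℝ

/-- `ℤ³`-periodic functions on `ℝ³`, that is, functions on the torus `𝕋³`. -/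
def Periodic3 {α : Type*} (f : R3 → α) : Prop :=
  ∀ (x : R3) (k : Fin 3 → ℤ), f (fun i => x i + (k i : ℝ)) = f x

/-- The unit cube `[0, 1)³`, a fundamental domain of the torus. -/
def cube : Set R3 := {x | ∀ i, 0 ≤ x i ∧ x i < 1}

/-- The Fourier coefficient `∫_{𝕋³} f(x) e^{-2πi k·x} dx`. -/
noncomputable def fc (f : R3 → ℝ) (k : Fin 3 → ℤ) : ℂ :=
  ∫ x in cube, (f x : ℂ) * Complex.exp (-(2 * Real.pi * Complex.I * ∑ i, (k i : ℂ) * (x i : ℂ)))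

/-- `∫_{𝕋³} |v|²` for a vector field `v`. -/
noncomputable def normSq (v : R3 → R3) : ℝ≥0∞ :=
  ∫⁻ x in cube, ENNReal.ofReal (∑ i, v x i ^ 2)

/-- The `L²` norm of a vector field on the torus. -/
noncomputable def l2norm (v : R3 → R3) : ℝ≥0∞ := normSq v ^ (1 / 2 : ℝ)

/-- Square integrable vector fields on the torus. -/
def IsL2 (v : R3 → R3) : Prop := Measurable v ∧ Periodic3 v ∧ normSq v < ⊤

/-- Divergence-free (in the sense of distributions, written through Fourier coefficients). -/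
def DivFree (v : R3 → R3) : Prop :=
  ∀ k : Fin 3 → ℤ, ∑ i, (k i : ℂ) * fc (fun x => v x i) k = 0

/-- Admissible velocity fields: time-periodic, divergence-free, and bounded and Lipschitz in space
uniformly in time (`L^∞_t W^{1,∞}_x`). -/
structure Admissible (u : ℝ → R3 → R3) : Prop where
  measurable : Measurable (fun p : ℝ × R3 => u p.1 p.2)
  periodic_time : ∃ P : ℝ, 0 < P ∧ ∀ t x, u (t + P) x = u t x
  periodic_space : ∀ t, Periodic3 (u t)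
  bounded : ∃ M : ℝ, ∀ t x, ‖u t x‖ ≤ M
  lipschitz : ∃ L : NNReal, ∀ t, LipschitzWith L (u t)
  divFree : ∀ t, DivFree (u t)

/-- `Φ` is the flow of `u`: `Φ_t(x) = x + ∫₀ᵗ u(s, Φ_s(x)) ds`, continuous in `t ≥ 0`. -/
def IsFlow (u : ℝ → R3 → R3) (Φ : ℝ → R3 ≃ R3) : Prop :=
  (∀ x, ContinuousOn (fun t => Φ t x) (Ici 0)) ∧
    ∀ t, 0 ≤ t → ∀ x, Φ t x = x + ∫ s in (0 : ℝ)..t, u s (Φ s x)

/-- The ideal solution `B(t,x) = (DΦ_t B_in) ∘ Φ_t⁻¹ (x)`. -/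
noncomputable def ideal (Φ : ℝ → R3 ≃ R3) (Bin : R3 → R3) (t : ℝ) (x : R3) : R3 :=
  fderiv ℝ (Φ t) ((Φ t).symm x) (Bin ((Φ t).symm x))

/-- The flux `∫_{𝕋³} B(t,x)·ψ(x) dx` of the ideal solution. -/
noncomputable def flux (Φ : ℝ → R3 ≃ R3) (Bin ψ : R3 → R3) (t : ℝ) : ℝ :=
  ∫ x in cube, ∑ i, ideal Φ Bin t x i * ψ x i

/-- `Γ(ψ) = sup_{B_in} limsup_{t → ∞} (1/t) log |∫ B(t,x)·ψ(x) dx|`, the supremum over
divergence-free `B_in ∈ L²`. -/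
noncomputable def Gamma (Φ : ℝ → R3 ≃ R3) (ψ : R3 → R3) : EReal :=
  ⨆ Bin ∈ {b : R3 → R3 | IsL2 b ∧ DivFree b},
    limsup (fun t : ℝ => ENNReal.log ‖flux Φ Bin ψ t‖ₑ / (t : EReal)) atTop

/-- Perfect dynamo: `Γ(ψ) > 0` for some smooth `ψ` on the torus. -/
def PerfectDynamo (u : ℝ → R3 → R3) : Prop :=
  ∃ Φ : ℝ → R3 ≃ R3, IsFlow u Φ ∧
    ∃ ψ : R3 → R3, Periodic3 ψ ∧ ContDiff ℝ ∞ ψ ∧ 0 < Gamma Φ ψ

/-- `B` is the solution with initial datum `Bin` of the induction equation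
`∂_t B = ∇×(u×B) + ε Δ B`, `∇·B = 0`, in the energy class `C([0,∞); L²) ∩ L²_loc([0,∞); H¹)`; the
equation is written in integrated form for each Fourier coefficient of `B`. -/
structure IsSolution (ε : ℝ) (u : ℝ → R3 → R3) (Bin : R3 → R3) (B : ℝ → R3 → R3) : Prop where
  measurable : Measurable (fun p : ℝ × R3 => B p.1 p.2)
  isL2 : ∀ t, 0 ≤ t → IsL2 (B t)
  continuous : ∀ t, 0 ≤ t →
    Tendsto (fun s => normSq (fun x => B s x - B t x)) (𝓝[Ici 0] t) (𝓝 0)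
  h1 : ∀ T : ℝ, ∫⁻ t in Icc 0 T, ∑' k : Fin 3 → ℤ,
    ENNReal.ofReal ((∑ i, (k i : ℝ) ^ 2) * ∑ i, ‖fc (fun x => B t x i) k‖ ^ 2) < ⊤
  initial : ∀ᵐ x, B 0 x = Bin x
  divFree : ∀ t, 0 ≤ t → DivFree (B t)
  equation : ∀ t, 0 ≤ t → ∀ (k : Fin 3 → ℤ) (i : Fin 3),
    fc (fun x => B t x i) k = fc (fun x => B 0 x i) k +
      ∫ s in (0 : ℝ)..t,
        (2 * Real.pi * Complex.I *
            crossProduct (fun j => (k j : ℂ))
              (fun j => fc (fun x => crossProduct (u s x) (B s x) j) k) i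
          - 4 * Real.pi ^ 2 * ε * (∑ j, (k j : ℂ) ^ 2) * fc (fun x => B s x i) k)

/-- Fast dynamo. -/
def FastDynamo (u : ℝ → R3 → R3) : Prop :=
  ∃ ε₀ c₀ γ₀ : ℝ, 0 < ε₀ ∧ 0 < c₀ ∧ 0 < γ₀ ∧ ∀ ε : ℝ, 0 < ε → ε ≤ ε₀ →
    ∃ (Bin : R3 → R3) (B : ℝ → R3 → R3), IsL2 Bin ∧ DivFree Bin ∧ 0 < l2norm Bin ∧
      IsSolution ε u Bin B ∧
      ∀ t : ℝ, 0 ≤ t →
        ENNReal.ofReal (c₀ * Real.exp (γ₀ * t)) * l2norm Bin ≤ l2norm (B t)

end Pool.Agent.Lib_helper43.Dyn
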