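import Mathlib
import Pool.Agent.Lib_helper43.Dyn.Defs

set_option autoImplicit false

/-! # Iterated integrals over the cube -/

namespace Pool.Agent.Lib_helper43.Dyn

open MeasureTheory Filter Topology Set

/-- Coordinates `(z, (y, x))`. -/
noncomputable def eqv : R3 ≃ᵐ ℝ × (ℝ × ℝ) :=
  (MeasurableEquiv.piFinSuccAbove (fun _ : Fin 3 => ℝ) 2).trans
    ((MeasurableEquiv.refl ℝ).prodCongr (MeasurableEquiv.finTwoArrow.trans MeasurableEquiv.prodComm))

lemma eqv_apply (x : R3) : eqv x = (x 2, (x 1, x 0)) := by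
  simp only [eqv, MeasurableEquiv.trans_apply, MeasurableEquiv.piFinSuccAbove_apply]
  rfl

lemma measurePreserving_eqv : MeasurePreserving eqv volume volume := by
  have h1 := volume_preserving_piFinSuccAbove (fun _ : Fin 3 => ℝ) 2
  have h2 : MeasurePreserving (MeasurableEquiv.finTwoArrow (α := ℝ)) volume volume :=
    volume_preserving_finTwoArrow ℝ
  have h3 : MeasurePreserving (Prod.swap : ℝ × ℝ → ℝ × ℝ) volume volume :=
    Measure.measurePreserving_swap
  have h4 : MeasurePreserving (id : ℝ → ℝ) volume volume := MeasurePreserving.id _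
  have h5 := (h4.prod (h3.comp h2)).comp h1
  exact h5

lemma preimage_eqv : eqv ⁻¹' (Ico 0 1 ×ˢ (Ico 0 1 ×ˢ Ico 0 1)) = cube := by
  ext x
  simp only [mem_preimage, eqv_apply, mem_prod, mem_Ico, cube, mem_setOf_eq, Fin.forall_fin_succ]
  simp
  tauto

lemma measurableSet_cube : MeasurableSet cube := by
  rw [← preimage_eqv]
  exact eqv.measurable (measurableSet_Ico.prod (measurableSet_Ico.prod measurableSet_Ico))

lemma cube_integral {E : Type*} [NormedAddCommGroup E] [NormedSpace ℝ E] (f : ℝ × (ℝ × ℝ) → E) :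
    ∫ x in cube, f (x 2, (x 1, x 0)) = ∫ p in Ico 0 1 ×ˢ (Ico 0 1 ×ˢ Ico 0 1), f p := by
  rw [← measurePreserving_eqv.setIntegral_preimage_emb eqv.measurableEmbedding, preimage_eqv]
  simp only [eqv_apply]

lemma cube_integral_prod (g : ℝ → ℂ) (h : ℝ → ℝ → ℂ) :
    ∫ x in cube, g (x 2) * h (x 1) (x 0) =
      (∫ z in Ico (0 : ℝ) 1, g z) * ∫ p in Ico (0 : ℝ) 1 ×ˢ Ico (0 : ℝ) 1, h p.1 p.2 := by
  rw [cube_integral (fun p => g p.1 * h p.2.1 p.2.2)]
  exact setIntegral_prod_mul g (fun p : ℝ × ℝ => h p.1 p.2) (Ico (0 : ℝ) 1)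
    (Ico (0 : ℝ) 1 ×ˢ Ico (0 : ℝ) 1)

lemma volume_cube : volume cube = 1 := by
  have h : cube = Set.pi univ (fun _ : Fin 3 => Ico (0 : ℝ) 1) := by
    ext x
    simp [cube, Set.mem_pi, mem_Ico]
  rw [h, volume_pi_pi]
  simp

instance : IsFiniteMeasure (volume.restrict cube) := ⟨by simp [volume_cube]⟩

end Pool.Agent.Lib_helper43.Dyn
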