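import Mathlib
import Pool.Agent.Lib_helper43.Dyn.Profile

set_option autoImplicit false

/-! # Construction of the two shear profiles -/

namespace Pool.Agent.Lib_helper43.Dyn

open MeasureTheory Filter Topology Set

/-- Distance to the nearest integer. -/
noncomputable def sd (t : ℝ) : ℝ := |t - round t|

lemma sd_nonneg (t : ℝ) : 0 ≤ sd t := abs_nonneg _

lemma sd_le_abs (t : ℝ) : sd t ≤ |t| := by
  have := round_le t 0
  simpa [sd] using this

lemma sd_sub_le (s t : ℝ) : |sd s - sd t| ≤ |s - t| := by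
  have key : ∀ s t : ℝ, sd s - sd t ≤ |s - t| := by
    intro s t
    have h1 := round_le s (round t)
    have h2 : |s - (round t : ℝ)| ≤ |s - t| + |t - round t| := by
      have := abs_add_le (s - t) (t - round t)
      simpa using this
    unfold sd
    linarith
  rw [abs_le]
  constructor
  · have := key t s
    rw [abs_sub_comm] at this
    linarith
  · exact key s t

lemma sd_add_one (t : ℝ) : sd (t + 1) = sd t := by
  unfold sd
  rw [round_add_one]
  push_cast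
  congr 1
  ring

lemma sd_of_mem {t : ℝ} (h0 : 0 ≤ t) (h1 : t < 1 / 2) : sd t = t := by
  have : round t = 0 := by
    rw [round_eq, Int.floor_eq_zero_iff]
    exact ⟨by linarith, by linarith⟩
  unfold sd
  rw [this]
  simp [abs_of_nonneg h0]

lemma exists_int_of_sd_lt {t r : ℝ} (h : sd t < r) : ∃ n : ℤ, |t - n| < r := ⟨round t, h⟩

/-- Trapezoidal cutoff. -/
noncomputable def th (v : ℝ) : ℝ := max 0 (min 1 (2 - 2 * |v|))

lemma th_nonneg (v : ℝ) : 0 ≤ th v := le_max_left _ _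
lemma th_le_one (v : ℝ) : th v ≤ 1 := max_le (by norm_num) (min_le_left _ _)
lemma abs_th_le (v : ℝ) : |th v| ≤ 1 := by rw [abs_of_nonneg (th_nonneg v)]; exact th_le_one v
lemma th_one {v : ℝ} (h : |v| ≤ 1 / 2) : th v = 1 := by
  unfold th
  rw [min_eq_left (by linarith), max_eq_right (by norm_num)]
lemma th_zero {v : ℝ} (h : 1 ≤ |v|) : th v = 0 := by
  unfold th
  rw [max_eq_left]
  exact (min_le_right _ _).trans (by linarith)

lemma th_sub_le (u v : ℝ) : |th u - th v| ≤ 2 * |u - v| := by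
  have h1 : |max 0 (min 1 (2 - 2 * |u|)) - max 0 (min 1 (2 - 2 * |v|))| ≤
      |min 1 (2 - 2 * |u|) - min 1 (2 - 2 * |v|)| :=
    (abs_max_sub_max_le_max _ _ _ _).trans (max_le (by simp) le_rfl)
  have h2 : |min 1 (2 - 2 * |u|) - min 1 (2 - 2 * |v|)| ≤ |2 - 2 * |u| - (2 - 2 * |v|)| :=
    (abs_min_sub_min_le_max _ _ _ _).trans (max_le (by simp) le_rfl)
  have h3 : |2 - 2 * |u| - (2 - 2 * |v|)| ≤ 2 * |u - v| := by
    rw [show 2 - 2 * |u| - (2 - 2 * |v|) = -(2 * (|u| - |v|)) by ring, abs_neg, abs_mul, abs_two]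
    have := abs_abs_sub_abs_le u v
    linarith
  exact (h1.trans h2).trans h3

/-- Truncation. -/
noncomputable def clip (r v : ℝ) : ℝ := max (-r) (min r v)

lemma abs_clip_le {r : ℝ} (hr : 0 ≤ r) (v : ℝ) : |clip r v| ≤ r := by
  rw [abs_le]
  exact ⟨le_max_left _ _, max_le (by linarith) (min_le_left _ _)⟩

lemma clip_sub_le (r u v : ℝ) : |clip r u - clip r v| ≤ |u - v| := by
  have h1 : |max (-r) (min r u) - max (-r) (min r v)| ≤ |min r u - min r v| :=
    (abs_max_sub_max_le_max _ _ _ _).trans (max_le (by simp) le_rfl)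
  have h2 : |min r u - min r v| ≤ |u - v| :=
    (abs_min_sub_min_le_max _ _ _ _).trans (max_le (by simp) le_rfl)
  exact h1.trans h2

lemma clip_eq {r v : ℝ} (h : |v| ≤ r) : clip r v = v := by
  unfold clip
  rw [min_eq_right (abs_le.mp h).2, max_eq_right (abs_le.mp h).1]

/-- Bounded Lipschitz functions. -/
def BL (A K : ℝ) (f : ℝ × ℝ → ℝ) : Prop :=
  (∀ p, |f p| ≤ A) ∧ ∀ p q, |f p - f q| ≤ K * dist p q

lemma BL.mul {A K A' K' : ℝ} {f g : ℝ × ℝ → ℝ} (hf : BL A K f) (hg : BL A' K' g) :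
    BL (A * A') (A * K' + K * A') fun p => f p * g p := by
  have hA : 0 ≤ A := (abs_nonneg _).trans (hf.1 0)
  have hA' : 0 ≤ A' := (abs_nonneg _).trans (hg.1 0)
  refine ⟨fun p => ?_, fun p q => ?_⟩
  · rw [abs_mul]
    exact mul_le_mul (hf.1 p) (hg.1 p) (abs_nonneg _) hA
  · have h1 : f p * g p - f q * g q = f p * (g p - g q) + (f p - f q) * g q := by ring
    rw [h1]
    refine (abs_add_le _ _).trans ?_
    rw [abs_mul, abs_mul]
    have h2 : |f p| * |g p - g q| ≤ A * (K' * dist p q) :=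
      mul_le_mul (hf.1 p) (hg.2 p q) (abs_nonneg _) hA
    have h3 : |f p - f q| * |g q| ≤ (K * dist p q) * A' :=
      mul_le_mul (hf.2 p q) (hg.1 q) (abs_nonneg _) ((abs_nonneg _).trans (hf.2 p q))
    calc |f p| * |g p - g q| + |f p - f q| * |g q| ≤ A * (K' * dist p q) + (K * dist p q) * A' :=
          add_le_add h2 h3
      _ = _ := by ring

lemma BL.add {A K A' K' : ℝ} {f g : ℝ × ℝ → ℝ} (hf : BL A K f) (hg : BL A' K' g) :
    BL (A + A') (K + K') fun p => f p + g p := by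
  refine ⟨fun p => (abs_add_le _ _).trans (add_le_add (hf.1 p) (hg.1 p)), fun p q => ?_⟩
  have h1 : f p + g p - (f q + g q) = (f p - f q) + (g p - g q) := by ring
  rw [h1, add_mul]
  exact (abs_add_le _ _).trans (add_le_add (hf.2 p q) (hg.2 p q))

lemma BL.mono {A K A' K' : ℝ} {f : ℝ × ℝ → ℝ} (hf : BL A K f) (hA : A ≤ A') (hK : K ≤ K') :
    BL A' K' f :=
  ⟨fun p => (hf.1 p).trans hA, fun p q => (hf.2 p q).trans (by gcongr)⟩

lemma BL.zero {A K : ℝ} (hA : 0 ≤ A) (hK : 0 ≤ K) : BL A K fun _ => 0 :=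
  ⟨fun _ => by simpa using hA, fun p q => by simpa using mul_nonneg hK dist_nonneg⟩

lemma BL.toLip {A K : ℝ} {f : ℝ × ℝ → ℝ} (hf : BL A K f) (hK : 0 ≤ K) :
    LipschitzWith ⟨K, hK⟩ f := by
  refine LipschitzWith.of_dist_le_mul fun p q => ?_
  rw [Real.dist_eq]
  exact hf.2 p q

lemma dist_fst_le' (p q : ℝ × ℝ) : |p.1 - q.1| ≤ dist p q := by
  rw [← Real.dist_eq]; exact le_max_left _ _

lemma dist_snd_le' (p q : ℝ × ℝ) : |p.2 - q.2| ≤ dist p q := by
  rw [← Real.dist_eq]; exact le_max_right _ _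

/-- Sums of functions with weights of pairwise disjoint supports. -/
lemma sum_eq {ι : Type*} {W E : ι → ℝ × ℝ → ℝ}
    (hd : ∀ i j, i ≠ j → ∀ p, W i p = 0 ∨ W j p = 0) {i : ι} {p : ℝ × ℝ} (hi : W i p ≠ 0) :
    ∑' j, W j p * E j p = W i p * E i p := by
  rw [tsum_eq_single i]
  intro j hj
  rcases hd i j (Ne.symm hj) p with h | h
  · exact absurd h hi
  · rw [h, zero_mul]

lemma BL.sum {ι : Type*} {A K : ℝ} (hA : 0 ≤ A) (hK : 0 ≤ K) {W E : ι → ℝ × ℝ → ℝ}
    (hf : ∀ i, BL A K fun p => W i p * E i p)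
    (hd : ∀ i j, i ≠ j → ∀ p, W i p = 0 ∨ W j p = 0) :
    BL A (2 * K) fun p => ∑' i, W i p * E i p := by
  have h0 : ∀ p, (∀ i, W i p = 0) → ∑' i, W i p * E i p = 0 := by
    intro p hp
    simp [hp]
  refine ⟨fun p => ?_, fun p q => ?_⟩
  · show |∑' i, W i p * E i p| ≤ A
    by_cases h : ∃ i, W i p ≠ 0
    · obtain ⟨i, hi⟩ := h
      rw [sum_eq hd hi]
      exact (hf i).1 p
    · push Not at h
      rw [h0 p h, abs_zero]
      exact hA
  · show |∑' i, W i p * E i p - ∑' i, W i q * E i q| ≤ 2 * K * dist p q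
    by_cases hp : ∃ i, W i p ≠ 0
    · obtain ⟨i, hi⟩ := hp
      by_cases hq : ∃ i, W i q ≠ 0
      · obtain ⟨j, hj⟩ := hq
        rw [sum_eq hd hi, sum_eq hd hj]
        by_cases hij : i = j
        · subst hij
          refine ((hf i).2 p q).trans ?_
          have := mul_nonneg hK (dist_nonneg (x := p) (y := q))
          linarith
        · have h1 : W i q = 0 := (hd i j hij q).resolve_right hj
          have h2 : W j p = 0 := (hd i j hij p).resolve_left hi
          have h3 := (hf i).2 p q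
          have h4 := (hf j).2 p q
          simp only [h1, h2, zero_mul, sub_zero, zero_sub, abs_neg] at h3 h4
          refine (abs_sub _ _).trans ?_
          linarith
      · push Not at hq
        rw [sum_eq hd hi, h0 q hq]
        have h3 := (hf i).2 p q
        simp only [hq i, zero_mul] at h3
        refine h3.trans ?_
        have := mul_nonneg hK (dist_nonneg (x := p) (y := q))
        linarith
    · push Not at hp
      by_cases hq : ∃ i, W i q ≠ 0
      · obtain ⟨j, hj⟩ := hq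
        rw [sum_eq hd hj, h0 p hp]
        have h3 := (hf j).2 p q
        simp only [hp j, zero_mul] at h3
        refine h3.trans ?_
        have := mul_nonneg hK (dist_nonneg (x := p) (y := q))
        linarith
      · push Not at hq
        rw [h0 p hp, h0 q hq, sub_self, abs_zero]
        have := mul_nonneg hK (dist_nonneg (x := p) (y := q))
        linarith

/-- The slab cutoff. -/
noncomputable def thz (j : ℕ) (z : ℝ) : ℝ := th (2 ^ (j + 3) * sd z - 3)

/-- The band cutoff. -/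
noncomputable def ety (j p : ℕ) (y : ℝ) : ℝ :=
  th (2 * 2 ^ (j + 3) * sd (y - ((p : ℝ) + 1 / 2) / 2 ^ (j + 3)))

lemma BL_thz (j : ℕ) : BL 1 (2 * 2 ^ (j + 3)) fun p => thz j p.2 := by
  refine ⟨fun p => abs_th_le _, fun p q => ?_⟩
  have h1 := th_sub_le (2 ^ (j + 3) * sd p.2 - 3) (2 ^ (j + 3) * sd q.2 - 3)
  have h2 : 2 ^ (j + 3) * sd p.2 - 3 - (2 ^ (j + 3) * sd q.2 - 3) =
      2 ^ (j + 3) * (sd p.2 - sd q.2) := by ring
  rw [h2, abs_mul, abs_of_pos (by positivity : (0 : ℝ) < 2 ^ (j + 3))] at h1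
  have h3 := (sd_sub_le p.2 q.2).trans (dist_snd_le' p q)
  refine h1.trans ?_
  rw [mul_assoc]
  gcongr

lemma BL_ety (j i : ℕ) : BL 1 (4 * 2 ^ (j + 3)) fun p => ety j i p.1 := by
  refine ⟨fun p => abs_th_le _, fun p q => ?_⟩
  have h1 := th_sub_le (2 * 2 ^ (j + 3) * sd (p.1 - ((i : ℝ) + 1 / 2) / 2 ^ (j + 3)))
    (2 * 2 ^ (j + 3) * sd (q.1 - ((i : ℝ) + 1 / 2) / 2 ^ (j + 3)))
  rw [← mul_sub, abs_mul, abs_of_pos (by positivity : (0 : ℝ) < 2 * 2 ^ (j + 3))] at h1
  have h3 := (sd_sub_le (p.1 - ((i : ℝ) + 1 / 2) / 2 ^ (j + 3)) (q.1 - ((i : ℝ) + 1 / 2) / 2 ^ (j + 3)))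
  rw [sub_sub_sub_cancel_right] at h3
  have h4 := h3.trans (dist_fst_le' p q)
  refine h1.trans ?_
  calc 2 * (2 * 2 ^ (j + 3) * |sd (p.1 - ((i : ℝ) + 1 / 2) / 2 ^ (j + 3)) -
        sd (q.1 - ((i : ℝ) + 1 / 2) / 2 ^ (j + 3))|)
      ≤ 2 * (2 * 2 ^ (j + 3) * dist p q) := by gcongr
    _ = _ := by ring

lemma thz_zero_of {j : ℕ} {z : ℝ} (h : thz j z ≠ 0) : 2 < 2 ^ (j + 3) * sd z ∧ 2 ^ (j + 3) * sd z < 4 := by
  by_contra hcon
  apply h
  apply th_zero
  rw [le_abs']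
  by_contra hc
  push Not at hc
  exact hcon ⟨by linarith [hc.1], by linarith [hc.2]⟩

lemma thz_disjoint {i j : ℕ} (h : i ≠ j) (z : ℝ) : thz i z = 0 ∨ thz j z = 0 := by
  have key : ∀ a b : ℕ, a < b → thz a z ≠ 0 → thz b z ≠ 0 → False := by
    intro a b hab ha hb
    have h1 := (thz_zero_of ha).1
    have h2 := (thz_zero_of hb).2
    have h3 : (2 : ℝ) * 2 ^ (a + 3) ≤ 2 ^ (b + 3) := by
      rw [← pow_succ']
      exact pow_le_pow_right₀ (by norm_num) (by omega)
    have h4 : 0 ≤ sd z := abs_nonneg _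
    nlinarith
  by_contra hcon
  push Not at hcon
  rcases lt_trichotomy i j with h1 | h1 | h1
  · exact key i j h1 hcon.1 hcon.2
  · exact h h1
  · exact key j i h1 hcon.2 hcon.1

lemma ety_zero_of {j p : ℕ} {y : ℝ} (h : ety j p y ≠ 0) :
    2 * 2 ^ (j + 3) * sd (y - ((p : ℝ) + 1 / 2) / 2 ^ (j + 3)) < 1 := by
  by_contra hcon
  push Not at hcon
  apply h
  apply th_zero
  exact hcon.trans (le_abs_self _)

lemma ety_disjoint {j p q : ℕ} (hp : p < 2 ^ (j + 3)) (hq : q < 2 ^ (j + 3)) (h : p ≠ q) (y : ℝ) :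
    ety j p y = 0 ∨ ety j q y = 0 := by
  by_contra hcon
  push Not at hcon
  have hm : (0 : ℝ) < 2 ^ (j + 3) := by positivity
  have h1 := ety_zero_of hcon.1
  have h2 := ety_zero_of hcon.2
  have h3 : sd (y - ((p : ℝ) + 1 / 2) / 2 ^ (j + 3)) < 1 / (2 * 2 ^ (j + 3)) := by
    rw [lt_div_iff₀ (by positivity)]; linarith
  have h4 : sd (y - ((q : ℝ) + 1 / 2) / 2 ^ (j + 3)) < 1 / (2 * 2 ^ (j + 3)) := by
    rw [lt_div_iff₀ (by positivity)]; linarith
  obtain ⟨n, hn⟩ := exists_int_of_sd_lt h3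
  obtain ⟨n', hn'⟩ := exists_int_of_sd_lt h4
  have h5 : |((q : ℝ) - p) / 2 ^ (j + 3) - ((n : ℝ) - n')| < 1 / 2 ^ (j + 3) := by
    have h6 : ((q : ℝ) - p) / 2 ^ (j + 3) - ((n : ℝ) - n') =
        (y - ((p : ℝ) + 1 / 2) / 2 ^ (j + 3) - n) - (y - ((q : ℝ) + 1 / 2) / 2 ^ (j + 3) - n') := by
      field_simp
      ring
    rw [h6]
    refine (abs_sub _ _).trans_lt ?_
    have h7 : (1 : ℝ) / 2 ^ (j + 3) = 1 / (2 * 2 ^ (j + 3)) + 1 / (2 * 2 ^ (j + 3)) := by
      field_simp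
      norm_num
    rw [h7]
    linarith
  have h6 : |((q : ℝ) - p) - 2 ^ (j + 3) * ((n : ℝ) - n')| < 1 := by
    have h7 : ((q : ℝ) - p) - 2 ^ (j + 3) * ((n : ℝ) - n') =
        2 ^ (j + 3) * (((q : ℝ) - p) / 2 ^ (j + 3) - ((n : ℝ) - n')) := by
      field_simp
    rw [h7, abs_mul, abs_of_pos hm]
    rw [lt_div_iff₀ hm] at h5
    linarith
  have h7 : |((q : ℤ) - p) - 2 ^ (j + 3) * (n - n')| < 1 := by exact_mod_cast h6
  have h8 : ((q : ℤ) - p) - 2 ^ (j + 3) * (n - n') = 0 := by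
    rw [Int.abs_lt_one_iff] at h7
    exact h7
  have hp' : (p : ℤ) < 2 ^ (j + 3) := by exact_mod_cast hp
  have hq' : (q : ℤ) < 2 ^ (j + 3) := by exact_mod_cast hq
  have hp0 : (0 : ℤ) ≤ p := Int.natCast_nonneg p
  have hq0 : (0 : ℤ) ≤ q := Int.natCast_nonneg q
  have hn0 : n - n' = 0 := by
    have hm' : (0 : ℤ) < 2 ^ (j + 3) := by positivity
    by_contra hne
    rcases lt_or_gt_of_ne hne with h9 | h9
    · nlinarith
    · nlinarith
  rw [hn0, mul_zero, sub_zero] at h8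
  apply h
  omega

/-- Core values. -/
lemma thz_core {j : ℕ} {z : ℝ} (h : |z - 3 / 2 ^ (j + 3)| ≤ 1 / (2 * 2 ^ (j + 3))) :
    sd z = z ∧ thz j z = 1 := by
  have hm : (0 : ℝ) < 2 ^ (j + 3) := by positivity
  have hm8 : (8 : ℝ) ≤ 2 ^ (j + 3) := by
    calc (8 : ℝ) = 2 ^ 3 := by norm_num
      _ ≤ 2 ^ (j + 3) := pow_le_pow_right₀ (by norm_num) (by omega)
  have h1 : |2 ^ (j + 3) * z - 3| ≤ 1 / 2 := by
    have h2 : 2 ^ (j + 3) * z - 3 = 2 ^ (j + 3) * (z - 3 / 2 ^ (j + 3)) := by field_simp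
    rw [h2, abs_mul, abs_of_pos hm]
    rw [le_div_iff₀ (by positivity)] at h
    linarith
  have h2 := abs_le.mp h1
  have hz0 : 0 ≤ z := by
    by_contra hz
    push Not at hz
    nlinarith [h2.1]
  have hz1 : z < 1 / 2 := by
    by_contra hz
    push Not at hz
    nlinarith [h2.2]
  have hsd := sd_of_mem hz0 hz1
  refine ⟨hsd, ?_⟩
  unfold thz
  rw [hsd]
  exact th_one h1

lemma ety_core {j p : ℕ} {y : ℝ} (h : |y - ((p : ℝ) + 1 / 2) / 2 ^ (j + 3)| ≤ 1 / (4 * 2 ^ (j + 3))) :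
    ety j p y = 1 := by
  have hm : (0 : ℝ) < 2 ^ (j + 3) := by positivity
  unfold ety
  apply th_one
  rw [abs_mul, abs_of_pos (by positivity : (0 : ℝ) < 2 * 2 ^ (j + 3)), abs_of_nonneg (sd_nonneg _)]
  have h1 := (sd_le_abs _).trans h
  rw [le_div_iff₀ (by positivity)] at h1
  linarith

theorem exists_FG (L N : ℕ → ℕ) (hL : ∀ j, 2 ^ (j + 3) ≤ L j) (hN : ∀ j, N j + 1 ≤ 2 ^ (j + 3))
    (a c α β : ℕ → ℕ → ℝ) (ha : ∀ j p, |a j p| ≤ 1024) (hc : ∀ j p, |c j p| ≤ 1)
    (hα : ∀ j p, α j p ∈ Set.Icc (0 : ℝ) 1) :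
    ∃ (F G : ℝ → ℝ → ℝ) (K : NNReal) (M : ℝ),
      LipschitzWith K (fun p : ℝ × ℝ => F p.1 p.2) ∧ LipschitzWith K (fun p : ℝ × ℝ => G p.1 p.2) ∧
      (∀ y z, |F y z| ≤ M) ∧ (∀ x z, |G x z| ≤ M) ∧
      (∀ y z, F (y + 1) z = F y z) ∧ (∀ y z, F y (z + 1) = F y z) ∧
      (∀ x z, G (x + 1) z = G x z) ∧ (∀ x z, G x (z + 1) = G x z) ∧
      (∀ j p, p ≤ N j → ∀ y z : ℝ, |y - ((p : ℝ) + 1 / 2) / 2 ^ (j + 3)| ≤ 1 / (4 * 2 ^ (j + 3)) →
        |z - 3 / 2 ^ (j + 3)| ≤ 1 / (2 * 2 ^ (j + 3)) →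
        F y z = (a j p * w (L j * y + β j p) + α j p) / L j + c j p * (z - 3 / 2 ^ (j + 3))) ∧
      (∀ (j : ℕ) (x z : ℝ), |z - 3 / 2 ^ (j + 3)| ≤ 1 / (2 * 2 ^ (j + 3)) →
        G x z = w (L j * x) / L j + 1 / 2 ^ (j + 3)) := by
  have hDw := Dw_pos
  have hLpos : ∀ j, (0 : ℝ) < L j := fun j => by
    have h1 := hL j
    have h2 : 0 < 2 ^ (j + 3) := by positivity
    exact_mod_cast lt_of_lt_of_le h2 h1
  have hLm : ∀ j, (2 : ℝ) ^ (j + 3) ≤ L j := fun j => by exact_mod_cast hL j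
  -- weights and profiles
  let W : ℕ × ℕ → ℝ × ℝ → ℝ := fun i p => if i.2 ≤ N i.1 then thz i.1 p.2 * ety i.1 i.2 p.1 else 0
  let E : ℕ × ℕ → ℝ × ℝ → ℝ := fun i p =>
    (a i.1 i.2 * w (L i.1 * p.1 + β i.1 i.2) + α i.1 i.2) / L i.1 +
      c i.1 i.2 * clip (1 / 2 ^ (i.1 + 3)) (sd p.2 - 3 / 2 ^ (i.1 + 3))
  let W' : ℕ → ℝ × ℝ → ℝ := fun j p => thz j p.2
  let E' : ℕ → ℝ × ℝ → ℝ := fun j p => w (L j * p.1) / L j + 1 / 2 ^ (j + 3)
  have hwL : ∀ (j : ℕ) (b : ℝ) (p q : ℝ × ℝ), |w (L j * p.1 + b) / L j - w (L j * q.1 + b) / L j| ≤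
      Dw * dist p q := by
    intro j b p q
    rw [← sub_div, abs_div, abs_of_pos (hLpos j), div_le_iff₀ (hLpos j)]
    refine (abs_w_sub_le _ _).trans ?_
    have h1 : L j * p.1 + b - (L j * q.1 + b) = L j * (p.1 - q.1) := by ring
    rw [h1, abs_mul, abs_of_pos (hLpos j)]
    have h2 := dist_fst_le' p q
    have h3 := hLpos j
    calc Dw * (L j * |p.1 - q.1|) ≤ Dw * (L j * dist p q) := by gcongr
      _ = _ := by ring
  have hE : ∀ i, BL (1026 / 2 ^ (i.1 + 3)) (1024 * Dw + 1) (E i) := by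
    rintro ⟨j, i⟩
    simp only [E]
    have hm : (0 : ℝ) < 2 ^ (j + 3) := by positivity
    refine ⟨fun p => ?_, fun p q => ?_⟩
    · have h1 : |(a j i * w (L j * p.1 + β j i) + α j i) / L j| ≤ 1025 / 2 ^ (j + 3) := by
        rw [abs_div, abs_of_pos (hLpos j)]
        have h2 : |a j i * w (L j * p.1 + β j i) + α j i| ≤ 1025 := by
          refine (abs_add_le _ _).trans ?_
          rw [abs_mul, abs_of_nonneg (hα j i).1]
          have h3 := ha j i
          have h4 := abs_w_le (L j * p.1 + β j i)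
          have h5 := (hα j i).2
          nlinarith [abs_nonneg (a j i), abs_nonneg (w (L j * p.1 + β j i))]
        have h3 := hLm j
        gcongr
      have h2 : |c j i * clip (1 / 2 ^ (j + 3)) (sd p.2 - 3 / 2 ^ (j + 3))| ≤ 1 / 2 ^ (j + 3) := by
        rw [abs_mul]
        have h3 := hc j i
        have h4 := abs_clip_le (r := 1 / 2 ^ (j + 3)) (by positivity) (sd p.2 - 3 / 2 ^ (j + 3))
        calc |c j i| * |clip (1 / 2 ^ (j + 3)) (sd p.2 - 3 / 2 ^ (j + 3))| ≤ 1 * (1 / 2 ^ (j + 3)) := by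
              gcongr
          _ = _ := one_mul _
      refine (abs_add_le _ _).trans ((add_le_add h1 h2).trans (le_of_eq ?_))
      rw [← add_div]; norm_num
    · have h1 : (a j i * w (L j * p.1 + β j i) + α j i) / L j +
          c j i * clip (1 / 2 ^ (j + 3)) (sd p.2 - 3 / 2 ^ (j + 3)) -
          ((a j i * w (L j * q.1 + β j i) + α j i) / L j +
          c j i * clip (1 / 2 ^ (j + 3)) (sd q.2 - 3 / 2 ^ (j + 3))) =
          a j i * (w (L j * p.1 + β j i) / L j - w (L j * q.1 + β j i) / L j) +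
          c j i * (clip (1 / 2 ^ (j + 3)) (sd p.2 - 3 / 2 ^ (j + 3)) -
            clip (1 / 2 ^ (j + 3)) (sd q.2 - 3 / 2 ^ (j + 3))) := by ring
      rw [h1, add_mul, one_mul]
      refine (abs_add_le _ _).trans (add_le_add ?_ ?_)
      · rw [abs_mul, mul_assoc]
        exact mul_le_mul (ha j i) (hwL j _ p q) (abs_nonneg _) (by norm_num)
      · rw [abs_mul]
        have h2 := clip_sub_le (1 / 2 ^ (j + 3)) (sd p.2 - 3 / 2 ^ (j + 3)) (sd q.2 - 3 / 2 ^ (j + 3))
        rw [sub_sub_sub_cancel_right] at h2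
        have h3 := (h2.trans (sd_sub_le _ _)).trans (dist_snd_le' p q)
        calc |c j i| * _ ≤ 1 * dist p q := mul_le_mul (hc j i) h3 (abs_nonneg _) (by norm_num)
          _ = _ := one_mul _
  have hW : ∀ i, BL 1 (6 * 2 ^ (i.1 + 3)) (W i) := by
    rintro ⟨j, i⟩
    simp only [W]
    by_cases h : i ≤ N j
    · simp only [h, if_true]
      exact ((BL_thz j).mul (BL_ety j i)).mono (by norm_num) (by linarith)
    · simp only [h, if_false]
      exact BL.zero (by norm_num) (by positivity)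
  have hWE : ∀ i, BL 1026 (1024 * Dw + 6157) fun p => W i p * E i p := by
    intro i
    have hm1 : (1 : ℝ) ≤ 2 ^ (i.1 + 3) := one_le_pow₀ (by norm_num)
    refine ((hW i).mul (hE i)).mono ?_ (le_of_eq ?_)
    · rw [one_mul, div_le_iff₀ (by positivity)]
      linarith
    · field_simp
      ring
  have hd : ∀ i j, i ≠ j → ∀ p, W i p = 0 ∨ W j p = 0 := by
    rintro ⟨j, i⟩ ⟨j', i'⟩ hne p
    simp only [W]
    by_cases h : i ≤ N j
    · by_cases h' : i' ≤ N j'
      · simp only [h, h', if_true]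
        by_cases hj : j = j'
        · subst hj
          have hii : i ≠ i' := fun h => hne (by rw [h])
          have h1 := hN j
          rcases ety_disjoint (j := j) (p := i) (q := i') (by omega) (by omega) hii p.1 with h2 | h2
          · left; rw [h2, mul_zero]
          · right; rw [h2, mul_zero]
        · rcases thz_disjoint hj p.2 with h2 | h2
          · left; rw [h2, zero_mul]
          · right; rw [h2, zero_mul]
      · right; simp [h']
    · left; simp [h]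
  have hE' : ∀ j, BL (2 / 2 ^ (j + 3)) Dw (E' j) := by
    intro j
    simp only [E']
    refine ⟨fun p => ?_, fun p q => ?_⟩
    · refine (abs_add_le _ _).trans ?_
      rw [abs_div, abs_of_pos (hLpos j), abs_of_pos (by positivity : (0 : ℝ) < 1 / 2 ^ (j + 3))]
      have h1 : |w (L j * p.1)| / L j ≤ 1 / 2 ^ (j + 3) := by
        have h3 := hLm j
        have h4 := abs_w_le (L j * p.1)
        gcongr
      refine (add_le_add_left h1 _).trans (le_of_eq ?_)
      rw [← add_div]; norm_num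
    · have h1 := hwL j 0 p q
      simp only [add_zero] at h1
      have h2 : w (L j * p.1) / L j + 1 / 2 ^ (j + 3) - (w (L j * q.1) / L j + 1 / 2 ^ (j + 3)) =
          w (L j * p.1) / L j - w (L j * q.1) / L j := by ring
      rw [h2]
      exact h1
  have hWE' : ∀ j, BL 2 (Dw + 4) fun p => W' j p * E' j p := by
    intro j
    have hm1 : (1 : ℝ) ≤ 2 ^ (j + 3) := one_le_pow₀ (by norm_num)
    refine ((BL_thz j).mul (hE' j)).mono ?_ (le_of_eq ?_)
    · rw [one_mul, div_le_iff₀ (by positivity)]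
      linarith
    · field_simp
      ring
  have hd' : ∀ i j, i ≠ j → ∀ p, W' i p = 0 ∨ W' j p = 0 := fun i j hij p => thz_disjoint hij p.2
  have hF := BL.sum (by norm_num) (by positivity) hWE hd
  have hG := BL.sum (by norm_num) (by positivity) hWE' hd'
  have hG' : BL 1026 (2 * (1024 * Dw + 6157)) fun p => ∑' i, W' i p * E' i p :=
    hG.mono (by norm_num) (by linarith)
  have hK : 0 ≤ 2 * (1024 * Dw + 6157) := by positivity
  refine ⟨fun y z => ∑' i, W i (y, z) * E i (y, z), fun x z => ∑' i, W' i (x, z) * E' i (x, z),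
    ⟨_, hK⟩, 1026, hF.toLip hK, hG'.toLip hK, fun y z => hF.1 (y, z), fun x z => hG'.1 (x, z),
    ?_, ?_, ?_, ?_, ?_, ?_⟩
  · intro y z
    apply tsum_congr
    rintro ⟨j, i⟩
    have h1 : ety j i (y + 1) = ety j i y := by
      unfold ety
      rw [show y + 1 - ((i : ℝ) + 1 / 2) / 2 ^ (j + 3) =
        (y - ((i : ℝ) + 1 / 2) / 2 ^ (j + 3)) + 1 by ring, sd_add_one]
    have h2 : w (L j * (y + 1) + β j i) = w (L j * y + β j i) := by
      rw [show (L j : ℝ) * (y + 1) + β j i = (L j * y + β j i) + ((L j : ℤ) : ℝ) by push_cast; ring,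
        w_add_int]
    simp only [W, E, h1, h2]
  · intro y z
    apply tsum_congr
    rintro ⟨j, i⟩
    simp only [W, E, thz, sd_add_one]
  · intro x z
    apply tsum_congr
    intro j
    have h2 : w (L j * (x + 1)) = w (L j * x) := by
      rw [show (L j : ℝ) * (x + 1) = (L j * x) + ((L j : ℤ) : ℝ) by push_cast; ring, w_add_int]
    simp only [W', E', h2]
  · intro x z
    apply tsum_congr
    intro j
    simp only [W', thz, sd_add_one]
    rfl
  · intro j i hi y z hy hz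
    obtain ⟨h1, h2⟩ := thz_core hz
    have h3 := ety_core hy
    have h4 : W (j, i) (y, z) = 1 := by
      simp only [W, hi, if_true, h2, h3, mul_one]
    have h5 := sum_eq (E := E) hd (i := (j, i)) (p := (y, z)) (by rw [h4]; norm_num)
    simp only
    rw [h5, h4, one_mul]
    simp only [E, h1]
    rw [clip_eq]
    refine hz.trans ?_
    gcongr
    have : (0 : ℝ) < 2 ^ (j + 3) := by positivity
    linarith
  · intro j x z hz
    obtain ⟨h1, h2⟩ := thz_core hz
    have h4 : W' j (x, z) = 1 := h2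
    have h5 := sum_eq (E := E') hd' (i := j) (p := (x, z)) (by rw [h4]; norm_num)
    simp only
    rw [h5, h4, one_mul]

end Pool.Agent.Lib_helper43.Dyn
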