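import Mathlib
import Pool.Agent.Lib_helper43.Dyn.Defs
import Pool.Agent.Lib_helper43.Dyn.Coef

set_option autoImplicit false

/-! # Plane wave functionals and their averages over the phases -/

namespace Pool.Agent.Lib_helper43.Dyn

open MeasureTheory Filter Topology Set


/-- Data of a plane wave one-form. -/
structure Wave where
  kx : ℤ
  ky : ℤ
  κ : ℝ
  n0 : ℝ
  n1 : ℝ
  n2 : ℝ

/-- The plane wave one-form with data `σ` at the point `X` applied to the vector `V`. -/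
noncomputable def Wave.ev (L z0 : ℝ) (σ : Wave) (S : R3 × R3) : ℂ :=
  ((S.2 0 * σ.n0 + S.2 1 * σ.n1 + S.2 2 * σ.n2 : ℝ) : ℂ) *
    e (-(L * (σ.kx * S.1 0 + σ.ky * S.1 1) + σ.κ * (S.1 2 - z0)))

/-- The `X` half step. -/
noncomputable def halfX (L z0 a c β : ℝ) (S : R3 × R3) : R3 × R3 :=
  (![S.1 0 + a * w (L * S.1 1 + β) / L + c * (S.1 2 - z0), S.1 1, S.1 2],
    ![S.2 0 + a * dw (L * S.1 1 + β) * S.2 1 + c * S.2 2, S.2 1, S.2 2])

/-- The `Y` half step (preceded by a shift). -/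
noncomputable def halfY (L m α : ℝ) (S : R3 × R3) : R3 × R3 :=
  (![S.1 0 + α / L, S.1 1 + w (L * S.1 0 + α) / L + 1 / m, S.1 2],
    ![S.2 0, S.2 1 + dw (L * S.1 0 + α) * S.2 0, S.2 2])

lemma avgX {L z0 a c : ℝ} (hL : L ≠ 0) {σ μ : Wave} (K : ℤ) (hK : (K : ℝ) = a * σ.kx)
    (ha : K = 0 → a = 0)
    (hkx : μ.kx = σ.kx) (hky : σ.ky = μ.ky + K) (hκ : σ.κ = μ.κ + σ.kx * L * c)
    (h0 : μ.n0 = σ.n0) (h1 : σ.n1 = μ.n1 + a * σ.n0) (h2 : σ.n2 = μ.n2 + c * σ.n0)
    (S : R3 × R3) :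
    ∫ β in (0 : ℝ)..1, e (K * β) * μ.ev L z0 (halfX L z0 a c β S) = Cm K * σ.ev L z0 S := by
  obtain ⟨X, V⟩ := S
  set E : ℂ := e (-(L * (σ.kx * X 0 + μ.ky * X 1) + σ.kx * L * c * (X 2 - z0) +
    μ.κ * (X 2 - z0))) with hE
  have key : ∀ β : ℝ, e (K * β) * μ.ev L z0 (halfX L z0 a c β (X, V)) =
      ((((V 0 + c * V 2) * σ.n0 + V 1 * μ.n1 + V 2 * μ.n2 : ℝ) : ℂ) * E) *
        (e (K * β) * e (-(((K : ℝ) - K) * (L * X 1 + β) + K * w (L * X 1 + β)))) +
      (((a * V 1 * σ.n0 : ℝ) : ℂ) * E) *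
        (e (K * β) * (dw (L * X 1 + β) *
          e (-(((K : ℝ) - K) * (L * X 1 + β) + K * w (L * X 1 + β))))) := by
    intro β
    have h3 : e (-(L * (μ.kx * (X 0 + a * w (L * X 1 + β) / L + c * (X 2 - z0)) + μ.ky * X 1) +
        μ.κ * (X 2 - z0))) =
        E * e (-(((K : ℝ) - K) * (L * X 1 + β) + K * w (L * X 1 + β))) := by
      rw [hE, ← e_add]
      congr 1
      rw [hK, hkx]
      field_simp
      ring
    simp only [Wave.ev, halfX, Matrix.cons_val_zero, Matrix.cons_val_one, Matrix.cons_val]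
    rw [h3, h0]
    push_cast
    ring
  have hcw := w_continuous
  have hcd := dw_continuous
  have hce := e_continuous
  simp only [key]
  rw [intervalIntegral.integral_add, intervalIntegral.integral_const_mul,
    intervalIntegral.integral_const_mul, avg_one, avg_dw]
  · have h4 : (a : ℂ) * (bf K : ℝ) = a := by
      by_cases hK0 : K = 0
      · simp [ha hK0]
      · simp [bf, hK0]
    have h5 : e (-(L * (σ.kx * X 0 + σ.ky * X 1) + σ.κ * (X 2 - z0))) =
        E * e (-(K * (L * X 1))) := by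
      rw [hE, ← e_add]
      congr 1
      rw [hky, hκ]
      push_cast
      ring
    simp only [Wave.ev]
    rw [h5, h1, h2]
    push_cast
    linear_combination (V 1 * σ.n0 * E * e (-(K * (L * X 1))) * Cm K) * h4
  · apply Continuous.intervalIntegrable
    fun_prop
  · apply Continuous.intervalIntegrable
    fun_prop

lemma avgY {L m z0 : ℝ} (hL : L ≠ 0) {M : ℤ} (hM : L / m = M) {μ σ : Wave}
    (hkx : μ.kx = σ.kx + σ.ky) (hky : μ.ky = σ.ky) (hκ : μ.κ = σ.κ)
    (h0 : μ.n0 = σ.n0 + bf σ.ky * σ.n1) (h1 : μ.n1 = σ.n1) (h2 : μ.n2 = σ.n2)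
    (S : R3 × R3) :
    ∫ α in (0 : ℝ)..1, e (μ.kx * α) * σ.ev L z0 (halfY L m α S) = Cm σ.ky * μ.ev L z0 S := by
  obtain ⟨X, V⟩ := S
  set E : ℂ := e (-(L * (σ.ky * X 1) + σ.κ * (X 2 - z0))) with hE
  have key : ∀ α : ℝ, e (μ.kx * α) * σ.ev L z0 (halfY L m α (X, V)) =
      (((V 0 * σ.n0 + V 1 * σ.n1 + V 2 * σ.n2 : ℝ) : ℂ) * E) *
        (e (μ.kx * α) * e (-(((μ.kx : ℝ) - σ.ky) * (L * X 0 + α) + σ.ky * w (L * X 0 + α)))) +
      (((V 0 * σ.n1 : ℝ) : ℂ) * E) *
        (e (μ.kx * α) * (dw (L * X 0 + α) *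
          e (-(((μ.kx : ℝ) - σ.ky) * (L * X 0 + α) + σ.ky * w (L * X 0 + α))))) := by
    intro α
    have h3 : e (-(L * (σ.kx * (X 0 + α / L) + σ.ky * (X 1 + w (L * X 0 + α) / L + 1 / m)) +
        σ.κ * (X 2 - z0))) =
        E * e (-(((μ.kx : ℝ) - σ.ky) * (L * X 0 + α) + σ.ky * w (L * X 0 + α))) := by
      rw [hE, ← e_add, ← e_add_int _ (σ.ky * M)]
      congr 1
      rw [hkx]
      push_cast
      rw [← hM]
      field_simp
      ring
    simp only [Wave.ev, halfY, Matrix.cons_val_zero, Matrix.cons_val_one, Matrix.cons_val]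
    rw [h3]
    push_cast
    ring
  have hcw := w_continuous
  have hcd := dw_continuous
  have hce := e_continuous
  simp only [key]
  rw [intervalIntegral.integral_add, intervalIntegral.integral_const_mul,
    intervalIntegral.integral_const_mul, avg_one, avg_dw]
  · have h5 : e (-(L * (μ.kx * X 0 + μ.ky * X 1) + μ.κ * (X 2 - z0))) =
        E * e (-(μ.kx * (L * X 0))) := by
      rw [hE, ← e_add]
      congr 1
      rw [hky, hκ]
      ring
    simp only [Wave.ev]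
    rw [h5, h0, h1, h2]
    push_cast
    ring
  · apply Continuous.intervalIntegrable
    fun_prop
  · apply Continuous.intervalIntegrable
    fun_prop

end Pool.Agent.Lib_helper43.Dyn
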