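import Mathlib
import Pool.Agent.Lib_helper43.Dyn.Wave

set_option autoImplicit false

/-! # Existence of good phases -/

namespace Pool.Agent.Lib_helper43.Dyn

open MeasureTheory Filter Topology Set

lemma exists_phase {Ω : Type*} [MeasurableSpace Ω] (μ : Measure Ω) [IsFiniteMeasure μ]
    (ρ : ℝ → ℂ) (hρ : ∀ α, ‖ρ α‖ = 1) (hρm : Measurable ρ) (f : ℝ → Ω → ℂ)
    (hf : Measurable (Function.uncurry f)) (M : ℝ) (hM : ∀ α x, ‖f α x‖ ≤ M) (g : Ω → ℂ) (C : ℂ)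
    (hg : ∀ x, ∫ α in (0 : ℝ)..1, ρ α * f α x = C * g x) :
    ∃ α ∈ Icc (0 : ℝ) 1, ‖C‖ * ‖∫ x, g x ∂μ‖ ≤ ‖∫ x, f α x ∂μ‖ := by
  set ν : Measure ℝ := volume.restrict (Ioc 0 1) with hν
  have hνp : IsProbabilityMeasure ν := ⟨by simp [hν]⟩
  have hm : Measurable fun p : ℝ × Ω => ρ p.1 * f p.1 p.2 := (hρm.comp measurable_fst).mul hf
  have hint : Integrable (fun p : ℝ × Ω => ρ p.1 * f p.1 p.2) (ν.prod μ) := by
    refine Integrable.of_bound (C := M) hm.aestronglyMeasurable ?_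
    filter_upwards with p
    rw [norm_mul, hρ, one_mul]
    exact hM _ _
  have h1 : C * ∫ x, g x ∂μ = ∫ α, (∫ x, ρ α * f α x ∂μ) ∂ν := by
    rw [integral_integral_swap (f := fun α x => ρ α * f α x) hint, ← integral_const_mul]
    apply integral_congr_ae
    filter_upwards with x
    rw [← hg x, intervalIntegral.integral_of_le zero_le_one]
  have h2 : ‖C‖ * ‖∫ x, g x ∂μ‖ ≤ ∫ α, ‖∫ x, ρ α * f α x ∂μ‖ ∂ν := by
    rw [← norm_mul, h1]
    exact norm_integral_le_integral_norm _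
  have hint2 : Integrable (fun α => ‖∫ x, ρ α * f α x ∂μ‖) ν := hint.integral_prod_left.norm
  obtain ⟨α, hα, h4⟩ := exists_notMem_null_integral_le (N := (Ioc (0 : ℝ) 1)ᶜ) hint2
    (by rw [hν, Measure.restrict_apply measurableSet_Ioc.compl, compl_inter_self, measure_empty])
  rw [notMem_compl_iff] at hα
  refine ⟨α, Ioc_subset_Icc_self hα, (h2.trans h4).trans ?_⟩
  rw [integral_const_mul, norm_mul, hρ, one_mul]

/-- Measurable states with bounded vector part. -/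
def Nice {Ω : Type*} [MeasurableSpace Ω] (S : Ω → R3 × R3) : Prop :=
  Measurable S ∧ ∃ M : ℝ, ∀ x i, |(S x).2 i| ≤ M

lemma continuous_halfX_uncurry (L z0 a c : ℝ) :
    Continuous fun q : ℝ × (R3 × R3) => halfX L z0 a c q.1 q.2 := by
  have hcw := w_continuous
  have hcd := dw_continuous
  unfold halfX
  refine Continuous.prodMk ?_ ?_
  · refine continuous_pi fun i => ?_
    fin_cases i <;> simp <;> fun_prop
  · refine continuous_pi fun i => ?_
    fin_cases i <;> simp <;> fun_prop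

lemma continuous_halfY_uncurry (L m : ℝ) :
    Continuous fun q : ℝ × (R3 × R3) => halfY L m q.1 q.2 := by
  have hcw := w_continuous
  have hcd := dw_continuous
  unfold halfY
  refine Continuous.prodMk ?_ ?_
  · refine continuous_pi fun i => ?_
    fin_cases i <;> simp <;> fun_prop
  · refine continuous_pi fun i => ?_
    fin_cases i <;> simp <;> fun_prop

lemma continuous_halfX (L z0 a c β : ℝ) : Continuous (halfX L z0 a c β) :=
  (continuous_halfX_uncurry L z0 a c).comp (by fun_prop : Continuous fun S : R3 × R3 => (β, S))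

lemma continuous_halfY (L m α : ℝ) : Continuous (halfY L m α) :=
  (continuous_halfY_uncurry L m).comp (by fun_prop : Continuous fun S : R3 × R3 => (α, S))

lemma halfX_bound {L z0 a c M : ℝ} (β : ℝ) {S : R3 × R3} (hS : ∀ i, |S.2 i| ≤ M) (i : Fin 3) :
    |(halfX L z0 a c β S).2 i| ≤ (1 + |a| * Dw + |c|) * M := by
  have hM : 0 ≤ M := (abs_nonneg _).trans (hS 0)
  have h1 : M ≤ (1 + |a| * Dw + |c|) * M := by
    nlinarith [mul_nonneg (mul_nonneg (abs_nonneg a) Dw_pos.le) hM, mul_nonneg (abs_nonneg c) hM]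
  fin_cases i
  · simp only [halfX, Fin.zero_eta, Matrix.cons_val_zero]
    have h2 := hS 0
    have h3 := hS 1
    have h4 := hS 2
    have h5 := abs_dw_le (L * S.1 1 + β)
    calc |S.2 0 + a * dw (L * S.1 1 + β) * S.2 1 + c * S.2 2|
        ≤ |S.2 0| + |a * dw (L * S.1 1 + β) * S.2 1| + |c * S.2 2| := abs_add_three _ _ _
      _ = |S.2 0| + |a| * |dw (L * S.1 1 + β)| * |S.2 1| + |c| * |S.2 2| := by
          rw [abs_mul, abs_mul, abs_mul]
      _ ≤ M + |a| * Dw * M + |c| * M := by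
          have := Dw_pos.le
          gcongr
      _ = _ := by ring
  · simpa [halfX] using (hS 1).trans h1
  · simpa [halfX] using (hS 2).trans h1

lemma halfY_bound {L m M : ℝ} (α : ℝ) {S : R3 × R3} (hS : ∀ i, |S.2 i| ≤ M) (i : Fin 3) :
    |(halfY L m α S).2 i| ≤ (1 + Dw) * M := by
  have hM : 0 ≤ M := (abs_nonneg _).trans (hS 0)
  have h1 : M ≤ (1 + Dw) * M := by nlinarith [mul_nonneg Dw_pos.le hM]
  fin_cases i
  · simpa [halfY] using (hS 0).trans h1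
  · simp only [halfY, Fin.mk_one, Matrix.cons_val_one, Matrix.cons_val_zero]
    have h2 := hS 0
    have h3 := hS 1
    have h5 := abs_dw_le (L * S.1 0 + α)
    calc |S.2 1 + dw (L * S.1 0 + α) * S.2 0|
        ≤ |S.2 1| + |dw (L * S.1 0 + α)| * |S.2 0| := by
          rw [← abs_mul]; exact abs_add_le _ _
      _ ≤ M + Dw * M := by
          have := Dw_pos.le
          gcongr
      _ = _ := by ring
  · simpa [halfY] using (hS 2).trans h1

lemma Nice.halfX {Ω : Type*} [MeasurableSpace Ω] {S : Ω → R3 × R3} (hS : Nice S)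
    (L z0 a c β : ℝ) : Nice fun x => halfX L z0 a c β (S x) := by
  obtain ⟨h1, M, h2⟩ := hS
  exact ⟨(continuous_halfX L z0 a c β).measurable.comp h1, _, fun x i => halfX_bound β (h2 x) i⟩

lemma Nice.halfY {Ω : Type*} [MeasurableSpace Ω] {S : Ω → R3 × R3} (hS : Nice S)
    (L m α : ℝ) : Nice fun x => halfY L m α (S x) := by
  obtain ⟨h1, M, h2⟩ := hS
  exact ⟨(continuous_halfY L m α).measurable.comp h1, _, fun x i => halfY_bound α (h2 x) i⟩

lemma Wave.continuous_ev (L z0 : ℝ) (σ : Wave) : Continuous (σ.ev L z0) := by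
  have := e_continuous
  unfold Wave.ev
  fun_prop

lemma Wave.norm_ev_le {L z0 M : ℝ} (σ : Wave) {S : R3 × R3} (hS : ∀ i, |S.2 i| ≤ M) :
    ‖σ.ev L z0 S‖ ≤ M * (|σ.n0| + |σ.n1| + |σ.n2|) := by
  unfold Wave.ev
  rw [norm_mul, norm_e, mul_one, Complex.norm_real, Real.norm_eq_abs]
  calc |S.2 0 * σ.n0 + S.2 1 * σ.n1 + S.2 2 * σ.n2|
      ≤ |S.2 0 * σ.n0| + |S.2 1 * σ.n1| + |S.2 2 * σ.n2| := abs_add_three _ _ _
    _ = |S.2 0| * |σ.n0| + |S.2 1| * |σ.n1| + |S.2 2| * |σ.n2| := by simp only [abs_mul]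
    _ ≤ M * |σ.n0| + M * |σ.n1| + M * |σ.n2| := by
        have h2 := hS 0
        have h3 := hS 1
        have h4 := hS 2
        gcongr
    _ = _ := by ring

lemma existsX {Ω : Type*} [MeasurableSpace Ω] (P : Measure Ω) [IsFiniteMeasure P]
    {L z0 a c : ℝ} (hL : L ≠ 0) {σ μ : Wave} (K : ℤ) (hK : (K : ℝ) = a * σ.kx)
    (ha : K = 0 → a = 0)
    (hkx : μ.kx = σ.kx) (hky : σ.ky = μ.ky + K) (hκ : σ.κ = μ.κ + σ.kx * L * c)
    (h0 : μ.n0 = σ.n0) (h1 : σ.n1 = μ.n1 + a * σ.n0) (h2 : σ.n2 = μ.n2 + c * σ.n0)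
    {S : Ω → R3 × R3} (hS : Nice S) :
    ∃ β ∈ Icc (0 : ℝ) 1, 1 / 2 * ‖∫ x, σ.ev L z0 (S x) ∂P‖ ≤
      ‖∫ x, μ.ev L z0 (halfX L z0 a c β (S x)) ∂P‖ := by
  obtain ⟨hm, M, hM⟩ := hS
  have hmeas : Measurable (Function.uncurry fun (β : ℝ) (x : Ω) =>
      μ.ev L z0 (halfX L z0 a c β (S x))) := by
    have h3 : Measurable fun q : ℝ × Ω => ((q.1, S q.2) : ℝ × (R3 × R3)) :=
      measurable_fst.prodMk (hm.comp measurable_snd)
    have h4 : Continuous fun q : ℝ × (R3 × R3) => μ.ev L z0 (halfX L z0 a c q.1 q.2) :=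
      (μ.continuous_ev L z0).comp (continuous_halfX_uncurry L z0 a c)
    have h5 : Measurable fun q : ℝ × (R3 × R3) => μ.ev L z0 (halfX L z0 a c q.1 q.2) :=
      h4.measurable
    have h6 : Measurable ((fun q : ℝ × (R3 × R3) => μ.ev L z0 (halfX L z0 a c q.1 q.2)) ∘
      fun q : ℝ × Ω => ((q.1, S q.2) : ℝ × (R3 × R3))) := h5.comp h3
    exact h6
  have hb : ∀ (β : ℝ) (x : Ω), ‖μ.ev L z0 (halfX L z0 a c β (S x))‖ ≤
      ((1 + |a| * Dw + |c|) * M) * (|μ.n0| + |μ.n1| + |μ.n2|) :=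
    fun β x => μ.norm_ev_le (halfX_bound β (hM x))
  have hρ : ∀ β : ℝ, ‖e (K * β)‖ = 1 := fun β => norm_e _
  have hρm : Measurable fun β : ℝ => e (K * β) := (e_continuous.comp (by fun_prop)).measurable
  obtain ⟨β, hβ, hle⟩ := exists_phase P (fun β => e (K * β)) hρ hρm
    (fun β x => μ.ev L z0 (halfX L z0 a c β (S x))) hmeas
    _ hb (fun x => σ.ev L z0 (S x)) (Cm K)
    (fun x => avgX hL K hK ha hkx hky hκ h0 h1 h2 (S x))
  refine ⟨β, hβ, le_trans ?_ hle⟩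
  gcongr
  exact half_le_norm_Cm K
lemma existsY {Ω : Type*} [MeasurableSpace Ω] (P : Measure Ω) [IsFiniteMeasure P]
    {L m z0 : ℝ} (hL : L ≠ 0) {M : ℤ} (hM : L / m = M) {μ σ : Wave}
    (hkx : μ.kx = σ.kx + σ.ky) (hky : μ.ky = σ.ky) (hκ : μ.κ = σ.κ)
    (h0 : μ.n0 = σ.n0 + bf σ.ky * σ.n1) (h1 : μ.n1 = σ.n1) (h2 : μ.n2 = σ.n2)
    {S : Ω → R3 × R3} (hS : Nice S) :
    ∃ α ∈ Icc (0 : ℝ) 1, 1 / 2 * ‖∫ x, μ.ev L z0 (S x) ∂P‖ ≤
      ‖∫ x, σ.ev L z0 (halfY L m α (S x)) ∂P‖ := by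
  obtain ⟨hm, M', hM'⟩ := hS
  have hmeas : Measurable (Function.uncurry fun (α : ℝ) (x : Ω) =>
      σ.ev L z0 (halfY L m α (S x))) := by
    have h3 : Measurable fun q : ℝ × Ω => ((q.1, S q.2) : ℝ × (R3 × R3)) :=
      measurable_fst.prodMk (hm.comp measurable_snd)
    have h4 : Continuous fun q : ℝ × (R3 × R3) => σ.ev L z0 (halfY L m q.1 q.2) :=
      (σ.continuous_ev L z0).comp (continuous_halfY_uncurry L m)
    have h5 : Measurable fun q : ℝ × (R3 × R3) => σ.ev L z0 (halfY L m q.1 q.2) :=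
      h4.measurable
    have h6 : Measurable ((fun q : ℝ × (R3 × R3) => σ.ev L z0 (halfY L m q.1 q.2)) ∘
      fun q : ℝ × Ω => ((q.1, S q.2) : ℝ × (R3 × R3))) := h5.comp h3
    exact h6
  have hb : ∀ (α : ℝ) (x : Ω), ‖σ.ev L z0 (halfY L m α (S x))‖ ≤
      ((1 + Dw) * M') * (|σ.n0| + |σ.n1| + |σ.n2|) :=
    fun α x => σ.norm_ev_le (halfY_bound α (hM' x))
  have hρ : ∀ α : ℝ, ‖e (μ.kx * α)‖ = 1 := fun α => norm_e _
  have hρm : Measurable fun α : ℝ => e (μ.kx * α) := (e_continuous.comp (by fun_prop)).measurable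
  obtain ⟨α, hα, hle⟩ := exists_phase P (fun α => e (μ.kx * α)) hρ hρm
    (fun α x => σ.ev L z0 (halfY L m α (S x))) hmeas
    _ hb (fun x => μ.ev L z0 (S x)) (Cm σ.ky)
    (fun x => avgY hL hM hkx hky hκ h0 h1 h2 (S x))
  refine ⟨α, hα, le_trans ?_ hle⟩
  gcongr
  exact half_le_norm_Cm _

/-- The relation between the waves before (`σ`) and after (`τ`) a period. -/
structure Step (L a c : ℝ) (σ τ : Wave) : Prop where
  kx : σ.kx = τ.kx + τ.ky
  ky : ((σ.ky - τ.ky : ℤ) : ℝ) = a * σ.kx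
  a_eq : σ.ky = τ.ky → a = 0
  κ : σ.κ = τ.κ + σ.kx * L * c
  n0 : σ.n0 = τ.n0 + bf τ.ky * τ.n1
  n1 : σ.n1 = τ.n1 + a * σ.n0
  n2 : σ.n2 = τ.n2 + c * σ.n0

lemma Step.exists {Ω : Type*} [MeasurableSpace Ω] (P : Measure Ω) [IsFiniteMeasure P]
    {L m z0 a c : ℝ} (hL : L ≠ 0) {M : ℤ} (hM : L / m = M) {σ τ : Wave} (h : Step L a c σ τ)
    {S : Ω → R3 × R3} (hS : Nice S) :
    ∃ α ∈ Icc (0 : ℝ) 1, ∃ β ∈ Icc (0 : ℝ) 1, 1 / 4 * ‖∫ x, σ.ev L z0 (S x) ∂P‖ ≤
      ‖∫ x, τ.ev L z0 (Dyn.halfY L m α (Dyn.halfX L z0 a c β (S x))) ∂P‖ := by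
  let μ : Wave := ⟨σ.kx, τ.ky, τ.κ, σ.n0, τ.n1, τ.n2⟩
  obtain ⟨β, hβ, h1⟩ := existsX (z0 := z0) P hL (σ := σ) (μ := μ) (σ.ky - τ.ky) h.ky
    (fun h0 => h.a_eq (by linarith)) rfl (by simp only [μ]; ring) h.κ rfl h.n1 h.n2 hS
  obtain ⟨α, hα, h2⟩ := existsY (z0 := z0) P hL hM (μ := μ) (σ := τ) h.kx rfl rfl h.n0 rfl rfl
    (hS.halfX L z0 a c β)
  refine ⟨α, hα, β, hβ, ?_⟩
  linarith

/-- The ideal evolution of states. -/
noncomputable def st (L m z0 : ℝ) (a c α β : ℕ → ℝ) : ℕ → R3 × R3 → R3 × R3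
  | 0, S => S
  | p + 1, S => halfY L m (α p) (halfX L z0 (a p) (c p) (β p) (st L m z0 a c α β p S))

lemma st_congr (L m z0 : ℝ) (a c : ℕ → ℝ) {α β α' β' : ℕ → ℝ} {p : ℕ}
    (h : ∀ i < p, α i = α' i ∧ β i = β' i) (S : R3 × R3) :
    st L m z0 a c α β p S = st L m z0 a c α' β' p S := by
  induction p with
  | zero => rfl
  | succ p ih =>
    simp only [st]
    rw [ih (fun i hi => h i (by omega)), (h p (by omega)).1, (h p (by omega)).2]

lemma Nice.st {Ω : Type*} [MeasurableSpace Ω] {S : Ω → R3 × R3} (hS : Nice S)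
    (L m z0 : ℝ) (a c α β : ℕ → ℝ) (p : ℕ) : Nice fun x => st L m z0 a c α β p (S x) := by
  induction p with
  | zero => exact hS
  | succ p ih => exact (ih.halfX _ _ _ _ _).halfY _ _ _

theorem exists_phases {Ω : Type*} [MeasurableSpace Ω] (P : Measure Ω) [IsFiniteMeasure P]
    {L m z0 : ℝ} (hL : L ≠ 0) {M : ℤ} (hM : L / m = M) (a c : ℕ → ℝ) (σ : ℕ → Wave) (N : ℕ)
    (h : ∀ p < N, Step L (a p) (c p) (σ p) (σ (p + 1)))
    {S : Ω → R3 × R3} (hS : Nice S) :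
    ∃ α β : ℕ → ℝ, (∀ p, α p ∈ Icc (0 : ℝ) 1) ∧ (∀ p, β p ∈ Icc (0 : ℝ) 1) ∧
      (1 / 4) ^ N * ‖∫ x, (σ 0).ev L z0 (S x) ∂P‖ ≤
      ‖∫ x, (σ N).ev L z0 (Dyn.st L m z0 a c α β N (S x)) ∂P‖ := by
  induction N with
  | zero => exact ⟨fun _ => 0, fun _ => 0, by simp, by simp, by simp [Dyn.st]⟩
  | succ N ih =>
    obtain ⟨α, β, hα, hβ, hle⟩ := ih (fun p hp => h p (by omega))
    obtain ⟨α', hα', β', hβ', hle'⟩ := (h N (by omega)).exists (z0 := z0) P hL hM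
      (hS.st L m z0 a c α β N)
    refine ⟨Function.update α N α', Function.update β N β', ?_, ?_, ?_⟩
    · intro p
      by_cases hp : p = N
      · subst hp; simpa using hα'
      · simpa [hp] using hα p
    · intro p
      by_cases hp : p = N
      · subst hp; simpa using hβ'
      · simpa [hp] using hβ p
    · have h1 : ∀ x, Dyn.st L m z0 a c (Function.update α N α') (Function.update β N β') (N + 1) (S x) =
          Dyn.halfY L m α' (Dyn.halfX L z0 (a N) (c N) β' (Dyn.st L m z0 a c α β N (S x))) := by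
        intro x
        simp only [Dyn.st, Function.update_self]
        rw [st_congr L m z0 a c (α' := α) (β' := β) (p := N)]
        intro i hi
        simp [hi.ne]
      simp only [h1]
      refine le_trans ?_ hle'
      rw [pow_succ]
      linarith

end Pool.Agent.Lib_helper43.Dyn
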