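import Mathlib
import Pool.Agent.Lib_helper43.Dyn.Phases

set_option autoImplicit false

/-! # The path of wave vectors -/

namespace Pool.Agent.Lib_helper43.Dyn

open MeasureTheory Filter Topology Set

/-- The pair `(P_n, R_n)`. -/
def PR : ℕ → ℤ × ℤ
  | 0 => (1, 0)
  | n + 1 => ((PR n).1 + 1024 * ((PR n).2 + (PR n).1), (PR n).2 + (PR n).1)

/-- `P_n`. -/
def Pn (n : ℕ) : ℤ := (PR n).1

/-- `R_n`. -/
def Rn (n : ℕ) : ℤ := (PR n).2

/-- `Q_n`. -/
def Qn (n : ℕ) : ℤ := 1024 * Rn n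

lemma Pn_zero : Pn 0 = 1 := rfl
lemma Rn_zero : Rn 0 = 0 := rfl
lemma Rn_succ (n : ℕ) : Rn (n + 1) = Rn n + Pn n := rfl
lemma Pn_succ (n : ℕ) : Pn (n + 1) = Pn n + Qn (n + 1) := rfl

lemma Pn_pos_Rn_nonneg (n : ℕ) : 0 < Pn n ∧ 0 ≤ Rn n := by
  induction n with
  | zero => exact ⟨by norm_num [Pn_zero], by norm_num [Rn_zero]⟩
  | succ n ih =>
    have h1 : 0 ≤ Rn (n + 1) := by rw [Rn_succ]; omega
    refine ⟨?_, h1⟩
    rw [Pn_succ, Qn]
    omega

lemma Pn_pos (n : ℕ) : 0 < Pn n := (Pn_pos_Rn_nonneg n).1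
lemma Rn_nonneg (n : ℕ) : 0 ≤ Rn n := (Pn_pos_Rn_nonneg n).2
lemma Rn_succ_pos (n : ℕ) : 0 < Rn (n + 1) := by
  rw [Rn_succ]; have := Pn_pos n; have := Rn_nonneg n; omega
lemma Qn_succ_pos (n : ℕ) : 0 < Qn (n + 1) := by
  unfold Qn; have := Rn_succ_pos n; omega
lemma Qn_le_Pn (n : ℕ) : Qn n ≤ Pn n := by
  cases n with
  | zero => simp [Qn, Rn_zero, Pn_zero]
  | succ n => rw [Pn_succ]; have := Pn_pos n; omega
lemma Qn_nonneg (n : ℕ) : 0 ≤ Qn n := by unfold Qn; have := Rn_nonneg n; omega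

lemma pow_le_Rn (n : ℕ) : (1024 : ℤ) ^ n ≤ Rn (n + 1) := by
  induction n with
  | zero => simp [Rn_succ, Rn_zero, Pn_zero]
  | succ n ih =>
    rw [Rn_succ, Pn_succ, Qn, pow_succ]
    have := Pn_pos n
    have := Rn_succ_pos n
    omega

/-- Waves of the descending stages. -/
noncomputable def WD (w κ n2 : ℝ) (r : ℕ) : Wave :=
  ⟨Pn r, Qn (r + 1), κ, w * Pn r + Rn r, w * Qn (r + 1) + Pn r, n2⟩

/-- Waves of the ascending stage. -/
noncomputable def WU (w κ n2 : ℝ) (r : ℕ) : Wave :=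
  ⟨Pn r, -Qn r, κ, w * Pn r - Rn r, Pn r - Qn r - w * Qn r, n2⟩

lemma bf_pos {m : ℤ} (h : m ≠ 0) : bf m = 1 := by simp [bf, h]

lemma stepD (L w κ n2 : ℝ) (r : ℕ) :
    Step L 1024 0 (WD w κ n2 (r + 1)) (WD w κ n2 r) := by
  have hQ := Qn_succ_pos r
  have e1 : (Rn (r + 1) : ℝ) = Rn r + Pn r := by exact_mod_cast Rn_succ r
  have e2 : (Pn (r + 1) : ℝ) = Pn r + Qn (r + 1) := by exact_mod_cast Pn_succ r
  have e4 : (Rn (r + 2) : ℝ) = Rn (r + 1) + Pn (r + 1) := by exact_mod_cast Rn_succ (r + 1)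
  have e5 : (Qn (r + 2) : ℝ) = 1024 * Rn (r + 2) := by simp [Qn]
  have e6 : (Qn (r + 1) : ℝ) = 1024 * Rn (r + 1) := by simp [Qn]
  refine ⟨?_, ?_, ?_, ?_, ?_, ?_, ?_⟩
  · simp only [WD]; exact Pn_succ r
  · simp only [WD]; push_cast; linarith
  · intro h
    simp only [WD, Qn] at h
    have h1 := Rn_succ (r + 1)
    have h2 := Pn_pos (r + 1)
    have h3 : r + 1 + 1 = r + 2 := rfl
    rw [h3] at *
    omega
  · simp only [WD]; ring
  · simp only [WD]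
    rw [bf_pos hQ.ne', e1, e2]
    ring
  · simp only [WD]
    rw [show r + 1 + 1 = r + 2 from rfl, e5, e4, e6]
    rw [e6] at e2
    rw [e2, e1]
    ring
  · simp only [WD]; ring

lemma stepDU (L w κ n2 : ℝ) : Step L 1024 0 (WD w κ n2 0) (WU w κ n2 0) := by
  have e1 : Rn 1 = 1 := by simp [Rn_succ, Rn_zero, Pn_zero]
  refine ⟨?_, ?_, ?_, ?_, ?_, ?_, ?_⟩
  · simp [WD, WU, Pn_zero, Qn, Rn_zero]
  · simp [WD, WU, Pn_zero, e1, Qn, Rn_zero]
  · simp [WD, WU, Pn_zero, e1, Qn, Rn_zero]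
  · simp [WD, WU]
  · simp [WD, WU, Pn_zero, Qn, Rn_zero, bf]
  · simp [WD, WU, Pn_zero, e1, Qn, Rn_zero]; ring
  · simp [WD, WU]

lemma stepU (L w κ n2 : ℝ) (r : ℕ) :
    Step L 1024 0 (WU w κ n2 r) (WU w κ n2 (r + 1)) := by
  have hQ := Qn_succ_pos r
  have e1 : (Rn (r + 1) : ℝ) = Rn r + Pn r := by exact_mod_cast Rn_succ r
  have e2 : (Pn (r + 1) : ℝ) = Pn r + Qn (r + 1) := by exact_mod_cast Pn_succ r
  have e6 : (Qn (r + 1) : ℝ) = 1024 * Rn (r + 1) := by simp [Qn]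
  have e7 : (Qn r : ℝ) = 1024 * Rn r := by simp [Qn]
  refine ⟨?_, ?_, ?_, ?_, ?_, ?_, ?_⟩
  · simp only [WU]; rw [Pn_succ r]; ring
  · simp only [WU]; push_cast; rw [e6, e7, e1]; ring
  · intro h
    simp only [WU, Qn] at h
    have h1 := Rn_succ r
    have h2 := Pn_pos r
    omega
  · simp only [WU]; ring
  · simp only [WU]
    rw [bf_pos (by omega), e1, e2]
    ring
  · simp only [WU]
    rw [e2, e6, e1, e7]
    ring
  · simp only [WU]; ring

lemma stepTurn (L : ℝ) (k : ℕ) :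
    Step L (-2 * Qn (k + 1) / Pn (k + 1)) (-1)
      (WU (2 * Rn (k + 1) / Pn (k + 1)) (-(L * Pn (k + 1))) (-Rn (k + 1)) (k + 1)) (WD 0 0 0 k) := by
  have hQ := Qn_succ_pos k
  have hP : (Pn (k + 1) : ℝ) ≠ 0 := by exact_mod_cast (Pn_pos (k + 1)).ne'
  have e1 : (Rn (k + 1) : ℝ) = Rn k + Pn k := by exact_mod_cast Rn_succ k
  have e2 : (Pn (k + 1) : ℝ) = Pn k + Qn (k + 1) := by exact_mod_cast Pn_succ k
  refine ⟨?_, ?_, ?_, ?_, ?_, ?_, ?_⟩
  · simp only [WD, WU]; exact Pn_succ k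
  · simp only [WD, WU]; push_cast; field_simp; ring
  · intro h
    simp only [WU, WD] at h
    omega
  · simp only [WU, WD]; ring
  · simp only [WU, WD]
    rw [bf_pos (by omega)]
    field_simp
    rw [e1]
    ring
  · simp only [WU, WD]
    have e3 : (Pn k : ℝ) = Pn (k + 1) - Qn (k + 1) := by linarith
    rw [e3]
    field_simp
    ring
  · simp only [WU, WD]
    field_simp
    ring

/-- The initial wave. -/
noncomputable def W0 (k : ℕ) : Wave :=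
  ⟨Pn (k + 1), Qn (k + 1), 0, 3 * Rn (k + 1),
    2 * Rn (k + 1) / Pn (k + 1) * Qn (k + 1) + Pn k, 2 * Rn (k + 1)⟩

lemma stepStart (L : ℝ) (k : ℕ) :
    Step L 0 1 (W0 k)
      (WD (2 * Rn (k + 1) / Pn (k + 1)) (-(L * Pn (k + 1))) (-Rn (k + 1)) k) := by
  have hQ := Qn_succ_pos k
  have hP : (Pn (k + 1) : ℝ) ≠ 0 := by exact_mod_cast (Pn_pos (k + 1)).ne'
  have e1 : (Rn (k + 1) : ℝ) = Rn k + Pn k := by exact_mod_cast Rn_succ k
  have e2 : (Pn (k + 1) : ℝ) = Pn k + Qn (k + 1) := by exact_mod_cast Pn_succ k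
  refine ⟨?_, ?_, ?_, ?_, ?_, ?_, ?_⟩
  · simp only [W0, WD]; exact Pn_succ k
  · simp [W0, WD]
  · intro _; rfl
  · simp only [W0, WD]; ring
  · simp only [W0, WD]
    rw [bf_pos (by omega)]
    have e3 : (Pn k : ℝ) = Pn (k + 1) - Qn (k + 1) := by linarith
    have e4 : (Rn k : ℝ) = Rn (k + 1) - Pn (k + 1) + Qn (k + 1) := by linarith
    rw [e4, e3]
    field_simp
    ring
  · simp only [W0, WD]; ring
  · simp only [W0, WD]; ring

/-- Number of the last period. -/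
def Nk (k : ℕ) : ℕ := 3 * (k + 1) + 1

/-- The coefficients `a_p`. -/
noncomputable def ak (k p : ℕ) : ℝ :=
  if p = 0 then 0 else if p = 2 * (k + 1) + 1 then -2 * Qn (k + 1) / Pn (k + 1) else 1024

/-- The coefficients `c_p`. -/
noncomputable def ck (k p : ℕ) : ℝ :=
  if p = 0 then 1 else if p = 2 * (k + 1) + 1 then -1 else 0

/-- The waves. -/
noncomputable def sk (L : ℝ) (k p : ℕ) : Wave :=
  if p = 0 then W0 k
  else if p ≤ k + 1 then
    WD (2 * Rn (k + 1) / Pn (k + 1)) (-(L * Pn (k + 1))) (-Rn (k + 1)) (k + 1 - p)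
  else if p ≤ 2 * (k + 1) + 1 then
    WU (2 * Rn (k + 1) / Pn (k + 1)) (-(L * Pn (k + 1))) (-Rn (k + 1)) (p - (k + 2))
  else WD 0 0 0 (3 * (k + 1) + 1 - p)

lemma step_sk (L : ℝ) (k p : ℕ) (hp : p < Nk k) :
    Step L (ak k p) (ck k p) (sk L k p) (sk L k (p + 1)) := by
  unfold Nk at hp
  by_cases h0 : p = 0
  · subst h0
    have h1 : sk L k 1 = WD (2 * Rn (k + 1) / Pn (k + 1)) (-(L * Pn (k + 1))) (-Rn (k + 1)) k := by
      simp [sk]
    rw [zero_add, h1]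
    simpa [ak, ck, sk] using stepStart L k
  by_cases h1 : p < k + 1
  · obtain ⟨r, hr⟩ : ∃ r, k + 1 = p + 1 + r := ⟨k - p, by omega⟩
    have e1 : k + 1 - p = r + 1 := by omega
    have e2 : k + 1 - (p + 1) = r := by omega
    have h2 : ak k p = 1024 := by simp [ak, h0]; omega
    have h3 : ck k p = 0 := by simp [ck, h0]; omega
    have h4 : sk L k p = WD (2 * Rn (k + 1) / Pn (k + 1)) (-(L * Pn (k + 1))) (-Rn (k + 1)) (r + 1) := by
      rw [sk, if_neg h0, if_pos (by omega), e1]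
    have h5 : sk L k (p + 1) = WD (2 * Rn (k + 1) / Pn (k + 1)) (-(L * Pn (k + 1))) (-Rn (k + 1)) r := by
      rw [sk, if_neg (by omega), if_pos (by omega), e2]
    rw [h2, h3, h4, h5]
    exact stepD _ _ _ _ _
  by_cases h2 : p = k + 1
  · subst h2
    have h2 : ak k (k + 1) = 1024 := by simp [ak]; omega
    have h3 : ck k (k + 1) = 0 := by simp [ck]; omega
    have h4 : sk L k (k + 1) = WD (2 * Rn (k + 1) / Pn (k + 1)) (-(L * Pn (k + 1))) (-Rn (k + 1)) 0 := by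
      rw [sk, if_neg h0, if_pos (by omega), Nat.sub_self]
    have h5 : sk L k (k + 1 + 1) = WU (2 * Rn (k + 1) / Pn (k + 1)) (-(L * Pn (k + 1))) (-Rn (k + 1)) 0 := by
      rw [sk, if_neg (by omega), if_neg (by omega), if_pos (by omega), Nat.sub_self]
    rw [h2, h3, h4, h5]
    exact stepDU _ _ _ _
  by_cases h3 : p < 2 * (k + 1) + 1
  · obtain ⟨r, hr⟩ : ∃ r, p = k + 2 + r := ⟨p - (k + 2), by omega⟩
    have e1 : p - (k + 2) = r := by omega
    have e2 : p + 1 - (k + 2) = r + 1 := by omega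
    have h2 : ak k p = 1024 := by simp [ak, h0]; omega
    have h3 : ck k p = 0 := by simp [ck, h0]; omega
    have h4 : sk L k p = WU (2 * Rn (k + 1) / Pn (k + 1)) (-(L * Pn (k + 1))) (-Rn (k + 1)) r := by
      rw [sk, if_neg h0, if_neg (by omega), if_pos (by omega), e1]
    have h5 : sk L k (p + 1) = WU (2 * Rn (k + 1) / Pn (k + 1)) (-(L * Pn (k + 1))) (-Rn (k + 1)) (r + 1) := by
      rw [sk, if_neg (by omega), if_neg (by omega), if_pos (by omega), e2]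
    rw [h2, h3, h4, h5]
    exact stepU _ _ _ _ _
  by_cases h4 : p = 2 * (k + 1) + 1
  · subst h4
    have e1 : 2 * (k + 1) + 1 - (k + 2) = k + 1 := by omega
    have e2 : 3 * (k + 1) + 1 - (2 * (k + 1) + 1 + 1) = k := by omega
    have h2 : ak k (2 * (k + 1) + 1) = -2 * Qn (k + 1) / Pn (k + 1) := by simp [ak]
    have h3 : ck k (2 * (k + 1) + 1) = -1 := by simp [ck]
    have h4 : sk L k (2 * (k + 1) + 1) =
        WU (2 * Rn (k + 1) / Pn (k + 1)) (-(L * Pn (k + 1))) (-Rn (k + 1)) (k + 1) := by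
      rw [sk, if_neg h0, if_neg (by omega), if_pos (by omega), e1]
    have h5 : sk L k (2 * (k + 1) + 1 + 1) = WD 0 0 0 k := by
      rw [sk, if_neg (by omega), if_neg (by omega), if_neg (by omega), e2]
    rw [h2, h3, h4, h5]
    exact stepTurn _ _
  · obtain ⟨r, hr⟩ : ∃ r, 3 * (k + 1) + 1 = p + 1 + r := ⟨3 * (k + 1) + 1 - (p + 1), by omega⟩
    have e1 : 3 * (k + 1) + 1 - p = r + 1 := by omega
    have e2 : 3 * (k + 1) + 1 - (p + 1) = r := by omega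
    have h2 : ak k p = 1024 := by simp [ak, h0]; omega
    have h3 : ck k p = 0 := by simp [ck, h0]; omega
    have h4 : sk L k p = WD 0 0 0 (r + 1) := by
      rw [sk, if_neg h0, if_neg (by omega), if_neg (by omega), e1]
    have h5 : sk L k (p + 1) = WD 0 0 0 r := by
      rw [sk, if_neg (by omega), if_neg (by omega), if_neg (by omega), e2]
    rw [h2, h3, h4, h5]
    exact stepD _ _ _ _ _

lemma sk_zero (L : ℝ) (k : ℕ) : sk L k 0 = W0 k := by simp [sk]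

lemma sk_Nk (L : ℝ) (k : ℕ) : sk L k (Nk k) = ⟨1, 1024, 0, 0, 1, 0⟩ := by
  have e1 : 3 * (k + 1) + 1 - Nk k = 0 := by unfold Nk; omega
  have h : sk L k (Nk k) = WD 0 0 0 0 := by
    rw [sk, if_neg (by unfold Nk; omega), if_neg (by unfold Nk; omega),
      if_neg (by unfold Nk; omega), e1]
  rw [h]
  simp [WD, Pn_zero, Qn, Rn_succ, Rn_zero]

lemma ak_Nk (k : ℕ) : ak k (Nk k) = 1024 := by
  simp [ak, Nk]

lemma ck_Nk (k : ℕ) : ck k (Nk k) = 0 := by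
  simp [ck, Nk]

lemma abs_ak_le (k p : ℕ) : |ak k p| ≤ 1024 := by
  unfold ak
  split_ifs
  · norm_num
  · have hP : (0 : ℝ) < Pn (k + 1) := by exact_mod_cast Pn_pos (k + 1)
    have hQ : (0 : ℝ) ≤ Qn (k + 1) := by exact_mod_cast Qn_nonneg (k + 1)
    have hQP : (Qn (k + 1) : ℝ) ≤ Pn (k + 1) := by exact_mod_cast Qn_le_Pn (k + 1)
    rw [abs_div, abs_of_pos hP, div_le_iff₀ hP, abs_mul, abs_of_nonneg hQ]
    norm_num
    linarith
  · norm_num

lemma abs_ck_le (k p : ℕ) : |ck k p| ≤ 1 := by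
  unfold ck
  split_ifs <;> norm_num

end Pool.Agent.Lib_helper43.Dyn
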