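import Mathlib
import Pool.Agent.Lib_helper43.Dyn.Path

set_option autoImplicit false

/-! # The flux of the ideal evolution for good phases -/

namespace Pool.Agent.Lib_helper43.Dyn

open MeasureTheory Filter Topology Set

/-- The ideal `X` map. -/
noncomputable def Xmap (L z0 a c α β : ℝ) (S : R3 × R3) : R3 × R3 :=
  (![S.1 0 + ((a * w (L * S.1 1 + β) + α) / L + c * (S.1 2 - z0)), S.1 1, S.1 2],
    ![S.2 0 + a * dw (L * S.1 1 + β) * S.2 1 + c * S.2 2, S.2 1, S.2 2])

/-- The ideal `Y` map. -/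
noncomputable def Ymap (L m : ℝ) (S : R3 × R3) : R3 × R3 :=
  (![S.1 0, S.1 1 + (w (L * S.1 0) / L + 1 / m), S.1 2],
    ![S.2 0, S.2 1 + dw (L * S.1 0) * S.2 0, S.2 2])

lemma halfY_halfX {L m z0 a c α β : ℝ} (hL : L ≠ 0) (S : R3 × R3) :
    halfY L m α (halfX L z0 a c β S) = Ymap L m (Xmap L z0 a c α β S) := by
  have h1 : L * (S.1 0 + a * w (L * S.1 1 + β) / L + c * (S.1 2 - z0)) + α =
      L * (S.1 0 + ((a * w (L * S.1 1 + β) + α) / L + c * (S.1 2 - z0))) := by
    field_simp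
    ring
  have h2 : S.1 0 + a * w (L * S.1 1 + β) / L + c * (S.1 2 - z0) + α / L =
      S.1 0 + ((a * w (L * S.1 1 + β) + α) / L + c * (S.1 2 - z0)) := by
    field_simp
    ring
  unfold halfY Ymap
  simp only [halfX, Xmap, Matrix.cons_val_zero, Matrix.cons_val_one, Matrix.cons_val]
  rw [h1, h2, add_assoc (S.1 1)]

lemma st_succ {L m z0 : ℝ} (hL : L ≠ 0) (a c α β : ℕ → ℝ) (p : ℕ) (S : R3 × R3) :
    st L m z0 a c α β (p + 1) S =
      Ymap L m (Xmap L z0 (a p) (c p) (α p) (β p) (st L m z0 a c α β p S)) := by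
  rw [st, halfY_halfX hL]

theorem ideal_flux {Ω : Type*} [MeasurableSpace Ω] (P : Measure Ω) [IsFiniteMeasure P]
    {L m z0 : ℝ} (hL : L ≠ 0) {M : ℤ} (hM : L / m = M) (k : ℕ)
    {S : Ω → R3 × R3} (hS : Nice S) :
    ∃ α β : ℕ → ℝ, (∀ p, α p ∈ Icc (0 : ℝ) 1) ∧ (∀ p, β p ∈ Icc (0 : ℝ) 1) ∧
      1 / 2 * ((1 / 4) ^ (Nk k) * ‖∫ x, (W0 k).ev L z0 (S x) ∂P‖) ≤
      ∫ x, (st L m z0 (ak k) (ck k) α β (Nk k) (S x)).2 1 *
        Real.cos (2 * Real.pi * (L * (Xmap L z0 (ak k (Nk k)) (ck k (Nk k)) (α (Nk k)) (β (Nk k))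
          (st L m z0 (ak k) (ck k) α β (Nk k) (S x))).1 0)) ∂P := by
  set N := Nk k with hN
  obtain ⟨α, β, hα, hβ, h1⟩ := exists_phases (z0 := z0) P hL hM (ak k) (ck k) (sk L k) N
    (fun p hp => step_sk L k p hp) hS
  have hS' : Nice fun x => st L m z0 (ak k) (ck k) α β N (S x) := hS.st _ _ _ _ _ _ _ _
  obtain ⟨β', hβ', h2⟩ := existsX (z0 := z0) (a := 1024) (c := 0) P hL (σ := ⟨1, 1024, 0, 0, 1, 0⟩)
    (μ := ⟨1, 0, 0, 0, 1, 0⟩) 1024 (by norm_num) (by norm_num) rfl (by norm_num)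
    (by simp) rfl (by simp) (by simp) hS'
  rw [sk_zero, sk_Nk] at h1
  set J : ℂ := ∫ x, (⟨1, 0, 0, 0, 1, 0⟩ : Wave).ev L z0
    (halfX L z0 1024 0 β' (st L m z0 (ak k) (ck k) α β N (S x))) ∂P with hJ
  set α' : ℝ := Int.fract (J.arg / (2 * Real.pi)) with hα'
  have hα'm : α' ∈ Icc (0 : ℝ) 1 := ⟨Int.fract_nonneg _, (Int.fract_lt_one _).le⟩
  have h3 : e (-α') * J = ‖J‖ := by
    have h4 : e (-α') = e (-(J.arg / (2 * Real.pi))) := by
      have : -α' = -(J.arg / (2 * Real.pi)) + (⌊J.arg / (2 * Real.pi)⌋ : ℤ) := by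
        rw [hα', Int.fract]; ring
      rw [this, e_add_int]
    have h5 : e (-(J.arg / (2 * Real.pi))) = Complex.exp (-(J.arg : ℂ) * Complex.I) := by
      unfold e
      congr 1
      have := Real.pi_ne_zero
      push_cast
      field_simp
    have h6 : J = ‖J‖ * Complex.exp (J.arg * Complex.I) := (Complex.norm_mul_exp_arg_mul_I J).symm
    rw [h4, h5]
    nth_rewrite 2 [h6]
    rw [mul_left_comm, ← Complex.exp_add]
    simp
  refine ⟨Function.update α N α', Function.update β N β', ?_, ?_, ?_⟩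
  · intro p
    by_cases hp : p = N
    · rw [hp]; simpa using hα'm
    · simpa [hp] using hα p
  · intro p
    by_cases hp : p = N
    · rw [hp]; simpa using hβ'
    · simpa [hp] using hβ p
  · have hst : ∀ x, st L m z0 (ak k) (ck k) (Function.update α N α') (Function.update β N β') N (S x) =
        st L m z0 (ak k) (ck k) α β N (S x) := by
      intro x
      apply st_congr
      intro i hi
      simp [hi.ne]
    simp only [hst, Function.update_self]
    have hcos : ∀ x, (st L m z0 (ak k) (ck k) α β N (S x)).2 1 *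
        Real.cos (2 * Real.pi * (L * (Xmap L z0 (ak k N) (ck k N) α' β'
          (st L m z0 (ak k) (ck k) α β N (S x))).1 0)) =
        (e (-α') * (⟨1, 0, 0, 0, 1, 0⟩ : Wave).ev L z0
          (halfX L z0 1024 0 β' (st L m z0 (ak k) (ck k) α β N (S x)))).re := by
      intro x
      rw [hN, ak_Nk, ck_Nk]
      simp only [Xmap, halfX, Wave.ev, Matrix.cons_val_zero, Matrix.cons_val_one, Matrix.cons_val]
      set X := st L m z0 (ak k) (ck k) α β (Nk k) (S x)
      have h7 : ∀ (v t : ℝ), (e (-α') * ((v : ℂ) * e t)).re = v * Real.cos (2 * Real.pi * (t - α')) := by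
        intro v t
        rw [mul_left_comm, ← e_add, Complex.re_ofReal_mul, e, Complex.exp_ofReal_mul_I_re]
        congr 3
        ring
      rw [h7]
      rw [← Real.cos_neg]
      congr 1
      · ring
      · congr 1
        push_cast
        field_simp
        ring
    simp only [hcos]
    have hint : Integrable (fun x => e (-α') * (⟨1, 0, 0, 0, 1, 0⟩ : Wave).ev L z0
          (halfX L z0 1024 0 β' (st L m z0 (ak k) (ck k) α β N (S x)))) P := by
      apply Integrable.const_mul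
      obtain ⟨hm, B, hB⟩ := hS'.halfX L z0 1024 0 β'
      have hm2 : Measurable fun x => (⟨1, 0, 0, 0, 1, 0⟩ : Wave).ev L z0
          (halfX L z0 1024 0 β' (st L m z0 (ak k) (ck k) α β N (S x))) :=
        ((⟨1, 0, 0, 0, 1, 0⟩ : Wave).continuous_ev L z0).measurable.comp hm
      refine Integrable.of_bound (C := B * (|(0 : ℝ)| + |(1 : ℝ)| + |(0 : ℝ)|))
        hm2.aestronglyMeasurable ?_
      filter_upwards with x
      exact Wave.norm_ev_le ⟨1, 0, 0, 0, 1, 0⟩ (hB x)
    have h8 : ∫ x, (e (-α') * (⟨1, 0, 0, 0, 1, 0⟩ : Wave).ev L z0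
          (halfX L z0 1024 0 β' (st L m z0 (ak k) (ck k) α β N (S x)))).re ∂P = ‖J‖ := by
      have h9 := integral_re hint
      rw [integral_const_mul, ← hJ, h3] at h9
      simpa using h9
    rw [h8]
    linarith

end Pool.Agent.Lib_helper43.Dyn
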