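import Mathlib
import Pool.Agent.Lib_helper43.Dyn.IdealFlux

set_option autoImplicit false

/-! # Comparison of the true flow and the ideal flow -/

namespace Pool.Agent.Lib_helper43.Dyn

open MeasureTheory Filter Topology Set

/-- Time-one horizontal shear. -/
noncomputable def sX (F : ℝ → ℝ → ℝ) (x : R3) : R3 := ![x 0 + 1 * F (x 1) (x 2), x 1, x 2]

/-- Time-one shear in the second direction. -/
noncomputable def sY (G : ℝ → ℝ → ℝ) (x : R3) : R3 := ![x 0, x 1 + 1 * G (x 0) (x 2), x 2]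

/-- The first component of the ideal state does not depend on the vector. -/
lemma st_fst (L m z0 : ℝ) (a c α β : ℕ → ℝ) (p : ℕ) (x v v' : R3) :
    (st L m z0 a c α β p (x, v)).1 = (st L m z0 a c α β p (x, v')).1 := by
  induction p with
  | zero => rfl
  | succ p ih =>
    simp only [st, halfY, halfX, Matrix.cons_val_zero, Matrix.cons_val_one, Matrix.cons_val]
    rw [ih]

lemma st_two (L m z0 : ℝ) (a c α β : ℕ → ℝ) (p : ℕ) (S : R3 × R3) :
    (st L m z0 a c α β p S).1 2 = S.1 2 := by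
  induction p with
  | zero => rfl
  | succ p ih => simpa [st, halfY, halfX] using ih

lemma st_snd_zero (L m z0 : ℝ) (a c α β : ℕ → ℝ) (p : ℕ) (x : R3) :
    (st L m z0 a c α β p (x, 0)).2 = 0 := by
  induction p with
  | zero => rfl
  | succ p ih =>
    simp only [st, halfY, halfX, Matrix.cons_val_zero, Matrix.cons_val_one, Matrix.cons_val, ih]
    ext i
    fin_cases i <;> simp

lemma st_drift {L m z0 : ℝ} (hL : 0 < L) (a c α β : ℕ → ℝ) (p : ℕ) (S : R3 × R3) :
    |(st L m z0 a c α β p S).1 1 - (S.1 1 + p / m)| ≤ p / L := by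
  induction p with
  | zero => simp [st]
  | succ p ih =>
    rw [st_succ hL.ne']
    simp only [Ymap, Xmap, Matrix.cons_val_zero, Matrix.cons_val_one, Matrix.cons_val]
    set X := (st L m z0 a c α β p S).1
    set W := w (L * (X 0 + ((a p * w (L * X 1 + β p) + α p) / L + c p * (X 2 - z0))))
    have h1 : |W / L| ≤ 1 / L := by
      rw [abs_div, abs_of_pos hL]
      gcongr
      exact abs_w_le _
    calc |X 1 + (W / L + 1 / m) - (S.1 1 + ((p + 1 : ℕ) : ℝ) / m)|
        = |(X 1 - (S.1 1 + p / m)) + W / L| := by push_cast; congr 1; ring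
      _ ≤ |X 1 - (S.1 1 + p / m)| + |W / L| := abs_add_le _ _
      _ ≤ p / L + 1 / L := add_le_add ih h1
      _ = _ := by push_cast; ring

lemma hasDerivAt_Xmap {L z0 a c α β : ℝ} (hL : L ≠ 0) {γ : ℝ → R3} {V : R3}
    (hγ : HasDerivAt γ V 0) :
    HasDerivAt (fun t => (Xmap L z0 a c α β (γ t, 0)).1) (Xmap L z0 a c α β (γ 0, V)).2 0 := by
  rw [hasDerivAt_pi] at hγ ⊢
  intro i
  fin_cases i
  · simp only [Xmap, Fin.zero_eta, Matrix.cons_val_zero]
    have h1 : HasDerivAt (fun t => L * γ t 1 + β) (L * V 1) 0 := ((hγ 1).const_mul L).add_const β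
    have h2 : HasDerivAt (fun t => w (L * γ t 1 + β)) (dw (L * γ 0 1 + β) * (L * V 1)) 0 :=
      HasDerivAt.comp (h₂ := w) 0 (hasDerivAt_w _) h1
    have h3 := (hγ 0).add (((((h2.const_mul a).add_const α).div_const L)).add
      (((hγ 2).sub_const z0).const_mul c))
    have h4 : V 0 + a * dw (L * γ 0 1 + β) * V 1 + c * V 2 =
        V 0 + (a * (dw (L * γ 0 1 + β) * (L * V 1)) / L + c * V 2) := by
      field_simp
      ring
    rw [h4]
    exact h3
  · simpa [Xmap] using hγ 1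
  · simpa [Xmap] using hγ 2

lemma hasDerivAt_Ymap {L m : ℝ} (hL : L ≠ 0) {γ : ℝ → R3} {V : R3}
    (hγ : HasDerivAt γ V 0) :
    HasDerivAt (fun t => (Ymap L m (γ t, 0)).1) (Ymap L m (γ 0, V)).2 0 := by
  rw [hasDerivAt_pi] at hγ ⊢
  intro i
  fin_cases i
  · simpa [Ymap] using hγ 0
  · simp only [Ymap, Fin.mk_one, Matrix.cons_val_zero, Matrix.cons_val_one]
    have h1 : HasDerivAt (fun t => L * γ t 0) (L * V 0) 0 := (hγ 0).const_mul L
    have h2 : HasDerivAt (fun t => w (L * γ t 0)) (dw (L * γ 0 0) * (L * V 0)) 0 :=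
      HasDerivAt.comp (h₂ := w) 0 (hasDerivAt_w _) h1
    have h3 := (hγ 1).add ((h2.div_const L).add_const (1 / m))
    have h4 : V 1 + dw (L * γ 0 0) * V 0 = V 1 + dw (L * γ 0 0) * (L * V 0) / L := by
      field_simp
    rw [h4]
    exact h3
  · simpa [Ymap] using hγ 2

lemma Xmap_fst (L z0 a c α β : ℝ) (x v v' : R3) :
    (Xmap L z0 a c α β (x, v)).1 = (Xmap L z0 a c α β (x, v')).1 := rfl

lemma Ymap_fst (L m : ℝ) (x v v' : R3) :
    (Ymap L m (x, v)).1 = (Ymap L m (x, v')).1 := rfl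

lemma differentiable_Xmap (L z0 a c α β : ℝ) :
    Differentiable ℝ fun x : R3 => (Xmap L z0 a c α β (x, 0)).1 := by
  have hw := w_differentiable
  rw [differentiable_pi]
  intro i
  fin_cases i <;> simp [Xmap] <;> fun_prop

lemma differentiable_Ymap (L m : ℝ) :
    Differentiable ℝ fun x : R3 => (Ymap L m (x, 0)).1 := by
  have hw := w_differentiable
  rw [differentiable_pi]
  intro i
  fin_cases i <;> simp [Ymap] <;> fun_prop

/-- The ideal flow map. -/
noncomputable def idl (L m z0 : ℝ) (a c α β : ℕ → ℝ) (p : ℕ) (x : R3) : R3 :=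
  (Xmap L z0 (a p) (c p) (α p) (β p) (st L m z0 a c α β p (x, 0))).1

lemma st_succ_fst {L m z0 : ℝ} (hL : L ≠ 0) (a c α β : ℕ → ℝ) (p : ℕ) (x : R3) :
    (st L m z0 a c α β (p + 1) (x, 0)).1 = (Ymap L m (idl L m z0 a c α β p x, 0)).1 := by
  rw [st_succ hL]
  rfl

lemma idl_eq (L m z0 : ℝ) (a c α β : ℕ → ℝ) (p : ℕ) (x : R3) :
    idl L m z0 a c α β p x = (Xmap L z0 (a p) (c p) (α p) (β p)
      ((st L m z0 a c α β p (x, 0)).1, 0)).1 := rfl

lemma differentiable_st_idl {L m z0 : ℝ} (hL : L ≠ 0) (a c α β : ℕ → ℝ) (p : ℕ) :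
    Differentiable ℝ (fun x => (st L m z0 a c α β p (x, 0)).1) ∧
      Differentiable ℝ (idl L m z0 a c α β p) := by
  induction p with
  | zero =>
    refine ⟨differentiable_id, ?_⟩
    exact (differentiable_Xmap L z0 (a 0) (c 0) (α 0) (β 0)).comp
      (g := fun x : R3 => (Xmap L z0 (a 0) (c 0) (α 0) (β 0) (x, 0)).1) differentiable_id
  | succ p ih =>
    have h1 : Differentiable ℝ (fun x => (st L m z0 a c α β (p + 1) (x, 0)).1) := by
      have h2 := (differentiable_Ymap L m).comp ih.2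
      have h3 : (fun x => (st L m z0 a c α β (p + 1) (x, 0)).1) =
          (fun x : R3 => (Ymap L m (x, 0)).1) ∘ idl L m z0 a c α β p := by
        funext x
        exact st_succ_fst hL a c α β p x
      rw [h3]
      exact h2
    refine ⟨h1, ?_⟩
    have h2 := (differentiable_Xmap L z0 (a (p + 1)) (c (p + 1)) (α (p + 1)) (β (p + 1))).comp h1
    exact h2

lemma hasDerivAt_st_idl {L m z0 : ℝ} (hL : L ≠ 0) (a c α β : ℕ → ℝ) (p : ℕ) (x v : R3) :
    HasDerivAt (fun t : ℝ => (st L m z0 a c α β p (x + t • v, 0)).1)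
      (st L m z0 a c α β p (x, v)).2 0 ∧
    HasDerivAt (fun t : ℝ => idl L m z0 a c α β p (x + t • v))
      (Xmap L z0 (a p) (c p) (α p) (β p) (st L m z0 a c α β p (x, v))).2 0 := by
  have hX : ∀ p, HasDerivAt (fun t : ℝ => (st L m z0 a c α β p (x + t • v, 0)).1)
      (st L m z0 a c α β p (x, v)).2 0 →
      HasDerivAt (fun t : ℝ => idl L m z0 a c α β p (x + t • v))
      (Xmap L z0 (a p) (c p) (α p) (β p) (st L m z0 a c α β p (x, v))).2 0 := by
    intro p hp
    have h1 := hasDerivAt_Xmap (z0 := z0) (a := a p) (c := c p) (α := α p) (β := β p) hL hp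
    have h2 : ((st L m z0 a c α β p (x + (0 : ℝ) • v, 0)).1,
        (st L m z0 a c α β p (x, v)).2) = st L m z0 a c α β p (x, v) := by
      rw [zero_smul, add_zero, st_fst L m z0 a c α β p x 0 v]
    rw [h2] at h1
    exact h1
  induction p with
  | zero =>
    have h0 : HasDerivAt (fun t : ℝ => (st L m z0 a c α β 0 (x + t • v, 0)).1)
      (st L m z0 a c α β 0 (x, v)).2 0 := by
      simp only [st]
      have := ((hasDerivAt_id (0 : ℝ)).smul_const v).const_add x
      simpa using this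
    exact ⟨h0, hX 0 h0⟩
  | succ p ih =>
    have h1 : HasDerivAt (fun t : ℝ => (st L m z0 a c α β (p + 1) (x + t • v, 0)).1)
      (st L m z0 a c α β (p + 1) (x, v)).2 0 := by
      have h2 := hasDerivAt_Ymap (m := m) hL ih.2
      have h3 : (idl L m z0 a c α β p (x + (0 : ℝ) • v),
          (Xmap L z0 (a p) (c p) (α p) (β p) (st L m z0 a c α β p (x, v))).2) =
          Xmap L z0 (a p) (c p) (α p) (β p) (st L m z0 a c α β p (x, v)) := by
        rw [zero_smul, add_zero, idl_eq, st_fst L m z0 a c α β p x 0 v]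
        rfl
      rw [h3] at h2
      rw [st_succ hL]
      have h4 : (fun t : ℝ => (st L m z0 a c α β (p + 1) (x + t • v, 0)).1) =
          fun t : ℝ => (Ymap L m (idl L m z0 a c α β p (x + t • v), 0)).1 := by
        funext t
        exact st_succ_fst hL a c α β p _
      rw [h4]
      exact h2
    exact ⟨h1, hX _ h1⟩

lemma fderiv_idl {L m z0 : ℝ} (hL : L ≠ 0) (a c α β : ℕ → ℝ) (p : ℕ) (x v : R3) :
    fderiv ℝ (idl L m z0 a c α β p) x v =
      (Xmap L z0 (a p) (c p) (α p) (β p) (st L m z0 a c α β p (x, v))).2 := by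
  have h1 : HasDerivAt (fun t : ℝ => x + t • v) v 0 := by
    have := ((hasDerivAt_id (0 : ℝ)).smul_const v).const_add x
    simpa using this
  have h2 : HasFDerivAt (idl L m z0 a c α β p) (fderiv ℝ (idl L m z0 a c α β p) x)
      (x + (0 : ℝ) • v) := by
    rw [zero_smul, add_zero]
    exact ((differentiable_st_idl hL a c α β p).2 x).hasFDerivAt
  have h3 : HasDerivAt (fun t : ℝ => idl L m z0 a c α β p (x + t • v))
      (fderiv ℝ (idl L m z0 a c α β p) x v) 0 :=
    HasFDerivAt.comp_hasDerivAt (f := fun t : ℝ => x + t • v) 0 h2 h1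
  exact h3.unique (hasDerivAt_st_idl hL a c α β p x v).2

/-- The good region of a slab. -/
def good (m z0 : ℝ) : Set R3 :=
  {x | |x 1 - 1 / 2 / m| < 1 / (8 * m) ∧ |x 2 - z0| < 1 / (2 * m)}

lemma isOpen_good (m z0 : ℝ) : IsOpen (good m z0) := by
  have h1 : IsOpen {x : R3 | |x 1 - 1 / 2 / m| < 1 / (8 * m)} :=
    isOpen_lt (by fun_prop) (by fun_prop)
  have h2 : IsOpen {x : R3 | |x 2 - z0| < 1 / (2 * m)} :=
    isOpen_lt (by fun_prop) (by fun_prop)
  exact h1.inter h2

lemma iterate_eq {L m z0 : ℝ} (hL : 0 < L) (hm : 0 < m) {N : ℕ} (hN : 8 * m * N ≤ L)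
    {a c α β : ℕ → ℝ} {F G : ℝ → ℝ → ℝ}
    (hF : ∀ p, p ≤ N → ∀ y z : ℝ, |y - ((p : ℝ) + 1 / 2) / m| ≤ 1 / (4 * m) →
      |z - z0| ≤ 1 / (2 * m) → F y z = (a p * w (L * y + β p) + α p) / L + c p * (z - z0))
    (hG : ∀ x z : ℝ, |z - z0| ≤ 1 / (2 * m) → G x z = w (L * x) / L + 1 / m)
    {x : R3} (hx : x ∈ good m z0) {p : ℕ} (hp : p ≤ N) :
    (fun y => sY G (sX F y))^[p] x = (st L m z0 a c α β p (x, 0)).1 ∧
      sX F ((fun y => sY G (sX F y))^[p] x) = idl L m z0 a c α β p x := by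
  have hX : ∀ p ≤ N, (fun y => sY G (sX F y))^[p] x = (st L m z0 a c α β p (x, 0)).1 →
      sX F ((fun y => sY G (sX F y))^[p] x) = idl L m z0 a c α β p x := by
    intro p hp h
    rw [h, idl_eq, sX]
    simp only [Xmap]
    set X := (st L m z0 a c α β p (x, 0)).1 with hXdef
    have h2 : X 2 = x 2 := st_two _ _ _ _ _ _ _ _ _
    have h1 : |X 1 - ((p : ℝ) + 1 / 2) / m| ≤ 1 / (4 * m) := by
      have h3 := st_drift (m := m) (z0 := z0) hL a c α β p (x, 0)
      rw [← hXdef] at h3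
      have h4 := hx.1
      have h5 : (p : ℝ) / L ≤ 1 / (8 * m) := by
        rw [div_le_div_iff₀ hL (by positivity)]
        have : (p : ℝ) ≤ N := by exact_mod_cast hp
        nlinarith
      have h6 : X 1 - ((p : ℝ) + 1 / 2) / m = (X 1 - (x 1 + p / m)) + (x 1 - 1 / 2 / m) := by
        field_simp
        ring
      rw [h6]
      refine (abs_add_le _ _).trans ?_
      have h7 : 1 / (4 * m) = 1 / (8 * m) + 1 / (8 * m) := by field_simp; norm_num
      rw [h7]
      simp only at h3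
      linarith
    rw [hF p hp (X 1) (X 2) h1 (by rw [h2]; exact hx.2.le), one_mul]
  induction p with
  | zero => exact ⟨rfl, hX 0 (Nat.zero_le _) rfl⟩
  | succ p ih =>
    have ih' := ih (by omega)
    have h1 : (fun y => sY G (sX F y))^[p + 1] x = (st L m z0 a c α β (p + 1) (x, 0)).1 := by
      rw [Function.iterate_succ_apply', ih'.2, st_succ_fst hL.ne', sY]
      simp only [Ymap]
      have h2 : idl L m z0 a c α β p x 2 = x 2 := by
        rw [idl_eq]
        simp only [Xmap, Matrix.cons_val]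
        exact st_two _ _ _ _ _ _ _ _ _
      rw [hG _ _ (by rw [h2]; exact hx.2.le), one_mul]
    exact ⟨h1, hX _ hp h1⟩

lemma fderiv_real {L m z0 : ℝ} (hL : 0 < L) (hm : 0 < m) {N : ℕ} (hN : 8 * m * N ≤ L)
    {a c α β : ℕ → ℝ} {F G : ℝ → ℝ → ℝ}
    (hF : ∀ p, p ≤ N → ∀ y z : ℝ, |y - ((p : ℝ) + 1 / 2) / m| ≤ 1 / (4 * m) →
      |z - z0| ≤ 1 / (2 * m) → F y z = (a p * w (L * y + β p) + α p) / L + c p * (z - z0))
    (hG : ∀ x z : ℝ, |z - z0| ≤ 1 / (2 * m) → G x z = w (L * x) / L + 1 / m)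
    {x : R3} (hx : x ∈ good m z0) (v : R3) {Ψ : R3 → R3}
    (hΨ : ∀ y, Ψ y = sX F ((fun y => sY G (sX F y))^[N] y)) :
    Ψ x = (Xmap L z0 (a N) (c N) (α N) (β N) (st L m z0 a c α β N (x, v))).1 ∧
    fderiv ℝ Ψ x v = (Xmap L z0 (a N) (c N) (α N) (β N) (st L m z0 a c α β N (x, v))).2 := by
  have h1 : ∀ y ∈ good m z0, Ψ y = idl L m z0 a c α β N y := fun y hy => by
    rw [hΨ]; exact (iterate_eq hL hm hN hF hG hy le_rfl).2
  constructor
  · rw [h1 x hx, idl_eq, st_fst L m z0 a c α β N x 0 v]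
    rfl
  · have h2 : Ψ =ᶠ[𝓝 x] idl L m z0 a c α β N := by
      filter_upwards [(isOpen_good m z0).mem_nhds hx] with y hy using h1 y hy
    rw [h2.fderiv_eq, fderiv_idl hL.ne']

end Pool.Agent.Lib_helper43.Dyn
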