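import Mathlib
import Pool.Agent.Lib_helper43.Dyn.Bump
import Pool.Agent.Lib_helper43.Dyn.Cube
import Pool.Agent.Lib_helper43.Dyn.RealIdeal

set_option autoImplicit false

/-! # The initial fields -/

namespace Pool.Agent.Lib_helper43.Dyn

open MeasureTheory Filter Topology Set

lemma cos_period (A : ℤ) (t : ℝ) : Real.cos (2 * Real.pi * (t + A)) = Real.cos (2 * Real.pi * t) := by
  rw [show 2 * Real.pi * (t + A) = 2 * Real.pi * t + A * (2 * Real.pi) by ring,
    Real.cos_add_int_mul_two_pi]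

lemma sin_period (A : ℤ) (t : ℝ) : Real.sin (2 * Real.pi * (t + A)) = Real.sin (2 * Real.pi * t) := by
  rw [show 2 * Real.pi * (t + A) = 2 * Real.pi * t + A * (2 * Real.pi) by ring,
    Real.sin_add_int_mul_two_pi]

lemma integral_e_eq_zero {n : ℤ} (hn : n ≠ 0) (φ : ℝ) :
    ∫ x in (0 : ℝ)..1, e (-(n * x + φ)) = 0 := by
  have h1 : ∀ x : ℝ, HasDerivAt (fun x : ℝ => (-(2 * Real.pi * n * Complex.I))⁻¹ * e (-(n * x + φ)))
      (e (-(n * x + φ))) x := by
    intro x
    have h2 : HasDerivAt (fun s : ℝ => -((n : ℝ) * s + φ)) (-(n : ℝ)) x := by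
      have h5 := ((hasDerivAt_id x).const_mul (-(n : ℝ))).sub_const φ
      simp only [id, mul_one, neg_mul] at h5
      have h6 : (fun s : ℝ => -((n : ℝ) * s + φ)) = fun s : ℝ => -((n : ℝ) * s) - φ := by
        funext s; ring
      rw [h6]
      exact h5
    have h3 := (hasDerivAt_e h2).const_mul (-(2 * Real.pi * n * Complex.I))⁻¹
    have h4 : (-(2 * Real.pi * (n : ℂ) * Complex.I)) ≠ 0 := by
      simp [Real.pi_ne_zero, hn]
    have h5 : (-(2 * Real.pi * (n : ℂ) * Complex.I))⁻¹ *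
        (2 * Real.pi * ((-(n : ℝ) : ℝ) : ℂ) * Complex.I * e (-(n * x + φ))) = e (-(n * x + φ)) := by
      field_simp
      push_cast
      have : (Complex.I : ℂ) ≠ 0 := Complex.I_ne_zero
      have : (n : ℂ) ≠ 0 := by exact_mod_cast hn
      have : (Real.pi : ℂ) ≠ 0 := by exact_mod_cast Real.pi_ne_zero
      field_simp
    rw [h5] at h3
    exact h3
  have hce := e_continuous
  rw [intervalIntegral.integral_eq_sub_of_hasDerivAt (fun x _ => h1 x)
    (Continuous.intervalIntegrable (by fun_prop) _ _)]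
  have h2 : -((n : ℝ) * 1 + φ) = -((n : ℝ) * 0 + φ) + ((-n : ℤ) : ℝ) := by push_cast; ring
  rw [h2, e_add_int, sub_self]

lemma cos_eq_e (t : ℝ) : ((Real.cos (2 * Real.pi * t) : ℝ) : ℂ) = (e t + e (-t)) / 2 := by
  unfold e
  rw [Complex.ofReal_cos, Complex.cos]
  congr 3
  · congr 1
    push_cast
    ring

lemma integral_cos_e {A : ℤ} (hA : A ≠ 0) (φ : ℝ) :
    ∫ x in (0 : ℝ)..1, ((Real.cos (2 * Real.pi * (A * x + φ)) : ℝ) : ℂ) * e (-(A * x + φ)) = 1 / 2 := by
  have h1 : ∀ x : ℝ, ((Real.cos (2 * Real.pi * (A * x + φ)) : ℝ) : ℂ) * e (-(A * x + φ)) =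
      1 / 2 + 1 / 2 * e (-(((2 * A : ℤ) : ℝ) * x + 2 * φ)) := by
    intro x
    rw [cos_eq_e]
    have h2 : e (A * x + φ) * e (-(A * x + φ)) = 1 := by rw [mul_comm, e_neg_mul_self]
    have h3 : e (-(A * x + φ)) * e (-(A * x + φ)) = e (-(((2 * A : ℤ) : ℝ) * x + 2 * φ)) := by
      rw [← e_add]; congr 1; push_cast; ring
    rw [← h3]
    linear_combination (1 / 2) * h2
  have hce := e_continuous
  simp only [h1]
  rw [intervalIntegral.integral_add (by simp) (Continuous.intervalIntegrable (by fun_prop) _ _),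
    intervalIntegral.integral_const_mul, integral_e_eq_zero (by omega)]
  simp

lemma integral_cos_sin {A : ℤ} (hA : A ≠ 0) (k : ℤ) (φ ψ : ℝ) :
    ∫ x in (0 : ℝ)..1, ((Real.cos (2 * Real.pi * (A * x + φ)) : ℝ) : ℂ) * e (-(k * x + ψ)) =
    2 * Real.pi * k * Complex.I * ∫ x in (0 : ℝ)..1,
      ((Real.sin (2 * Real.pi * (A * x + φ)) / (2 * Real.pi * A) : ℝ) : ℂ) * e (-(k * x + ψ)) := by
  have hA' : (A : ℝ) ≠ 0 := by exact_mod_cast hA
  have h1 : ∀ x : ℝ, HasDerivAt (fun x : ℝ =>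
      ((Real.sin (2 * Real.pi * (A * x + φ)) / (2 * Real.pi * A) : ℝ) : ℂ) * e (-(k * x + ψ)))
      (((Real.cos (2 * Real.pi * (A * x + φ)) : ℝ) : ℂ) * e (-(k * x + ψ)) +
        ((Real.sin (2 * Real.pi * (A * x + φ)) / (2 * Real.pi * A) : ℝ) : ℂ) *
          (2 * Real.pi * ((-(k : ℝ) : ℝ) : ℂ) * Complex.I * e (-(k * x + ψ)))) x := by
    intro x
    have h2 : HasDerivAt (fun s : ℝ => -((k : ℝ) * s + ψ)) (-(k : ℝ)) x := by
      have h5 := ((hasDerivAt_id x).const_mul (-(k : ℝ))).sub_const ψ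
      simp only [id, mul_one, neg_mul] at h5
      have h6 : (fun s : ℝ => -((k : ℝ) * s + ψ)) = fun s : ℝ => -((k : ℝ) * s) - ψ := by
        funext s; ring
      rw [h6]
      exact h5
    have h3 : HasDerivAt (fun s : ℝ => 2 * Real.pi * (A * s + φ)) (2 * Real.pi * A) x := by
      have h5 := (((hasDerivAt_id x).const_mul (A : ℝ)).add_const φ).const_mul (2 * Real.pi)
      simp only [id, mul_one] at h5
      exact h5
    have h4 := (h3.sin.div_const (2 * Real.pi * A)).ofReal_comp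
    have h5 : Real.cos (2 * Real.pi * (A * x + φ)) * (2 * Real.pi * A) / (2 * Real.pi * A) =
        Real.cos (2 * Real.pi * (A * x + φ)) := by
      have := Real.pi_ne_zero
      field_simp
    rw [h5] at h4
    exact h4.mul (hasDerivAt_e h2)
  have hce := e_continuous
  have i1 : IntervalIntegrable (fun x : ℝ =>
      ((Real.cos (2 * Real.pi * (A * x + φ)) : ℝ) : ℂ) * e (-(k * x + ψ))) volume 0 1 :=
    Continuous.intervalIntegrable (by fun_prop) _ _
  have i2 : IntervalIntegrable (fun x : ℝ =>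
      ((Real.sin (2 * Real.pi * (A * x + φ)) / (2 * Real.pi * A) : ℝ) : ℂ) *
          (2 * Real.pi * ((-(k : ℝ) : ℝ) : ℂ) * Complex.I * e (-(k * x + ψ)))) volume 0 1 :=
    Continuous.intervalIntegrable (by fun_prop) _ _
  have h2 := intervalIntegral.integral_eq_sub_of_hasDerivAt (fun s _ => h1 s) (i1.add i2)
  rw [intervalIntegral.integral_add i1 i2] at h2
  have h3 : Real.sin (2 * Real.pi * (A * 1 + φ)) = Real.sin (2 * Real.pi * (A * 0 + φ)) := by
    rw [show (A : ℝ) * 1 + φ = (A * 0 + φ) + A by ring, sin_period]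
  have h4 : e (-((k : ℝ) * 1 + ψ)) = e (-((k : ℝ) * 0 + ψ)) := by
    rw [show -((k : ℝ) * 1 + ψ) = -((k : ℝ) * 0 + ψ) + ((-k : ℤ) : ℝ) by push_cast; ring, e_add_int]
  rw [h3, h4, sub_self] at h2
  have h5 : ∫ x in (0 : ℝ)..1,
      ((Real.sin (2 * Real.pi * (A * x + φ)) / (2 * Real.pi * A) : ℝ) : ℂ) *
          (2 * Real.pi * ((-(k : ℝ) : ℝ) : ℂ) * Complex.I * e (-(k * x + ψ))) =
      -(2 * Real.pi * k * Complex.I) * ∫ x in (0 : ℝ)..1,
      ((Real.sin (2 * Real.pi * (A * x + φ)) / (2 * Real.pi * A) : ℝ) : ℂ) * e (-(k * x + ψ)) := by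
    rw [← intervalIntegral.integral_const_mul]
    apply intervalIntegral.integral_congr
    intro s _
    simp only
    push_cast
    ring
  rw [h5] at h2
  linear_combination h2

/-- The initial field. -/
noncomputable def fld (κ : ℝ) (L : ℕ) (m : ℝ) (K Q : ℤ) (x : R3) : R3 :=
  ![(-(κ * (2 * m * dbu (2 * m * Int.fract (x 2) - 6)))) * (bu (8 * m * Int.fract (x 1) - 4) *
      (Real.sin (2 * Real.pi * (L * (K * x 0 + Q * x 1))) / (2 * Real.pi * (L * K)))), 0,
    (κ * bu (2 * m * Int.fract (x 2) - 6)) * (bu (8 * m * Int.fract (x 1) - 4) *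
      Real.cos (2 * Real.pi * (L * (K * x 0 + Q * x 1))))]

lemma fld_zero (κ : ℝ) (L : ℕ) (m : ℝ) (K Q : ℤ) (x : R3) : fld κ L m K Q x 0 =
    (-(κ * (2 * m * dbu (2 * m * Int.fract (x 2) - 6)))) * (bu (8 * m * Int.fract (x 1) - 4) *
      (Real.sin (2 * Real.pi * (L * (K * x 0 + Q * x 1))) / (2 * Real.pi * (L * K)))) := rfl

lemma fld_one (κ : ℝ) (L : ℕ) (m : ℝ) (K Q : ℤ) (x : R3) : fld κ L m K Q x 1 = 0 := rfl

lemma fld_two (κ : ℝ) (L : ℕ) (m : ℝ) (K Q : ℤ) (x : R3) : fld κ L m K Q x 2 =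
    (κ * bu (2 * m * Int.fract (x 2) - 6)) * (bu (8 * m * Int.fract (x 1) - 4) *
      Real.cos (2 * Real.pi * (L * (K * x 0 + Q * x 1)))) := rfl

lemma measurable_fld (κ : ℝ) (L : ℕ) (m : ℝ) (K Q : ℤ) : Measurable (fld κ L m K Q) := by
  have h1 := bu_continuous.measurable
  have h2 := dbu_continuous.measurable
  rw [measurable_pi_iff]
  intro i
  fin_cases i
  · simp only [Fin.zero_eta, fld_zero]
    fun_prop
  · simp only [Fin.mk_one, fld_one]
    fun_prop
  · simp only [Fin.reduceFinMk, fld_two]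
    fun_prop

lemma fld_shift (κ : ℝ) (L : ℕ) (m : ℝ) (K Q : ℤ) {s : ℝ} {t : ℤ} (hs : (L : ℝ) * s = t) (x y : R3)
    (h0 : y 0 = x 0 + s) (h1 : y 1 = x 1) (h2 : y 2 = x 2) :
    fld κ L m K Q y = fld κ L m K Q x := by
  have h3 : (L : ℝ) * (K * y 0 + Q * y 1) = L * (K * x 0 + Q * x 1) + ((K * t : ℤ) : ℝ) := by
    rw [h0, h1]; push_cast; rw [← hs]; ring
  ext i
  fin_cases i
  · simp only [Fin.zero_eta, fld_zero]
    rw [h3, h1, h2, sin_period]
  · rfl
  · simp only [Fin.reduceFinMk, fld_two]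
    rw [h3, h1, h2, cos_period]

lemma periodic_fld (κ : ℝ) (L : ℕ) (m : ℝ) (K Q : ℤ) : Periodic3 (fld κ L m K Q) := by
  intro x k
  have h3 : (L : ℝ) * (K * (x 0 + k 0) + Q * (x 1 + k 1)) =
      L * (K * x 0 + Q * x 1) + ((L * (K * k 0 + Q * k 1) : ℤ) : ℝ) := by
    push_cast; ring
  ext i
  fin_cases i
  · simp only [Fin.zero_eta, fld_zero]
    rw [h3, sin_period, Int.fract_add_intCast, Int.fract_add_intCast]
  · rfl
  · simp only [Fin.reduceFinMk, fld_two]
    rw [h3, cos_period, Int.fract_add_intCast, Int.fract_add_intCast]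

lemma fld_support {κ : ℝ} {L : ℕ} {m : ℝ} (hm : 0 < m) {K Q : ℤ} {x : R3} (hx : x ∈ cube)
    (h : fld κ L m K Q x ≠ 0) : x ∈ good m (3 / m) := by
  have hf1 : Int.fract (x 1) = x 1 := Int.fract_eq_self.mpr (hx 1)
  have hf2 : Int.fract (x 2) = x 2 := Int.fract_eq_self.mpr (hx 2)
  by_contra hcon
  apply h
  have key : 1 ≤ |8 * m * x 1 - 4| ∨ 1 ≤ |2 * m * x 2 - 6| := by
    by_contra hc
    push Not at hc
    apply hcon
    constructor
    · have : x 1 - 1 / 2 / m = (8 * m * x 1 - 4) / (8 * m) := by field_simp; ring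
      rw [this, abs_div, abs_of_pos (by positivity : 0 < 8 * m)]
      gcongr
      exact hc.1
    · have : x 2 - 3 / m = (2 * m * x 2 - 6) / (2 * m) := by field_simp; ring
      rw [this, abs_div, abs_of_pos (by positivity : 0 < 2 * m)]
      gcongr
      exact hc.2
  ext i
  rcases key with h1 | h1
  · fin_cases i
    · simp only [Fin.zero_eta, fld_zero, hf1, bu_zero h1]
      simp
    · rfl
    · simp only [Fin.reduceFinMk, fld_two, hf1, bu_zero h1]
      simp
  · fin_cases i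
    · simp only [Fin.zero_eta, fld_zero, hf2, dbu_zero h1]
      simp
    · rfl
    · simp only [Fin.reduceFinMk, fld_two, hf2, bu_zero h1]
      simp

/-- Normalising constant. -/
noncomputable def κ0 : ℝ := 1 / (1 + Db)

lemma κ0_pos : 0 < κ0 := by unfold κ0; have := Db_nonneg; positivity

lemma fld_bound {L : ℕ} {m : ℝ} (hm : 0 < m) (hL : m ≤ L) {K : ℤ} (hK : 0 < K) (Q : ℤ) (x : R3) :
    |fld κ0 L m K Q x 0| ≤ κ0 * Db ∧ |fld κ0 L m K Q x 2| ≤ κ0 := by
  have hK' : (1 : ℝ) ≤ K := by exact_mod_cast hK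
  have hκ := κ0_pos
  have hb := bu_nonneg (8 * m * Int.fract (x 1) - 4)
  have hb' := bu_le_one (8 * m * Int.fract (x 1) - 4)
  have hc := bu_nonneg (2 * m * Int.fract (x 2) - 6)
  have hc' := bu_le_one (2 * m * Int.fract (x 2) - 6)
  constructor
  · rw [fld_zero, abs_mul, abs_mul, abs_neg, abs_mul, abs_mul, abs_div, abs_of_pos hκ,
      abs_of_nonneg hb]
    have h1 := abs_dbu_le (2 * m * Int.fract (x 2) - 6)
    have h2 := Real.abs_sin_le_one (2 * Real.pi * (L * (K * x 0 + Q * x 1)))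
    have h3 : |2 * Real.pi * ((L : ℝ) * K)| = 2 * Real.pi * (L * K) := abs_of_nonneg (by positivity)
    have h4 : 2 * m ≤ 2 * Real.pi * (L * K) := by
      have := Real.pi_gt_three
      have h5 : m ≤ L * K := by nlinarith
      nlinarith [mul_nonneg hm.le hm.le]
    rw [h3, abs_of_pos (by positivity : 0 < 2 * m)]
    have h6 : (0 : ℝ) < 2 * Real.pi * (L * K) := by linarith
    calc κ0 * (2 * m * |dbu (2 * m * Int.fract (x 2) - 6)|) * (bu (8 * m * Int.fract (x 1) - 4) *
          (|Real.sin (2 * Real.pi * (L * (K * x 0 + Q * x 1)))| / (2 * Real.pi * (L * K))))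
        ≤ κ0 * (2 * m * Db) * (1 * (1 / (2 * Real.pi * (L * K)))) := by
          have := Db_nonneg
          gcongr
      _ = κ0 * Db * (2 * m / (2 * Real.pi * (L * K))) := by ring
      _ ≤ κ0 * Db * 1 := by
          have := Db_nonneg
          gcongr
          rw [div_le_one h6]
          exact h4
      _ = κ0 * Db := mul_one _
  · rw [fld_two, abs_mul, abs_mul, abs_mul, abs_of_pos hκ, abs_of_nonneg hb, abs_of_nonneg hc]
    have h2 := Real.abs_cos_le_one (2 * Real.pi * (L * (K * x 0 + Q * x 1)))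
    calc κ0 * bu (2 * m * Int.fract (x 2) - 6) * (bu (8 * m * Int.fract (x 1) - 4) *
          |Real.cos (2 * Real.pi * (L * (K * x 0 + Q * x 1)))|)
        ≤ κ0 * 1 * (1 * 1) := by gcongr
      _ = κ0 := by ring

lemma fld_normSq {L : ℕ} {m : ℝ} (hm : 0 < m) (hL : m ≤ L) {K : ℤ} (hK : 0 < K) (Q : ℤ) :
    normSq (fld κ0 L m K Q) ≤ 1 := by
  unfold normSq
  have h1 : ∀ x : R3, ENNReal.ofReal (∑ i, fld κ0 L m K Q x i ^ 2) ≤ 1 := by
    intro x
    obtain ⟨h2, h3⟩ := fld_bound hm hL hK Q x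
    rw [ENNReal.ofReal_le_one, Fin.sum_univ_three, fld_one]
    have h4 : fld κ0 L m K Q x 0 ^ 2 ≤ (κ0 * Db) ^ 2 := by
      rw [← sq_abs]; gcongr
    have h5 : fld κ0 L m K Q x 2 ^ 2 ≤ κ0 ^ 2 := by
      rw [← sq_abs]; gcongr
    have h6 : κ0 * (1 + Db) = 1 := by
      unfold κ0; have := Db_nonneg; field_simp
    have := Db_nonneg
    have := κ0_pos
    nlinarith [mul_nonneg (mul_nonneg this.le this.le) (Db_nonneg)]
  calc ∫⁻ x in cube, ENNReal.ofReal (∑ i, fld κ0 L m K Q x i ^ 2)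
      ≤ ∫⁻ _ in cube, 1 := lintegral_mono h1
    _ = 1 := by simp [volume_cube]

lemma isL2_fld {L : ℕ} {m : ℝ} (hm : 0 < m) (hL : m ≤ L) {K : ℤ} (hK : 0 < K) (Q : ℤ) :
    IsL2 (fld κ0 L m K Q) :=
  ⟨measurable_fld _ _ _ _ _, periodic_fld _ _ _ _ _,
    (fld_normSq hm hL hK Q).trans_lt ENNReal.one_lt_top⟩

/-- The scalar factors. -/
lemma iterated_inner {h : ℝ → ℝ → ℂ} (hc : Continuous fun p : ℝ × ℝ => h p.1 p.2) :
    ∫ p in Ico (0 : ℝ) 1 ×ˢ Ico (0 : ℝ) 1, h p.1 p.2 =
      ∫ y in (0 : ℝ)..1, ∫ x in (0 : ℝ)..1, h y x := by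
  have hi : IntegrableOn (fun p : ℝ × ℝ => h p.1 p.2) (Ico (0 : ℝ) 1 ×ˢ Ico (0 : ℝ) 1)
      (volume.prod volume) := by
    have h1 : IntegrableOn (fun p : ℝ × ℝ => h p.1 p.2) (Icc (0 : ℝ) 1 ×ˢ Icc (0 : ℝ) 1)
        (volume.prod volume) :=
      hc.continuousOn.integrableOn_compact (isCompact_Icc.prod isCompact_Icc)
    exact h1.mono_set (Set.prod_mono Ico_subset_Icc_self Ico_subset_Icc_self)
  have h2 := setIntegral_prod _ hi
  rw [intervalIntegral.integral_of_le zero_le_one, ← integral_Ico_eq_integral_Ioc]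
  refine h2.trans ?_
  apply setIntegral_congr_fun measurableSet_Ico
  intro y _
  simp only
  rw [intervalIntegral.integral_of_le zero_le_one, ← integral_Ico_eq_integral_Ioc]

lemma exp_eq_e (k : Fin 3 → ℤ) (x : R3) :
    Complex.exp (-(2 * Real.pi * Complex.I * ∑ i, (k i : ℂ) * (x i : ℂ))) =
      e (-(k 2 * x 2)) * e (-(k 0 * x 0 + k 1 * x 1)) := by
  rw [← e_add, e, Fin.sum_univ_three]
  congr 1
  push_cast
  ring

lemma divFree_fld {L : ℕ} (hL : 0 < L) {m : ℝ} (hm : 7 / 2 ≤ m) {K : ℤ} (hK : 0 < K) (Q : ℤ) :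
    DivFree (fld κ0 L m K Q) := by
  intro k
  have hm0 : 0 < m := by linarith
  have hA : (L : ℤ) * K ≠ 0 := by positivity
  -- the factors
  set Z : ℂ := ∫ z in (0 : ℝ)..1, (bu (2 * m * z - 6) : ℂ) * e (-(k 2 * z)) with hZ
  set H : ℂ := ∫ y in (0 : ℝ)..1, ∫ x in (0 : ℝ)..1, (((bu (8 * m * y - 4) *
      (Real.sin (2 * Real.pi * (L * (K * x + Q * y))) / (2 * Real.pi * (L * K))) : ℝ) : ℂ) *
      e (-(k 0 * x + k 1 * y))) with hH
  have hcb := bu_continuous
  have hcd := dbu_continuous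
  have hce := e_continuous
  have hsq : ∀ {x : R3}, x ∈ cube → Int.fract (x 1) = x 1 ∧ Int.fract (x 2) = x 2 :=
    fun hx => ⟨Int.fract_eq_self.mpr (hx 1), Int.fract_eq_self.mpr (hx 2)⟩
  have h0 : fc (fun x => fld κ0 L m K Q x 0) k =
      (-(κ0 * (2 * Real.pi * k 2 * Complex.I * Z))) * H := by
    have h1 : fc (fun x => fld κ0 L m K Q x 0) k = ∫ x in cube,
        (((-(κ0 * (2 * m * dbu (2 * m * x 2 - 6))) : ℝ) : ℂ) * e (-(k 2 * x 2))) *
        (((bu (8 * m * x 1 - 4) *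
      (Real.sin (2 * Real.pi * (L * (K * x 0 + Q * x 1))) / (2 * Real.pi * (L * K))) : ℝ) : ℂ) *
      e (-(k 0 * x 0 + k 1 * x 1))) := by
      unfold fc
      apply setIntegral_congr_fun measurableSet_cube
      intro x hx
      simp only
      rw [exp_eq_e, fld_zero, (hsq hx).1, (hsq hx).2]
      push_cast
      ring
    rw [h1, cube_integral_prod
      (fun z => ((-(κ0 * (2 * m * dbu (2 * m * z - 6))) : ℝ) : ℂ) * e (-(k 2 * z)))
      (fun y x => ((bu (8 * m * y - 4) *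
      (Real.sin (2 * Real.pi * (L * (K * x + Q * y))) / (2 * Real.pi * (L * K))) : ℝ) : ℂ) *
      e (-(k 0 * x + k 1 * y))),
      iterated_inner (h := fun y x => ((bu (8 * m * y - 4) *
      (Real.sin (2 * Real.pi * (L * (K * x + Q * y))) / (2 * Real.pi * (L * K))) : ℝ) : ℂ) *
      e (-(k 0 * x + k 1 * y))) (by fun_prop), ← hH]
    congr 1
    rw [integral_Ico_eq_integral_Ioc, ← intervalIntegral.integral_of_le zero_le_one, hZ,
      ← integral_dbu_scaled (by norm_num) (by linarith), ← intervalIntegral.integral_const_mul,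
      ← intervalIntegral.integral_neg]
    apply intervalIntegral.integral_congr
    intro z _
    simp only
    push_cast
    ring
  have h2 : fc (fun x => fld κ0 L m K Q x 2) k = (κ0 * Z) * (2 * Real.pi * k 0 * Complex.I * H) := by
    have h1 : fc (fun x => fld κ0 L m K Q x 2) k = ∫ x in cube,
        (((κ0 * bu (2 * m * x 2 - 6) : ℝ) : ℂ) * e (-(k 2 * x 2))) *
        (((bu (8 * m * x 1 - 4) *
      Real.cos (2 * Real.pi * (L * (K * x 0 + Q * x 1))) : ℝ) : ℂ) *
      e (-(k 0 * x 0 + k 1 * x 1))) := by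
      unfold fc
      apply setIntegral_congr_fun measurableSet_cube
      intro x hx
      simp only
      rw [exp_eq_e, fld_two, (hsq hx).1, (hsq hx).2]
      push_cast
      ring
    rw [h1, cube_integral_prod
      (fun z => ((κ0 * bu (2 * m * z - 6) : ℝ) : ℂ) * e (-(k 2 * z)))
      (fun y x => ((bu (8 * m * y - 4) *
      Real.cos (2 * Real.pi * (L * (K * x + Q * y))) : ℝ) : ℂ) *
      e (-(k 0 * x + k 1 * y))),
      iterated_inner (h := fun y x => ((bu (8 * m * y - 4) *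
      Real.cos (2 * Real.pi * (L * (K * x + Q * y))) : ℝ) : ℂ) *
      e (-(k 0 * x + k 1 * y))) (by fun_prop)]
    congr 1
    · rw [integral_Ico_eq_integral_Ioc, ← intervalIntegral.integral_of_le zero_le_one, hZ,
        ← intervalIntegral.integral_const_mul]
      apply intervalIntegral.integral_congr
      intro z _
      simp only
      push_cast
      ring
    · rw [hH, ← intervalIntegral.integral_const_mul]
      apply intervalIntegral.integral_congr
      intro y _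
      simp only
      have h3 := integral_cos_sin hA (k 0) (L * Q * y) (k 1 * y)
      have h4 : ∫ x in (0 : ℝ)..1, (((bu (8 * m * y - 4) *
          Real.cos (2 * Real.pi * (L * (K * x + Q * y))) : ℝ) : ℂ) *
          e (-(k 0 * x + k 1 * y))) = bu (8 * m * y - 4) * ∫ x in (0 : ℝ)..1,
          ((Real.cos (2 * Real.pi * (((L * K : ℤ) : ℝ) * x + L * Q * y)) : ℝ) : ℂ) *
            e (-(k 0 * x + k 1 * y)) := by
        rw [← intervalIntegral.integral_const_mul]
        apply intervalIntegral.integral_congr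
        intro x _
        simp only
        have : (L : ℝ) * (K * x + Q * y) = ((L * K : ℤ) : ℝ) * x + L * Q * y := by push_cast; ring
        rw [this]
        push_cast
        ring
      have h5 : ∫ x in (0 : ℝ)..1, (((bu (8 * m * y - 4) *
          (Real.sin (2 * Real.pi * (L * (K * x + Q * y))) / (2 * Real.pi * (L * K))) : ℝ) : ℂ) *
          e (-(k 0 * x + k 1 * y))) = bu (8 * m * y - 4) * ∫ x in (0 : ℝ)..1,
          ((Real.sin (2 * Real.pi * (((L * K : ℤ) : ℝ) * x + L * Q * y)) /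
            (2 * Real.pi * ((L * K : ℤ) : ℝ)) : ℝ) : ℂ) *
            e (-(k 0 * x + k 1 * y)) := by
        rw [← intervalIntegral.integral_const_mul]
        apply intervalIntegral.integral_congr
        intro x _
        simp only
        have : (L : ℝ) * (K * x + Q * y) = ((L * K : ℤ) : ℝ) * x + L * Q * y := by push_cast; ring
        rw [this]
        push_cast
        ring
      rw [h4, h5, h3]
      ring
  have h1 : fc (fun x => fld κ0 L m K Q x 1) k = 0 := by
    unfold fc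
    simp [fld_one]
  rw [Fin.sum_univ_three, h0, h1, h2]
  ring

/-- The initial value of the flux functional. -/
lemma integral_W0 {L : ℕ} (hL : 0 < L) {m : ℝ} (hm : 7 / 2 ≤ m) (k : ℕ) (z0 : ℝ) :
    ∫ x in cube, (W0 k).ev L z0 (x, fld κ0 L m (Pn (k + 1)) (Qn (k + 1)) x) =
      ((κ0 * Rn (k + 1) * cb ^ 2 / (16 * m ^ 2) : ℝ) : ℂ) := by
  have hm0 : 0 < m := by linarith
  have hPpos := Pn_pos (k + 1)
  have hA : (L : ℤ) * Pn (k + 1) ≠ 0 := by positivity
  set K := Pn (k + 1) with hK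
  set Q := Qn (k + 1) with hQ
  have hcb := bu_continuous
  have hcd := dbu_continuous
  have hce := e_continuous
  have hsq : ∀ {x : R3}, x ∈ cube → Int.fract (x 1) = x 1 ∧ Int.fract (x 2) = x 2 :=
    fun hx => ⟨Int.fract_eq_self.mpr (hx 1), Int.fract_eq_self.mpr (hx 2)⟩
  have h1 : ∫ x in cube, (W0 k).ev L z0 (x, fld κ0 L m K Q x) = ∫ x in cube,
      (((-(κ0 * (2 * m * dbu (2 * m * x 2 - 6))) : ℝ) : ℂ) *
        (((W0 k).n0 * (bu (8 * m * x 1 - 4) *
      (Real.sin (2 * Real.pi * (L * (K * x 0 + Q * x 1))) / (2 * Real.pi * (L * K)))) : ℝ) *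
      e (-(L * (K * x 0 + Q * x 1)))) +
      ((κ0 * bu (2 * m * x 2 - 6) : ℝ) : ℂ) *
        (((W0 k).n2 * (bu (8 * m * x 1 - 4) *
      Real.cos (2 * Real.pi * (L * (K * x 0 + Q * x 1)))) : ℝ) *
      e (-(L * (K * x 0 + Q * x 1))))) := by
    apply setIntegral_congr_fun measurableSet_cube
    intro x hx
    simp only [Wave.ev]
    rw [fld_zero, fld_one, fld_two, (hsq hx).1, (hsq hx).2]
    have h2 : (W0 k).κ = 0 := rfl
    have h3 : (W0 k).kx = K := rfl
    have h4 : (W0 k).ky = Q := rfl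
    rw [h2, h3, h4, zero_mul, zero_mul, add_zero, add_zero]
    push_cast
    ring
  have hint : ∀ f : R3 → ℂ, Continuous f → IntegrableOn f cube := by
    intro f hf
    have h2 : cube ⊆ Set.Icc (fun _ => (0 : ℝ)) (fun _ => 1) := by
      intro x hx
      exact ⟨fun i => (hx i).1, fun i => (hx i).2.le⟩
    exact (hf.continuousOn.integrableOn_compact isCompact_Icc).mono_set h2
  rw [h1, integral_add (hint _ (by fun_prop)) (hint _ (by fun_prop)),
    cube_integral_prod (fun z => ((-(κ0 * (2 * m * dbu (2 * m * z - 6))) : ℝ) : ℂ))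
      (fun y x => (((W0 k).n0 * (bu (8 * m * y - 4) *
      (Real.sin (2 * Real.pi * (L * (K * x + Q * y))) / (2 * Real.pi * (L * K)))) : ℝ) *
      e (-(L * (K * x + Q * y))))),
    cube_integral_prod (fun z => ((κ0 * bu (2 * m * z - 6) : ℝ) : ℂ))
      (fun y x => (((W0 k).n2 * (bu (8 * m * y - 4) *
      Real.cos (2 * Real.pi * (L * (K * x + Q * y)))) : ℝ) *
      e (-(L * (K * x + Q * y)))))]
  have h2 : ∫ z in Ico (0 : ℝ) 1, ((-(κ0 * (2 * m * dbu (2 * m * z - 6))) : ℝ) : ℂ) = 0 := by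
    rw [integral_Ico_eq_integral_Ioc, ← intervalIntegral.integral_of_le zero_le_one]
    have h3 := integral_dbu_scaled (c := 2 * m) (d := 6) (by norm_num) (by linarith) 0
    simp only [Int.cast_zero, zero_mul, neg_zero, e_zero, mul_one, mul_zero] at h3
    have h4 : ∀ z : ℝ, ((-(κ0 * (2 * m * dbu (2 * m * z - 6))) : ℝ) : ℂ) =
        (-κ0 : ℂ) * ((2 * m * dbu (2 * m * z - 6) : ℝ) : ℂ) := by
      intro z; push_cast; ring
    simp only [h4]
    rw [intervalIntegral.integral_const_mul, h3, mul_zero]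
  have h3 : ∫ z in Ico (0 : ℝ) 1, ((κ0 * bu (2 * m * z - 6) : ℝ) : ℂ) = ((κ0 * (cb / (2 * m)) : ℝ) : ℂ) := by
    rw [integral_Ico_eq_integral_Ioc, ← intervalIntegral.integral_of_le zero_le_one,
      intervalIntegral.integral_ofReal, intervalIntegral.integral_const_mul,
      integral_bu_scaled (by linarith) (by norm_num) (by linarith)]
  have h4 : ∫ p in Ico (0 : ℝ) 1 ×ˢ Ico (0 : ℝ) 1, (((W0 k).n2 * (bu (8 * m * p.1 - 4) *
      Real.cos (2 * Real.pi * (L * (K * p.2 + Q * p.1)))) : ℝ) *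
      e (-(L * (K * p.2 + Q * p.1)))) = (((W0 k).n2 * (cb / (8 * m)) / 2 : ℝ) : ℂ) := by
    rw [iterated_inner (h := fun y x => (((W0 k).n2 * (bu (8 * m * y - 4) *
      Real.cos (2 * Real.pi * (L * (K * x + Q * y)))) : ℝ) *
      e (-(L * (K * x + Q * y))))) (by fun_prop)]
    have h5 : ∀ y : ℝ, ∫ x in (0 : ℝ)..1, (((W0 k).n2 * (bu (8 * m * y - 4) *
      Real.cos (2 * Real.pi * (L * (K * x + Q * y)))) : ℝ) *
      e (-(L * (K * x + Q * y)))) = (((W0 k).n2 / 2 * bu (8 * m * y - 4) : ℝ) : ℂ) := by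
      intro y
      have h6 := integral_cos_e hA (L * Q * y)
      have h7 : ∀ x : ℝ, (((W0 k).n2 * (bu (8 * m * y - 4) *
          Real.cos (2 * Real.pi * (L * (K * x + Q * y)))) : ℝ) *
          e (-(L * (K * x + Q * y)))) = (((W0 k).n2 * bu (8 * m * y - 4) : ℝ) : ℂ) *
          (((Real.cos (2 * Real.pi * (((L * K : ℤ) : ℝ) * x + L * Q * y)) : ℝ) : ℂ) *
            e (-(((L * K : ℤ) : ℝ) * x + L * Q * y))) := by
        intro x
        have : (L : ℝ) * (K * x + Q * y) = ((L * K : ℤ) : ℝ) * x + L * Q * y := by push_cast; ring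
        rw [this]
        push_cast
        ring
      simp only [h7]
      rw [intervalIntegral.integral_const_mul, h6]
      push_cast
      ring
    simp only [h5]
    rw [intervalIntegral.integral_ofReal, intervalIntegral.integral_const_mul,
      integral_bu_scaled (by linarith) (by norm_num) (by linarith)]
    push_cast
    ring
  rw [h2, h3, h4, zero_mul, zero_add, ← Complex.ofReal_mul]
  congr 1
  simp only [W0]
  field_simp
  ring

end Pool.Agent.Lib_helper43.Dyn
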