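import Mathlib

set_option autoImplicit false

/-! # The frequencies and the test function -/

namespace Pool.Agent.Lib_helper43.Dyn

open MeasureTheory Filter Topology Set
open scoped ContDiff Nat

lemma exists_q (j : ℕ) : ∃ q, q.Prime ∧ 2 ^ (j + 6) < q ∧ q ≤ 2 ^ (j + 7) := by
  obtain ⟨q, h1, h2, h3⟩ := Nat.exists_prime_lt_and_le_two_mul (2 ^ (j + 6)) (by positivity)
  exact ⟨q, h1, h2, by rw [pow_succ]; omega⟩

/-- The primes. -/
noncomputable def qq (j : ℕ) : ℕ := (exists_q j).choose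

lemma qq_prime (j : ℕ) : (qq j).Prime := (exists_q j).choose_spec.1
lemma lt_qq (j : ℕ) : 2 ^ (j + 6) < qq j := (exists_q j).choose_spec.2.1
lemma qq_le (j : ℕ) : qq j ≤ 2 ^ (j + 7) := (exists_q j).choose_spec.2.2

lemma qq_injective {i j : ℕ} (h : qq i = qq j) : i = j := by
  have key : ∀ a b : ℕ, a < b → qq a < qq b := by
    intro a b hab
    calc qq a ≤ 2 ^ (a + 7) := qq_le a
      _ ≤ 2 ^ (b + 6) := Nat.pow_le_pow_right (by norm_num) (by omega)
      _ < qq b := lt_qq b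
  rcases lt_trichotomy i j with h1 | h1 | h1
  · exact absurd h (key _ _ h1).ne
  · exact h1
  · exact absurd h (key _ _ h1).ne'

/-- The frequencies. -/
noncomputable def LL (j : ℕ) : ℕ := 2 ^ (j + 3) * qq j

lemma LL_pos (j : ℕ) : 0 < LL j := Nat.mul_pos (by positivity) (qq_prime j).pos

lemma lt_LL (j : ℕ) : 2 ^ (2 * j + 9) < LL j := by
  unfold LL
  calc 2 ^ (2 * j + 9) = 2 ^ (j + 3) * 2 ^ (j + 6) := by rw [← pow_add]; congr 1; ring
    _ < _ := Nat.mul_lt_mul_of_pos_left (lt_qq j) (by positivity)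

lemma LL_le (j : ℕ) : LL j ≤ 2 ^ (2 * j + 10) := by
  unfold LL
  calc 2 ^ (j + 3) * qq j ≤ 2 ^ (j + 3) * 2 ^ (j + 7) := Nat.mul_le_mul_left _ (qq_le j)
    _ = _ := by rw [← pow_add]; congr 1; ring

lemma LL_not_dvd {i j : ℕ} (h : i ≠ j) : ¬ LL i ∣ LL j := by
  intro hd
  have h1 : qq i ∣ 2 ^ (j + 3) * qq j := (Dvd.intro_left _ rfl : qq i ∣ LL i).trans hd
  rcases (qq_prime i).dvd_mul.mp h1 with h2 | h2
  · have h3 := (Nat.prime_dvd_prime_iff_eq (qq_prime i) Nat.prime_two).mp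
      ((qq_prime i).dvd_of_dvd_pow h2)
    have h4 := lt_qq i
    rw [h3] at h4
    have h5 : 2 ^ 1 ≤ 2 ^ (i + 6) := Nat.pow_le_pow_right (by norm_num) (by omega)
    omega
  · exact h (qq_injective ((Nat.prime_dvd_prime_iff_eq (qq_prime i) (qq_prime j)).mp h2))

lemma iteratedDeriv_cos_mul (a : ℝ) (k : ℕ) (b : ℝ) :
    iteratedDeriv k (fun x => b * Real.cos (a * x)) =
      fun x => b * (a ^ k * Real.cos (a * x + k * (Real.pi / 2))) := by
  induction k with
  | zero => funext x; simp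
  | succ k ih =>
    rw [iteratedDeriv_succ, ih]
    funext x
    have h1 : HasDerivAt (fun x => b * (a ^ k * Real.cos (a * x + k * (Real.pi / 2))))
        (b * (a ^ k * (-Real.sin (a * x + k * (Real.pi / 2)) * (a * 1)))) x :=
      ((((hasDerivAt_id x).const_mul a).add_const _).cos.const_mul _).const_mul _
    rw [h1.deriv]
    push_cast
    rw [show a * x + ((k : ℝ) + 1) * (Real.pi / 2) = (a * x + k * (Real.pi / 2)) + Real.pi / 2 by ring,
      Real.cos_add_pi_div_two, pow_succ]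
    ring

/-- The scalar test function. -/
noncomputable def psi0 (x : ℝ) : ℝ := ∑' j : ℕ, (1 / (j ! : ℝ)) * Real.cos (2 * Real.pi * LL j * x)

lemma contDiff_psi0 : ContDiff ℝ ∞ psi0 := by
  unfold psi0
  refine contDiff_tsum (v := fun k j => (2 * Real.pi * 2 ^ 10) ^ k * ((4 ^ k : ℝ) ^ j / j !))
    (fun j => by fun_prop) (fun k _ => (Real.summable_pow_div_factorial _).mul_left _) ?_
  intro k j x _
  rw [norm_iteratedFDeriv_eq_norm_iteratedDeriv, iteratedDeriv_cos_mul]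
  rw [norm_mul, norm_mul, norm_pow]
  have h1 : ‖Real.cos (2 * Real.pi * LL j * x + k * (Real.pi / 2))‖ ≤ 1 := Real.abs_cos_le_one _
  have h2 : ‖2 * Real.pi * (LL j : ℝ)‖ ≤ 2 * Real.pi * 2 ^ 10 * 4 ^ j := by
    rw [Real.norm_eq_abs, abs_of_nonneg (by positivity)]
    have h3 : (LL j : ℝ) ≤ 2 ^ 10 * 4 ^ j := by
      have h4 : (LL j : ℝ) ≤ (2 ^ (2 * j + 10) : ℕ) := by exact_mod_cast LL_le j
      refine h4.trans (le_of_eq ?_)
      push_cast
      rw [pow_add, pow_mul]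
      norm_num
      ring
    have := Real.pi_pos
    nlinarith
  have h5 : ‖1 / (j ! : ℝ)‖ = 1 / (j ! : ℝ) := by
    rw [Real.norm_eq_abs, abs_of_nonneg (by positivity)]
  rw [h5]
  calc 1 / (j ! : ℝ) * (‖2 * Real.pi * (LL j : ℝ)‖ ^ k *
        ‖Real.cos (2 * Real.pi * LL j * x + k * (Real.pi / 2))‖)
      ≤ 1 / (j ! : ℝ) * ((2 * Real.pi * 2 ^ 10 * 4 ^ j) ^ k * 1) := by gcongr
    _ = (2 * Real.pi * 2 ^ 10) ^ k * ((4 ^ k : ℝ) ^ j / j !) := by
        rw [mul_pow _ ((4 : ℝ) ^ j), ← pow_mul, ← pow_mul, mul_comm j k]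
        ring

lemma summable_psi0 : Summable fun j : ℕ => 1 / (j ! : ℝ) := by
  have := Real.summable_pow_div_factorial 1
  simpa using this

lemma psi0_periodic (x : ℝ) (n : ℤ) : psi0 (x + n) = psi0 x := by
  unfold psi0
  apply tsum_congr
  intro j
  congr 1
  have : 2 * Real.pi * (LL j : ℝ) * (x + n) = 2 * Real.pi * LL j * x + ((LL j : ℤ) * n : ℤ) * (2 * Real.pi) := by
    push_cast; ring
  rw [this, Real.cos_add_int_mul_two_pi]

end Pool.Agent.Lib_helper43.Dyn
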