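import Mathlib
import Pool.Agent.Lib_helper43.Dyn.Field
import Pool.Agent.Lib_helper43.Dyn.Psi

set_option autoImplicit false

/-! # Orthogonality of the frequencies -/

namespace Pool.Agent.Lib_helper43.Dyn

open MeasureTheory Filter Topology Set

/-- Shift of a state in the first direction. -/
noncomputable def shf (s : ℝ) (S : R3 × R3) : R3 × R3 := (![S.1 0 + s, S.1 1, S.1 2], S.2)

lemma Xmap_shf (L z0 a c α β s : ℝ) (S : R3 × R3) :
    Xmap L z0 a c α β (shf s S) = shf s (Xmap L z0 a c α β S) := by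
  simp only [Xmap, shf, Matrix.cons_val_zero, Matrix.cons_val_one, Matrix.cons_val]
  rw [add_right_comm]

lemma Ymap_shf {L m s : ℝ} {t : ℤ} (hs : L * s = t) (S : R3 × R3) :
    Ymap L m (shf s S) = shf s (Ymap L m S) := by
  simp only [Ymap, shf, Matrix.cons_val_zero, Matrix.cons_val_one, Matrix.cons_val]
  rw [mul_add, hs, w_add_int, dw_add_int]

lemma st_shf {L m z0 s : ℝ} (hL : L ≠ 0) {t : ℤ} (hs : L * s = t) (a c α β : ℕ → ℝ) (p : ℕ)
    (S : R3 × R3) : st L m z0 a c α β p (shf s S) = shf s (st L m z0 a c α β p S) := by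
  induction p with
  | zero => rfl
  | succ p ih => rw [st_succ hL, st_succ hL, ih, Xmap_shf, Ymap_shf hs]

lemma e_eq_one_iff {x : ℝ} : e x = 1 ↔ ∃ n : ℤ, x = n := by
  unfold e
  rw [Complex.exp_eq_one_iff]
  constructor
  · rintro ⟨n, hn⟩
    refine ⟨n, ?_⟩
    have h1 : ((2 * Real.pi * x : ℝ) : ℂ) = ((n * (2 * Real.pi) : ℝ) : ℂ) := by
      have h2 : ((2 * Real.pi * x : ℝ) : ℂ) * Complex.I = ((n * (2 * Real.pi) : ℝ) : ℂ) * Complex.I := by
        rw [hn]; push_cast; ring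
      exact mul_right_cancel₀ Complex.I_ne_zero h2
    have h3 : 2 * Real.pi * x = n * (2 * Real.pi) := by exact_mod_cast h1
    have := Real.pi_pos
    nlinarith [mul_right_cancel₀ (b := 2 * Real.pi) (by positivity) (a := x) (c := (n : ℝ)) (by linarith)]
  · rintro ⟨n, rfl⟩
    exact ⟨n, by push_cast; ring⟩

/-- The integrand. -/
noncomputable def gfun (L m z0 : ℝ) (a c α β : ℕ → ℝ) (N : ℕ) (B : R3 → R3) (L' : ℕ) (x : R3) : ℂ :=
  ((st L m z0 a c α β N (x, B x)).2 1 : ℝ) *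
    e (L' * (Xmap L z0 (a N) (c N) (α N) (β N) (st L m z0 a c α β N (x, B x))).1 0)

lemma gfun_shift {L : ℕ} (hL : 0 < L) (m z0 : ℝ) (a c α β : ℕ → ℝ) (N : ℕ) {B : R3 → R3}
    (hB : ∀ (s : ℝ) (t : ℤ), (L : ℝ) * s = t → ∀ x y : R3, y 0 = x 0 + s → y 1 = x 1 → y 2 = x 2 →
      B y = B x)
    (L' : ℕ) {s : ℝ} {t : ℤ} (hs : (L : ℝ) * s = t) {x y : R3} (h0 : y 0 = x 0 + s)
    (h1 : y 1 = x 1) (h2 : y 2 = x 2) :
    gfun L m z0 a c α β N B L' y = e (L' * s) * gfun L m z0 a c α β N B L' x := by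
  have hy : (y, B y) = shf s (x, B x) := by
    rw [hB s t hs x y h0 h1 h2, shf]
    congr 1
    ext i
    fin_cases i <;> simp [h0, h1, h2]
  have hL' : (L : ℝ) ≠ 0 := by exact_mod_cast hL.ne'
  unfold gfun
  rw [hy, st_shf hL' hs, Xmap_shf]
  simp only [shf, Matrix.cons_val_zero]
  rw [mul_add, e_add]
  ring

theorem gfun_orth {L L' : ℕ} (hL : 0 < L) (hLL : ¬ L ∣ L') (m z0 : ℝ) (a c α β : ℕ → ℝ) (N : ℕ)
    {B : R3 → R3}
    (hB : ∀ (s : ℝ) (t : ℤ), (L : ℝ) * s = t → ∀ x y : R3, y 0 = x 0 + s → y 1 = x 1 → y 2 = x 2 →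
      B y = B x)
    (hshift : ∀ g : R3 → ℂ, Periodic3 g → ∀ v : R3,
      ∫ x in cube, g (fun i => x i + v i) = ∫ x in cube, g x) :
    ∫ x in cube, gfun L m z0 a c α β N B L' x = 0 := by
  have hL' : (L : ℝ) ≠ 0 := by exact_mod_cast hL.ne'
  set g : R3 → ℂ := fun x => gfun L m z0 a c α β N B L' ![x 0, Int.fract (x 1), Int.fract (x 2)]
    with hg
  have h1 : ∀ x ∈ cube, g x = gfun L m z0 a c α β N B L' x := by
    intro x hx
    have h2 : (![x 0, Int.fract (x 1), Int.fract (x 2)] : R3) = x := by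
      ext i
      fin_cases i
      · rfl
      · simpa using Int.fract_eq_self.mpr (hx 1)
      · simpa using Int.fract_eq_self.mpr (hx 2)
    simp only [hg, h2]
  have hper : Periodic3 g := by
    intro x k
    simp only [hg, Int.fract_add_intCast]
    rw [gfun_shift hL m z0 a c α β N hB L' (s := k 0) (t := L * k 0) (by push_cast; ring)
      (x := ![x 0, Int.fract (x 1), Int.fract (x 2)])
      (y := ![x 0 + k 0, Int.fract (x 1), Int.fract (x 2)]) (by simp) (by simp) (by simp)]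
    have h3 : e ((L' : ℝ) * (k 0 : ℝ)) = 1 := by
      have : (L' : ℝ) * (k 0 : ℝ) = ((L' * k 0 : ℤ) : ℝ) := by push_cast; ring
      rw [this, e_int]
    rw [h3, one_mul]
  set I : ℂ := ∫ x in cube, g x with hI
  have h2 : ∫ x in cube, gfun L m z0 a c α β N B L' x = I :=
    (setIntegral_congr_fun measurableSet_cube fun x hx => h1 x hx).symm
  have h3 : I = e ((L' : ℝ) / L) * I := by
    conv_lhs => rw [hI, ← hshift g hper ![1 / (L : ℝ), 0, 0]]
    rw [hI, ← integral_const_mul]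
    apply integral_congr_ae
    filter_upwards with x
    simp only [hg]
    rw [gfun_shift hL m z0 a c α β N hB L' (s := 1 / (L : ℝ)) (t := 1) (by field_simp; simp)
      (x := ![x 0, Int.fract (x 1), Int.fract (x 2)])
      (y := ![x 0 + (![1 / (L : ℝ), 0, 0] : R3) 0, Int.fract (x 1 + (![1 / (L : ℝ), 0, 0] : R3) 1),
        Int.fract (x 2 + (![1 / (L : ℝ), 0, 0] : R3) 2)]) (by simp) (by simp) (by simp)]
    rw [mul_one_div]
  have h4 : e ((L' : ℝ) / L) ≠ 1 := by
    intro h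
    obtain ⟨n, hn⟩ := e_eq_one_iff.mp h
    apply hLL
    have h5 : (L' : ℝ) = n * L := by field_simp at hn; linarith
    have h6 : (L' : ℤ) = n * L := by exact_mod_cast h5
    have h7 : (L : ℤ) ∣ (L' : ℤ) := ⟨n, by rw [h6]; ring⟩
    exact_mod_cast h7
  rw [h2]
  have h5 : (e ((L' : ℝ) / L) - 1) * I = 0 := by linear_combination -h3
  rcases mul_eq_zero.mp h5 with h6 | h6
  · exact absurd (sub_eq_zero.mp h6) h4
  · exact h6

end Pool.Agent.Lib_helper43.Dyn
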