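import Mathlib
import Pool.Agent.Lib_helper43.Dyn.Orth

set_option autoImplicit false

/-! # Lower bound for the flux -/

namespace Pool.Agent.Lib_helper43.Dyn

open MeasureTheory Filter Topology Set
open scoped Nat

/-- The field `ψ`. -/
noncomputable def psi (x : R3) : R3 := ![0, psi0 (x 0), 0]

/-- Number of bands of a slab. -/
noncomputable def mj (j : ℕ) : ℝ := 2 ^ (j + 3)

/-- Index of the last period of a slab. -/
def Nj (j : ℕ) : ℕ := Nk (2 ^ j)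

lemma mj_pos (j : ℕ) : 0 < mj j := by unfold mj; positivity

lemma eight_le_mj (j : ℕ) : 8 ≤ mj j := by
  unfold mj
  calc (8 : ℝ) = 2 ^ 3 := by norm_num
    _ ≤ 2 ^ (j + 3) := pow_le_pow_right₀ (by norm_num) (by omega)

lemma Nj_eq (j : ℕ) : Nj j = 3 * 2 ^ j + 4 := by unfold Nj Nk; ring

lemma Nj_add_one_le (j : ℕ) : Nj j + 1 ≤ 2 ^ (j + 3) := by
  rw [Nj_eq, pow_add]
  have : 1 ≤ 2 ^ j := Nat.one_le_two_pow
  omega

lemma two_pow_le_LL (j : ℕ) : 2 ^ (j + 3) ≤ LL j :=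
  (Nat.pow_le_pow_right (by norm_num) (by omega)).trans (lt_LL j).le

lemma mj_le_LL (j : ℕ) : mj j ≤ LL j := by
  unfold mj
  exact_mod_cast two_pow_le_LL j

lemma drift_ok (j : ℕ) : 8 * mj j * Nj j ≤ LL j := by
  have h : 8 * 2 ^ (j + 3) * Nj j ≤ LL j := by
    refine le_trans ?_ (lt_LL j).le
    rw [Nj_eq]
    have h1 : 1 ≤ 2 ^ j := Nat.one_le_two_pow
    have h2 : 2 ^ (2 * j + 9) = 2 ^ j * 2 ^ j * 512 := by
      rw [pow_add, two_mul, pow_add]; norm_num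
    have h3 : 2 ^ (j + 3) = 2 ^ j * 8 := by rw [pow_add]; norm_num
    rw [h2, h3]
    nlinarith
  unfold mj
  exact_mod_cast h

lemma LL_div_mj (j : ℕ) : (LL j : ℝ) / mj j = ((qq j : ℤ) : ℝ) := by
  unfold LL mj
  push_cast
  field_simp

/-- The initial field of slab `j`. -/
noncomputable def Bj (j : ℕ) : R3 → R3 :=
  fld κ0 (LL j) (mj j) (Pn (2 ^ j + 1)) (Qn (2 ^ j + 1))

lemma isL2_Bj (j : ℕ) : IsL2 (Bj j) := isL2_fld (mj_pos j) (mj_le_LL j) (Pn_pos _) _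

lemma normSq_Bj (j : ℕ) : normSq (Bj j) ≤ 1 := fld_normSq (mj_pos j) (mj_le_LL j) (Pn_pos _) _

lemma divFree_Bj (j : ℕ) : DivFree (Bj j) :=
  divFree_fld (LL_pos j) (by linarith [eight_le_mj j]) (Pn_pos _) _

lemma nice_Bj (j : ℕ) : Nice fun x : R3 => (x, Bj j x) := by
  refine ⟨measurable_id.prodMk (measurable_fld _ _ _ _ _), κ0 * Db + κ0, fun x i => ?_⟩
  obtain ⟨h1, h2⟩ := fld_bound (mj_pos j) (mj_le_LL j) (Pn_pos (2 ^ j + 1)) (Qn (2 ^ j + 1)) x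
  have h3 := κ0_pos
  have h4 := mul_nonneg h3.le Db_nonneg
  fin_cases i
  · simp only [Bj, Fin.zero_eta]; linarith
  · simp only [Bj, Fin.mk_one, fld_one, abs_zero]; linarith
  · simp only [Bj, Fin.reduceFinMk]; linarith

/-- Existence of good phases for slab `j`. -/
lemma exists_phases_j (j : ℕ) : ∃ α β : ℕ → ℝ, (∀ p, α p ∈ Icc (0 : ℝ) 1) ∧
    (∀ p, β p ∈ Icc (0 : ℝ) 1) ∧
      1 / 2 * ((1 / 4) ^ (Nj j) * (κ0 * Rn (2 ^ j + 1) * cb ^ 2 / (16 * mj j ^ 2))) ≤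
      ∫ x in cube, (st (LL j) (mj j) (3 / mj j) (ak (2 ^ j)) (ck (2 ^ j)) α β (Nj j) (x, Bj j x)).2 1 *
        Real.cos (2 * Real.pi * (LL j * (Xmap (LL j) (3 / mj j) (ak (2 ^ j) (Nj j))
          (ck (2 ^ j) (Nj j)) (α (Nj j)) (β (Nj j))
          (st (LL j) (mj j) (3 / mj j) (ak (2 ^ j)) (ck (2 ^ j)) α β (Nj j) (x, Bj j x))).1 0)) := by
  have hL : (LL j : ℝ) ≠ 0 := by exact_mod_cast (LL_pos j).ne'
  obtain ⟨α, β, hα, hβ, h⟩ := ideal_flux (z0 := 3 / mj j) (volume.restrict cube) hL (LL_div_mj j)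
    (2 ^ j) (nice_Bj j)
  refine ⟨α, β, hα, hβ, le_trans (le_of_eq ?_) h⟩
  have h1 := integral_W0 (LL_pos j) (m := mj j) (by linarith [eight_le_mj j]) (2 ^ j) (3 / mj j)
  have h2 : ∫ x in cube, (W0 (2 ^ j)).ev (LL j) (3 / mj j) (x, Bj j x) =
      ((κ0 * Rn (2 ^ j + 1) * cb ^ 2 / (16 * mj j ^ 2) : ℝ) : ℂ) := h1
  rw [h2, Complex.norm_real, Real.norm_eq_abs, abs_of_nonneg]
  · rfl
  · have := κ0_pos
    have := mj_pos j
    have : (0 : ℝ) ≤ Rn (2 ^ j + 1) := by exact_mod_cast Rn_nonneg _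
    positivity

/-- The flux of the true flow. -/
lemma flux_eq (j : ℕ) {α β : ℕ → ℝ} {F G : ℝ → ℝ → ℝ}
    (hF : ∀ p, p ≤ Nj j → ∀ y z : ℝ, |y - ((p : ℝ) + 1 / 2) / mj j| ≤ 1 / (4 * mj j) →
      |z - 3 / mj j| ≤ 1 / (2 * mj j) →
      F y z = (ak (2 ^ j) p * w (LL j * y + β p) + α p) / LL j + ck (2 ^ j) p * (z - 3 / mj j))
    (hG : ∀ x z : ℝ, |z - 3 / mj j| ≤ 1 / (2 * mj j) → G x z = w (LL j * x) / LL j + 1 / mj j)
    (hshift : ∀ g : R3 → ℂ, Periodic3 g → ∀ v : R3,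
      ∫ x in cube, g (fun i => x i + v i) = ∫ x in cube, g x)
    {Ψ : R3 → R3} (hΨ : ∀ y, Ψ y = sX F ((fun y => sY G (sX F y))^[Nj j] y)) :
    ∫ x in cube, ∑ i, fderiv ℝ Ψ x (Bj j x) i * psi (Ψ x) i =
      1 / (j ! : ℝ) * ∫ x in cube,
        (st (LL j) (mj j) (3 / mj j) (ak (2 ^ j)) (ck (2 ^ j)) α β (Nj j) (x, Bj j x)).2 1 *
        Real.cos (2 * Real.pi * (LL j * (Xmap (LL j) (3 / mj j) (ak (2 ^ j) (Nj j))
          (ck (2 ^ j) (Nj j)) (α (Nj j)) (β (Nj j))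
          (st (LL j) (mj j) (3 / mj j) (ak (2 ^ j)) (ck (2 ^ j)) α β (Nj j) (x, Bj j x))).1 0)) := by
  have hLpos : (0 : ℝ) < LL j := by exact_mod_cast LL_pos j
  set v : R3 → ℝ := fun x =>
    (st (LL j) (mj j) (3 / mj j) (ak (2 ^ j)) (ck (2 ^ j)) α β (Nj j) (x, Bj j x)).2 1 with hv
  set X : R3 → ℝ := fun x => (Xmap (LL j) (3 / mj j) (ak (2 ^ j) (Nj j))
          (ck (2 ^ j) (Nj j)) (α (Nj j)) (β (Nj j))
          (st (LL j) (mj j) (3 / mj j) (ak (2 ^ j)) (ck (2 ^ j)) α β (Nj j) (x, Bj j x))).1 0 with hX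
  have h1 : ∫ x in cube, ∑ i, fderiv ℝ Ψ x (Bj j x) i * psi (Ψ x) i =
      ∫ x in cube, v x * psi0 (X x) := by
    apply setIntegral_congr_fun measurableSet_cube
    intro x hx
    simp only [Fin.sum_univ_three, psi, Matrix.cons_val_zero, Matrix.cons_val_one,
      Matrix.cons_val, mul_zero, zero_add, add_zero]
    by_cases hB : Bj j x = 0
    · have h2 : v x = 0 := by
        simp only [hv, hB, st_snd_zero]
        rfl
      rw [hB, map_zero, h2]
      simp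
    · have hg : x ∈ good (mj j) (3 / mj j) := fld_support (mj_pos j) hx hB
      obtain ⟨h2, h3⟩ := fderiv_real hLpos (mj_pos j) (drift_ok j) hF hG hg (Bj j x) hΨ
      rw [h3, h2]
      rfl
  have hnice := (nice_Bj j).st (LL j) (mj j) (3 / mj j) (ak (2 ^ j)) (ck (2 ^ j)) α β (Nj j)
  obtain ⟨hsm, M, hM⟩ := hnice
  have hvm : Measurable v := (measurable_pi_apply 1).comp hsm.snd
  have hXm : Measurable X := by
    have h2 : Measurable fun x : R3 => halfX (LL j) (3 / mj j) (ak (2 ^ j) (Nj j))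
        (ck (2 ^ j) (Nj j)) (β (Nj j))
        (st (LL j) (mj j) (3 / mj j) (ak (2 ^ j)) (ck (2 ^ j)) α β (Nj j) (x, Bj j x)) :=
      (continuous_halfX _ _ _ _ _).measurable.comp hsm
    have h3 : Measurable fun x : R3 => (halfX (LL j) (3 / mj j) (ak (2 ^ j) (Nj j))
        (ck (2 ^ j) (Nj j)) (β (Nj j))
        (st (LL j) (mj j) (3 / mj j) (ak (2 ^ j)) (ck (2 ^ j)) α β (Nj j) (x, Bj j x))).1 0 :=
      (measurable_pi_apply 0).comp h2.fst
    have h4 : X = fun x : R3 => (halfX (LL j) (3 / mj j) (ak (2 ^ j) (Nj j))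
        (ck (2 ^ j) (Nj j)) (β (Nj j))
        (st (LL j) (mj j) (3 / mj j) (ak (2 ^ j)) (ck (2 ^ j)) α β (Nj j) (x, Bj j x))).1 0 +
          α (Nj j) / LL j := by
      funext x
      simp only [hX, Xmap, halfX, Matrix.cons_val_zero]
      field_simp
      ring
    rw [h4]
    exact h3.add_const _
  have hMv : ∀ x, |v x| ≤ M := fun x => hM x 1
  have hM0 : 0 ≤ M := (abs_nonneg _).trans (hMv 0)
  -- the integrals of single modes
  have hmode : ∀ i, i ≠ j → ∫ x in cube, v x * Real.cos (2 * Real.pi * (LL i * X x)) = 0 := by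
    intro i hij
    have h2 := gfun_orth (LL_pos j) (LL_not_dvd (Ne.symm hij)) (mj j) (3 / mj j) (ak (2 ^ j)) (ck (2 ^ j))
      α β (Nj j) (B := Bj j)
      (fun s t hs x y h0 h1 h2 => fld_shift _ _ _ _ _ hs x y h0 h1 h2) hshift
    have h3 : ∀ x, v x * Real.cos (2 * Real.pi * (LL i * X x)) =
        (gfun (LL j) (mj j) (3 / mj j) (ak (2 ^ j)) (ck (2 ^ j)) α β (Nj j) (Bj j) (LL i) x).re := by
      intro x
      simp only [gfun, hv, hX]
      rw [Complex.re_ofReal_mul, e, Complex.exp_ofReal_mul_I_re]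
    simp only [h3]
    have hint : Integrable (gfun (LL j) (mj j) (3 / mj j) (ak (2 ^ j)) (ck (2 ^ j)) α β (Nj j) (Bj j)
        (LL i)) (volume.restrict cube) := by
      have h4 : Measurable (gfun (LL j) (mj j) (3 / mj j) (ak (2 ^ j)) (ck (2 ^ j)) α β (Nj j) (Bj j)
          (LL i)) := by
        have h5 : Measurable fun x => ((v x : ℝ) : ℂ) * e (LL i * X x) :=
          (Complex.measurable_ofReal.comp hvm).mul
            (e_continuous.measurable.comp (hXm.const_mul _))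
        exact h5
      refine Integrable.of_bound (C := M) h4.aestronglyMeasurable ?_
      filter_upwards with x
      have h5 : gfun (LL j) (mj j) (3 / mj j) (ak (2 ^ j)) (ck (2 ^ j)) α β (Nj j) (Bj j) (LL i) x =
          ((v x : ℝ) : ℂ) * e (LL i * X x) := rfl
      rw [h5, norm_mul, norm_e, mul_one, Complex.norm_real]
      exact hMv x
    have h4 := integral_re hint
    rw [h2] at h4
    simpa using h4
  -- termwise integration
  have hterm : ∀ i, Integrable (fun x => 1 / (i ! : ℝ) * (v x * Real.cos (2 * Real.pi * (LL i * X x))))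
      (volume.restrict cube) := by
    intro i
    have h2 : Measurable fun x => 1 / (i ! : ℝ) * (v x * Real.cos (2 * Real.pi * (LL i * X x))) :=
      (hvm.mul (Real.measurable_cos.comp ((hXm.const_mul _).const_mul _))).const_mul _
    refine Integrable.of_bound (C := 1 / (i ! : ℝ) * (M * 1)) h2.aestronglyMeasurable ?_
    filter_upwards with x
    rw [norm_mul, norm_mul, Real.norm_eq_abs, abs_of_nonneg (by positivity : (0 : ℝ) ≤ 1 / (i ! : ℝ))]
    have h3 := hMv x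
    have h4 := Real.abs_cos_le_one (2 * Real.pi * (LL i * X x))
    have h5 : ‖v x‖ ≤ M := h3
    have h6 : ‖Real.cos (2 * Real.pi * (LL i * X x))‖ ≤ 1 := h4
    gcongr
  have hsum : Summable fun i : ℕ =>
      ∫ x in cube, ‖1 / (i ! : ℝ) * (v x * Real.cos (2 * Real.pi * (LL i * X x)))‖ := by
    refine Summable.of_nonneg_of_le (fun i => integral_nonneg fun x => norm_nonneg _)
      (fun i => ?_) (summable_psi0.mul_right M)
    calc ∫ x in cube, ‖1 / (i ! : ℝ) * (v x * Real.cos (2 * Real.pi * (LL i * X x)))‖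
        ≤ ∫ x in cube, 1 / (i ! : ℝ) * M := by
          apply integral_mono (hterm i).norm (integrable_const _)
          intro x
          simp only
          rw [norm_mul, norm_mul, Real.norm_eq_abs,
            abs_of_nonneg (by positivity : (0 : ℝ) ≤ 1 / (i ! : ℝ))]
          have h3 : ‖v x‖ ≤ M := hMv x
          have h4 : ‖Real.cos (2 * Real.pi * (LL i * X x))‖ ≤ 1 := Real.abs_cos_le_one _
          gcongr
          calc ‖v x‖ * ‖Real.cos (2 * Real.pi * (LL i * X x))‖ ≤ M * 1 := by gcongr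
            _ = M := mul_one M
      _ = 1 / (i ! : ℝ) * M := by
          rw [integral_const]
          simp [Measure.real, volume_cube]
  have h2 : ∀ x, v x * psi0 (X x) =
      ∑' i, 1 / (i ! : ℝ) * (v x * Real.cos (2 * Real.pi * (LL i * X x))) := by
    intro x
    rw [psi0, ← tsum_mul_left]
    apply tsum_congr
    intro i
    rw [show 2 * Real.pi * (LL i : ℝ) * X x = 2 * Real.pi * (LL i * X x) by ring]
    ring
  rw [h1]
  simp only [h2]
  rw [← integral_tsum_of_summable_integral_norm hterm hsum, tsum_eq_single j]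
  · rw [integral_const_mul]
  · intro i hij
    rw [integral_const_mul, hmode i hij, mul_zero]

/-- Elementary growth estimate. -/
lemma growth (j : ℕ) : κ0 * cb ^ 2 / (2 * 256 * 16 * 64) * 2 ^ (2 ^ j) ≤
    1 / (j ! : ℝ) * (1 / 2 * ((1 / 4) ^ (Nj j) *
      (κ0 * Rn (2 ^ j + 1) * cb ^ 2 / (16 * mj j ^ 2)))) := by
  have hκ := κ0_pos
  have hR : (1024 : ℝ) ^ (2 ^ j) ≤ Rn (2 ^ j + 1) := by exact_mod_cast pow_le_Rn (2 ^ j)
  have hfac : (j ! : ℝ) ≤ 2 ^ (2 ^ j) := by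
    have h : j ! ≤ 2 ^ (2 ^ j) := by
      induction j with
      | zero => norm_num
      | succ j ih =>
        rw [Nat.factorial_succ]
        have h1 : j + 1 ≤ 2 ^ (2 ^ j) := by
          have h2 : j < 2 ^ j := Nat.lt_two_pow_self
          have h3 : 2 ^ j < 2 ^ (2 ^ j) := Nat.lt_two_pow_self
          omega
        calc (j + 1) * j ! ≤ 2 ^ (2 ^ j) * 2 ^ (2 ^ j) := by
              apply Nat.mul_le_mul h1
              apply ih
              exact_mod_cast pow_le_Rn (2 ^ j)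
          _ = 2 ^ (2 ^ (j + 1)) := by rw [← pow_add]; congr 1; rw [pow_succ]; ring
    exact_mod_cast h
  have hm : mj j ^ 2 = 64 * (2 ^ j) ^ 2 := by
    unfold mj; rw [pow_add]; ring
  have hsq : ((2 : ℝ) ^ j) ^ 2 ≤ 4 ^ (2 ^ j) := by
    have h1 : ((2 : ℝ) ^ j) ≤ 2 ^ (2 ^ j) :=
      pow_le_pow_right₀ (by norm_num) Nat.lt_two_pow_self.le
    calc ((2 : ℝ) ^ j) ^ 2 ≤ (2 ^ (2 ^ j)) ^ 2 := by gcongr
      _ = 4 ^ (2 ^ j) := by rw [← pow_mul, mul_comm, pow_mul]; norm_num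
  have hN : ((1 : ℝ) / 4) ^ (Nj j) = 1 / (256 * 64 ^ (2 ^ j)) := by
    rw [Nj_eq, pow_add, pow_mul, div_pow, div_pow, div_pow]
    norm_num
  have hjpos : (0 : ℝ) < (j ! : ℝ) := by positivity
  rw [hN, hm]
  have key : (2 : ℝ) ^ (2 ^ j) ≤ 1 / (j ! : ℝ) * (1 / 64 ^ (2 ^ j)) *
      ((Rn (2 ^ j + 1) : ℝ) / (2 ^ j) ^ 2) := by
    have h1 : (1024 : ℝ) ^ (2 ^ j) = 2 ^ (2 ^ j) * 2 ^ (2 ^ j) * 64 ^ (2 ^ j) * 4 ^ (2 ^ j) := by
      rw [← mul_pow, ← mul_pow, ← mul_pow]; norm_num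
    have h2 : (0 : ℝ) < (j ! : ℝ) * 64 ^ (2 ^ j) * (2 ^ j) ^ 2 := by positivity
    have h3 : 1 / (j ! : ℝ) * (1 / 64 ^ (2 ^ j)) * ((Rn (2 ^ j + 1) : ℝ) / (2 ^ j) ^ 2) =
        (Rn (2 ^ j + 1) : ℝ) / ((j ! : ℝ) * 64 ^ (2 ^ j) * (2 ^ j) ^ 2) := by
      field_simp
    rw [h3, le_div_iff₀ h2]
    refine le_trans ?_ hR
    rw [h1]
    calc (2 : ℝ) ^ (2 ^ j) * ((j ! : ℝ) * 64 ^ (2 ^ j) * (2 ^ j) ^ 2)
        ≤ (2 : ℝ) ^ (2 ^ j) * (2 ^ (2 ^ j) * 64 ^ (2 ^ j) * 4 ^ (2 ^ j)) := by gcongr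
      _ = _ := by ring
  calc κ0 * cb ^ 2 / (2 * 256 * 16 * 64) * 2 ^ (2 ^ j)
      ≤ κ0 * cb ^ 2 / (2 * 256 * 16 * 64) * (1 / (j ! : ℝ) * (1 / 64 ^ (2 ^ j)) *
      ((Rn (2 ^ j + 1) : ℝ) / (2 ^ j) ^ 2)) := by gcongr
    _ = _ := by field_simp

end Pool.Agent.Lib_helper43.Dyn
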