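import Mathlib
import Pool.Agent.Lib_helper43.Dyn.Lower
import Pool.Agent.Lib_helper36.Dyn.AltFlow
import Pool.Agent.Lib_helper36.Dyn.Antidynamo
import Pool.Agent.Lib_helper71.Dyn.GammaPos

set_option autoImplicit false

/-! # A perfect dynamo which is not a fast dynamo -/

namespace Pool.Agent.Lib_helper43.Dyn

open MeasureTheory Filter Topology Set
open scoped Nat ContDiff

lemma psi_periodic : Periodic3 psi := by
  intro x k
  simp only [psi]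
  rw [psi0_periodic]

lemma psi_contDiff : ContDiff ℝ ∞ psi := by
  rw [contDiff_pi]
  intro i
  fin_cases i
  · simp only [psi, Fin.zero_eta, Matrix.cons_val_zero]; exact contDiff_const
  · simp only [psi, Fin.mk_one, Matrix.cons_val_one, Matrix.cons_val_zero]
    exact contDiff_psi0.comp (contDiff_apply ℝ ℝ 0)
  · simp only [psi, Fin.reduceFinMk, Matrix.cons_val]; exact contDiff_const

/-- The growth of the fluxes beats `exp (t/30)`. -/
lemma growth_large (T : ℝ) : ∃ j : ℕ, T ≤ (Nj j : ℝ) + 1 / 2 ∧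
    Real.exp (1 / 30 * ((Nj j : ℝ) + 1 / 2)) ≤ κ0 * cb ^ 2 / (2 * 256 * 16 * 64) * 2 ^ (2 ^ j) := by
  have hC : 0 < κ0 * cb ^ 2 / (2 * 256 * 16 * 64) := by
    have := κ0_pos; have := cb_pos; positivity
  set C := κ0 * cb ^ 2 / (2 * 256 * 16 * 64) with hCdef
  have h2j : Tendsto (fun j : ℕ => 2 ^ j) atTop atTop := tendsto_pow_atTop_atTop_of_one_lt (by norm_num)
  have h1 : Tendsto (fun n : ℕ => C * (9 / 5 : ℝ) ^ n) atTop atTop :=
    (tendsto_pow_atTop_atTop_of_one_lt (by norm_num)).const_mul_atTop hC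
  have h3 := (h1.comp h2j).eventually_ge_atTop (Real.exp (3 / 20))
  have h4 : ∀ᶠ j : ℕ in atTop, T ≤ (Nj j : ℝ) + 1 / 2 := by
    have h5 := (tendsto_natCast_atTop_atTop (R := ℝ)).eventually_ge_atTop T
    filter_upwards [h5] with j hj
    have h6 : (j : ℝ) ≤ Nj j := by
      have h7 : j < 2 ^ j := Nat.lt_two_pow_self
      have h8 : j ≤ Nj j := by rw [Nj_eq]; omega
      exact_mod_cast h8
    linarith
  obtain ⟨j, hj1, hj2⟩ := (h3.and h4).exists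
  refine ⟨j, hj2, ?_⟩
  simp only [Function.comp] at hj1
  have h5 : (Nj j : ℝ) = 3 * 2 ^ j + 4 := by rw [Nj_eq]; push_cast; ring
  have h6 : Real.exp (1 / 30 * ((Nj j : ℝ) + 1 / 2)) = Real.exp (1 / 10) ^ (2 ^ j) * Real.exp (3 / 20) := by
    rw [h5, ← Real.exp_nat_mul, ← Real.exp_add]
    congr 1
    push_cast
    ring
  have h7 : Real.exp (1 / 10) ≤ 10 / 9 := by
    have h8 := Real.add_one_le_exp (-(1 / 10 : ℝ))
    rw [Real.exp_neg] at h8
    have h9 := Real.exp_pos (1 / 10)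
    have h10 : (9 / 10 : ℝ) ≤ (Real.exp (1 / 10))⁻¹ := by linarith
    rw [le_inv_comm₀ (by norm_num) h9] at h10
    norm_num at h10 ⊢
    exact h10
  rw [h6]
  calc Real.exp (1 / 10) ^ (2 ^ j) * Real.exp (3 / 20)
      ≤ (10 / 9) ^ (2 ^ j) * (C * (9 / 5 : ℝ) ^ (2 ^ j)) := by gcongr
    _ = C * ((10 / 9) * (9 / 5)) ^ (2 ^ j) := by rw [mul_pow]; ring
    _ = C * 2 ^ (2 ^ j) := by norm_num

/-- Main theorem, given profiles. -/
theorem main_of_FG
    (hFG : ∀ (α β : ℕ → ℕ → ℝ) (_ : ∀ j p, α j p ∈ Set.Icc (0 : ℝ) 1)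
      (_ : ∀ j p, β j p ∈ Set.Icc (0 : ℝ) 1),
      ∃ (F G : ℝ → ℝ → ℝ) (K : NNReal) (M : ℝ),
      LipschitzWith K (fun p : ℝ × ℝ => F p.1 p.2) ∧ LipschitzWith K (fun p : ℝ × ℝ => G p.1 p.2) ∧
      (∀ y z, |F y z| ≤ M) ∧ (∀ x z, |G x z| ≤ M) ∧
      (∀ y z, F (y + 1) z = F y z) ∧ (∀ y z, F y (z + 1) = F y z) ∧
      (∀ x z, G (x + 1) z = G x z) ∧ (∀ x z, G x (z + 1) = G x z) ∧
      (∀ j p, p ≤ Nj j → ∀ y z : ℝ, |y - ((p : ℝ) + 1 / 2) / 2 ^ (j + 3)| ≤ 1 / (4 * 2 ^ (j + 3)) →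
        |z - 3 / 2 ^ (j + 3)| ≤ 1 / (2 * 2 ^ (j + 3)) →
        F y z = (ak (2 ^ j) p * w (LL j * y + β j p) + α j p) / LL j +
          ck (2 ^ j) p * (z - 3 / 2 ^ (j + 3))) ∧
      (∀ (j : ℕ) (x z : ℝ), |z - 3 / 2 ^ (j + 3)| ≤ 1 / (2 * 2 ^ (j + 3)) →
        G x z = w (LL j * x) / LL j + 1 / 2 ^ (j + 3))) :
    ∃ u : ℝ → R3 → R3, Admissible u ∧ PerfectDynamo u ∧ ¬ FastDynamo u := by
  choose α β hα hβ hlow using exists_phases_j
  obtain ⟨F, G, K, M, hFL, hGL, hFM, hGM, hF1, hF2, hG1, hG2, hFc, hGc⟩ := hFG α β hα hβ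
  obtain ⟨hadm, Φ, hflow, hhalf, -, hflux, hweight⟩ :=
    Pool.Agent.LibH36.Dyn.exists_altFlow hFL hGL hFM hGM hF1 hF2 hG1 hG2
  refine ⟨Pool.Agent.LibH36.Dyn.altU F G, hadm, ⟨Φ, hflow, psi, psi_periodic, psi_contDiff, ?_⟩, ?_⟩
  · refine Pool.Agent.Lib_helper71.Dyn.gamma_pos (γ := 1 / 30) (by norm_num)
      (fun t ht => hweight t ht psi psi_periodic psi_contDiff.continuous) ?_
    intro T
    obtain ⟨j, hj1, hj2⟩ := growth_large T
    refine ⟨(Nj j : ℝ) + 1 / 2, hj1, Bj j, isL2_Bj j, divFree_Bj j, normSq_Bj j, ?_⟩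
    rw [hflux _ (by positivity) _ _ (isL2_Bj j).2.1 psi_periodic]
    rw [flux_eq j (α := α j) (β := β j) (F := F) (G := G) (hFc j) (hGc j)
      (fun g hg v => Pool.Agent.LibH36.Dyn.integral_cube_shift g hg v)
      (fun y => hhalf (Nj j) y)]
    refine hj2.trans ((growth j).trans ?_)
    refine le_trans ?_ (le_abs_self _)
    gcongr
    exact hlow j
  · apply Pool.Agent.LibH36.Dyn.planar_not_fast hadm
    intro t x
    unfold Pool.Agent.LibH36.Dyn.altU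
    split_ifs <;> simp

end Pool.Agent.Lib_helper43.Dyn
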