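import Mathlib
import Pool.Agent.Lib_helper43.Dyn.Main
import Pool.Agent.Lib_helper43.Dyn.FG

set_option autoImplicit false

namespace Pool.Agent.Lib_helper43.Dyn

/-- There is an admissible velocity field which is a perfect dynamo but not a fast dynamo. -/
theorem exists_perfect_not_fast :
    ∃ u : ℝ → R3 → R3, Admissible u ∧ PerfectDynamo u ∧ ¬ FastDynamo u := by
  refine main_of_FG fun α β hα hβ => ?_
  exact exists_FG LL Nj two_pow_le_LL Nj_add_one_le (fun j p => ak (2 ^ j) p)
    (fun j p => ck (2 ^ j) p) α β (fun j p => abs_ak_le _ _) (fun j p => abs_ck_le _ _) hα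

end Pool.Agent.Lib_helper43.Dyn
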