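import Pool.Agent.Lib_helper36.Dyn.Antidynamo

set_option autoImplicit false

/-!
# Planar admissible fields: no solution of the induction equation grows exponentially

The proof of `Pool.Agent.LibH36.Dyn.planar_not_fast`, stated for every diffusivity, every initial
datum and every solution.
-/

namespace Pool.Agent.Lib_helper43.Dyn

open MeasureTheory Filter Topology Set
open scoped ComplexConjugate ENNReal
open Pool.Agent.LibH36.Dyn

/-- **No growth for planar fields.** If the third component of an admissible velocity field `u`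
vanishes then, for every diffusivity `ε > 0`, every solution `B` of the induction equation with a
non-zero initial datum and all `c₀, γ₀ > 0`, the bound `‖B(t)‖ ≥ c₀ e^(γ₀ t) ‖Bin‖` fails at some
time `t ≥ 0`. -/
theorem planar_no_growth {u : ℝ → R3 → R3} (hu : Admissible u) (h3 : ∀ t x, u t x 2 = 0)
    {ε c₀ γ : ℝ} (hε : 0 < ε) (hc₀ : 0 < c₀) (hγ : 0 < γ) {Bin : R3 → R3} {B : ℝ → R3 → R3}
    (hpos : 0 < l2norm Bin) (hB : IsSolution ε u Bin B) :
    ∃ t : ℝ, 0 ≤ t ∧
      l2norm (B t) < ENNReal.ofReal (c₀ * Real.exp (γ * t)) * l2norm Bin := by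
  by_contra hno
  have hgrow : ∀ t : ℝ, 0 ≤ t →
      ENNReal.ofReal (c₀ * Real.exp (γ * t)) * l2norm Bin ≤ l2norm (B t) := by
    intro t ht
    by_contra hlt
    exact hno ⟨t, ht, not_le.mp hlt⟩
  obtain ⟨M, hM⟩ := hu.bounded
  have hM0 : 0 ≤ M := (norm_nonneg _).trans (hM 0 0)
  -- the initial energy
  have h0 : normSq (B 0) = normSq Bin := by
    unfold normSq
    apply lintegral_congr_ae
    filter_upwards [ae_restrict_of_ae hB.initial] with x hx
    rw [hx]
  set β := ∑ i, ‖vf (B 0) i‖ ^ 2 with hβ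
  have hβ0 : ENNReal.ofReal β = normSq Bin := by
    rw [← h0]; exact sum_norm_vf (hB.isL2 0 le_rfl).1 (hB.isL2 0 le_rfl).2.2
  have hβpos : 0 < β := by
    rw [← ENNReal.ofReal_pos, hβ0]
    rw [l2norm] at hpos
    by_contra hcon
    have : normSq Bin = 0 := by simpa using hcon
    rw [this] at hpos
    norm_num at hpos
  -- squared growth
  have hg : ∀ t : ℝ, 0 ≤ t → c₀ ^ 2 * Real.exp (2 * γ * t) * β ≤ ∑ i, ‖vf (B t) i‖ ^ 2 := by
    intro t ht
    have h1 := hgrow t ht
    unfold l2norm at h1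
    have h2 := ENNReal.rpow_le_rpow h1 (by norm_num : (0 : ℝ) ≤ 2)
    rw [ENNReal.mul_rpow_of_nonneg _ _ (by norm_num : (0 : ℝ) ≤ 2), ← ENNReal.rpow_mul,
      ← ENNReal.rpow_mul] at h2
    norm_num at h2
    rw [← hβ0, ← sum_norm_vf (hB.isL2 t ht).1 (hB.isL2 t ht).2.2,
      ← ENNReal.ofReal_pow (by positivity), ← ENNReal.ofReal_mul (by positivity)] at h2
    have h4 := (ENNReal.ofReal_le_ofReal_iff
      (Finset.sum_nonneg fun _ _ => by positivity)).mp h2
    have h5 : (c₀ * Real.exp (γ * t)) ^ 2 = c₀ ^ 2 * Real.exp (2 * γ * t) := by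
      rw [mul_pow, ← Real.exp_nat_mul]
      congr 2
      push_cast
      ring
    rw [h5] at h4
    exact h4
  -- comparison for all T
  have hcmp : ∀ T : ℝ, 1 ≤ T → c₀ ^ 2 * γ ^ 3 / 3 * T ^ 4 ≤ cst M ε 1 * T ^ 2 := by
    intro T hT
    have hT0 : 0 ≤ T := by linarith
    have hevo := evo_of hu hM hM0 h3 hε hB hT0
    have h1 := hevo.main
    have h2 := cst_le hM0 hε hT
    have hcont : Integrable (fun s => ∑ i, ‖vf (B s) i‖ ^ 2) (volume.restrict (Ioc 0 T)) := by
      apply integrable_finsetSum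
      intro i _
      exact ((((hevo.cont i).norm).pow 2).integrableOn_Icc).mono_set Ioc_subset_Icc_self
    have hlow : ∫ s in Ioc 0 T, (c₀ ^ 2 * β * (4 * γ ^ 3 / 3)) * s ^ 3 ≤
        ∫ s in Ioc 0 T, ∑ i, ‖vf (B s) i‖ ^ 2 := by
      apply integral_mono_ae _ hcont
      · filter_upwards [ae_restrict_mem measurableSet_Ioc] with s hs
        have hs0 : 0 ≤ s := hs.1.le
        refine le_trans ?_ (hg s hs0)
        have h5 := Real.pow_div_factorial_le_exp (2 * γ * s) (by positivity) 3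
        have h6 : (2 * γ * s) ^ 3 / (Nat.factorial 3 : ℕ) = 4 * γ ^ 3 / 3 * s ^ 3 := by
          norm_num [Nat.factorial]
          ring
        rw [h6] at h5
        have h7 : c₀ ^ 2 * β * (4 * γ ^ 3 / 3 * s ^ 3) ≤ c₀ ^ 2 * β * Real.exp (2 * γ * s) :=
          mul_le_mul_of_nonneg_left h5 (by positivity)
        linarith
      · refine Integrable.const_mul ?_ _
        exact ((continuous_pow 3).integrableOn_Icc).mono_set Ioc_subset_Icc_self
    have hI : ∫ s in Ioc 0 T, (c₀ ^ 2 * β * (4 * γ ^ 3 / 3)) * s ^ 3 =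
        c₀ ^ 2 * β * (4 * γ ^ 3 / 3) * (T ^ 4 / 4) := by
      rw [integral_const_mul, ← intervalIntegral.integral_of_le hT0, integral_pow]
      norm_num
    rw [hI] at hlow
    have h8 : c₀ ^ 2 * β * (4 * γ ^ 3 / 3) * (T ^ 4 / 4) ≤ cst M ε 1 * T ^ 2 * β :=
      (hlow.trans h1).trans (mul_le_mul_of_nonneg_right h2 hβpos.le)
    have h9 : (c₀ ^ 2 * γ ^ 3 / 3 * T ^ 4) * β ≤ (cst M ε 1 * T ^ 2) * β := by
      calc (c₀ ^ 2 * γ ^ 3 / 3 * T ^ 4) * β =
          c₀ ^ 2 * β * (4 * γ ^ 3 / 3) * (T ^ 4 / 4) := by ring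
        _ ≤ _ := h8
    exact le_of_mul_le_mul_right h9 hβpos
  -- contradiction
  set a := c₀ ^ 2 * γ ^ 3 / 3 with ha
  have ha0 : 0 < a := by positivity
  set C := cst M ε 1 with hC
  set T := max 1 (|C| / a + 1) with hTdef
  have hT1 : 1 ≤ T := le_max_left _ _
  have hT2 : |C| / a + 1 ≤ T := le_max_right _ _
  have h10 := hcmp T hT1
  have h11 : |C| < a * T := by
    have : |C| / a < T := by linarith
    rw [div_lt_iff₀ ha0] at this
    linarith
  have h12 : a * T ^ 4 ≤ |C| * T ^ 2 :=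
    h10.trans (mul_le_mul_of_nonneg_right (le_abs_self _) (by positivity))
  have h13 : a * T ^ 2 ≤ |C| := by
    have hT20 : 0 < T ^ 2 := by positivity
    have : (a * T ^ 2) * T ^ 2 ≤ |C| * T ^ 2 := by
      calc (a * T ^ 2) * T ^ 2 = a * T ^ 4 := by ring
        _ ≤ _ := h12
    exact le_of_mul_le_mul_right this hT20
  have h14 : a * T ≤ a * T ^ 2 := by
    apply mul_le_mul_of_nonneg_left _ ha0.le
    nlinarith
  linarith

end Pool.Agent.Lib_helper43.Dyn
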