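import Mathlib
import Pool.Agent.Lib_helper43.Dyn.Main
import Pool.Agent.Lib_helper43.Dyn.FG
import Pool.Agent.Lib_helper43.Dyn.NoGrowth

set_option autoImplicit false

/-! # A planar perfect dynamo; none of its solutions grows exponentially -/

namespace Pool.Agent.Lib_helper43.Dyn

open MeasureTheory Filter Topology Set
open scoped Nat ContDiff

/-- Main theorem, given profiles, with the planar form of the field in the conclusion. -/
theorem planar_of_FG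
    (hFG : ∀ (α β : ℕ → ℕ → ℝ) (_ : ∀ j p, α j p ∈ Set.Icc (0 : ℝ) 1)
      (_ : ∀ j p, β j p ∈ Set.Icc (0 : ℝ) 1),
      ∃ (F G : ℝ → ℝ → ℝ) (K : NNReal) (M : ℝ),
      LipschitzWith K (fun p : ℝ × ℝ => F p.1 p.2) ∧ LipschitzWith K (fun p : ℝ × ℝ => G p.1 p.2) ∧
      (∀ y z, |F y z| ≤ M) ∧ (∀ x z, |G x z| ≤ M) ∧
      (∀ y z, F (y + 1) z = F y z) ∧ (∀ y z, F y (z + 1) = F y z) ∧
      (∀ x z, G (x + 1) z = G x z) ∧ (∀ x z, G x (z + 1) = G x z) ∧
      (∀ j p, p ≤ Nj j → ∀ y z : ℝ, |y - ((p : ℝ) + 1 / 2) / 2 ^ (j + 3)| ≤ 1 / (4 * 2 ^ (j + 3)) →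
        |z - 3 / 2 ^ (j + 3)| ≤ 1 / (2 * 2 ^ (j + 3)) →
        F y z = (ak (2 ^ j) p * w (LL j * y + β j p) + α j p) / LL j +
          ck (2 ^ j) p * (z - 3 / 2 ^ (j + 3))) ∧
      (∀ (j : ℕ) (x z : ℝ), |z - 3 / 2 ^ (j + 3)| ≤ 1 / (2 * 2 ^ (j + 3)) →
        G x z = w (LL j * x) / LL j + 1 / 2 ^ (j + 3))) :
    ∃ u : ℝ → R3 → R3, Admissible u ∧ PerfectDynamo u ∧ ∀ t x, u t x 2 = 0 := by
  choose α β hα hβ hlow using exists_phases_j
  obtain ⟨F, G, K, M, hFL, hGL, hFM, hGM, hF1, hF2, hG1, hG2, hFc, hGc⟩ := hFG α β hα hβ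
  obtain ⟨hadm, Φ, hflow, hhalf, -, hflux, hweight⟩ :=
    Pool.Agent.LibH36.Dyn.exists_altFlow hFL hGL hFM hGM hF1 hF2 hG1 hG2
  refine ⟨Pool.Agent.LibH36.Dyn.altU F G, hadm, ⟨Φ, hflow, psi, psi_periodic, psi_contDiff, ?_⟩, ?_⟩
  · refine Pool.Agent.Lib_helper71.Dyn.gamma_pos (γ := 1 / 30) (by norm_num)
      (fun t ht => hweight t ht psi psi_periodic psi_contDiff.continuous) ?_
    intro T
    obtain ⟨j, hj1, hj2⟩ := growth_large T
    refine ⟨(Nj j : ℝ) + 1 / 2, hj1, Bj j, isL2_Bj j, divFree_Bj j, normSq_Bj j, ?_⟩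
    rw [hflux _ (by positivity) _ _ (isL2_Bj j).2.1 psi_periodic]
    rw [flux_eq j (α := α j) (β := β j) (F := F) (G := G) (hFc j) (hGc j)
      (fun g hg v => Pool.Agent.LibH36.Dyn.integral_cube_shift g hg v)
      (fun y => hhalf (Nj j) y)]
    refine hj2.trans ((growth j).trans ?_)
    refine le_trans ?_ (le_abs_self _)
    gcongr
    exact hlow j
  · intro t x
    unfold Pool.Agent.LibH36.Dyn.altU
    split_ifs <;> simp

/-- There is an admissible velocity field with zero third component which is a perfect dynamo. -/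
theorem exists_perfect_planar :
    ∃ u : ℝ → R3 → R3, Admissible u ∧ PerfectDynamo u ∧ ∀ t x, u t x 2 = 0 := by
  refine planar_of_FG fun α β hα hβ => ?_
  exact exists_FG LL Nj two_pow_le_LL Nj_add_one_le (fun j p => ak (2 ^ j) p)
    (fun j p => ck (2 ^ j) p) α β (fun j p => abs_ak_le _ _) (fun j p => abs_ck_le _ _) hα

end Pool.Agent.Lib_helper43.Dyn
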